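import Mathlib

set_option autoImplicit false

open scoped Topology Pointwise
open Set Filter

noncomputable section

namespace Pool.Agent.Helper802

section Abs

variable {G : Type*} [Group G] [TopologicalSpace G] [IsTopologicalGroup G]

/-- In a topological group `B` with a compact neighbourhood of `1`, an increasing union of finite
cyclic groups whose generators tend to `1` is relatively compact. -/
theorem relcompact_of_generators {B : Type*} [Group B] [TopologicalSpace B] [IsTopologicalGroup B]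
    [LocallyCompactSpace B] (γ : ℕ → B) (N : ℕ → ℕ) (hN : ∀ n, 0 < N n)
    (hfin : ∀ n, γ n ^ N n = 1) (hinc : ∀ n, γ n ∈ Subgroup.zpowers (γ (n + 1)))
    (hlim : Tendsto γ atTop (𝓝 1)) :
    ∃ X : Set B, IsCompact X ∧ ∀ n, ∀ g ∈ Subgroup.zpowers (γ n), g ∈ X := by
  have hmono : Monotone fun n => Subgroup.zpowers (γ n) := by
    apply monotone_nat_of_le_succ
    intro n
    rw [Subgroup.zpowers_le]
    exact hinc n
  let P : Subgroup B := ⨆ n, Subgroup.zpowers (γ n)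
  have hP : ∀ g, g ∈ P ↔ ∃ n, g ∈ Subgroup.zpowers (γ n) := by
    intro g
    exact Subgroup.mem_iSup_of_directed hmono.directed_le
  obtain ⟨V₀, hV₀c, hV₀⟩ := exists_compact_mem_nhds (1 : B)
  let L : Subgroup B := P.topologicalClosure
  have hLcl : IsClosed (L : Set B) := P.isClosed_topologicalClosure
  let V : Set B := V₀ ∩ L
  have hVc : IsCompact V := hV₀c.inter_right hLcl
  have hVV : IsCompact (V * V) := hVc.mul hVc
  have hPL : ∀ g ∈ P, g ∈ L := fun g hg => P.le_topologicalClosure hg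
  have hcover : V * V ⊆ ⋃ p : P, ((p : B) • interior V₀) := by
    rintro l ⟨a, ha, b, hb, rfl⟩
    have hl : a * b ∈ L := L.mul_mem ha.2 hb.2
    have hl' : a * b ∈ closure (P : Set B) := hl
    -- the set l * (interior V₀)⁻¹ is an open neighbourhood of l
    have hopen : IsOpen ((fun x => x⁻¹ * (a * b)) ⁻¹' interior V₀) :=
      isOpen_interior.preimage (continuous_inv.mul continuous_const)
    have hmem : a * b ∈ ((fun x => x⁻¹ * (a * b)) ⁻¹' interior V₀) := by
      simp only [mem_preimage, inv_mul_cancel]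
      exact mem_interior_iff_mem_nhds.2 hV₀
    obtain ⟨p, hp1, hp2⟩ := mem_closure_iff.1 hl' _ hopen hmem
    rw [mem_iUnion]
    refine ⟨⟨p, hp2⟩, ?_⟩
    rw [mem_smul_set_iff_inv_smul_mem]
    exact hp1
  obtain ⟨t, ht⟩ := hVV.elim_finite_subcover _ (fun p => isOpen_interior.smul _) hcover
  -- all of `t` inside one zpowers
  obtain ⟨m, hm⟩ : ∃ m, ∀ p ∈ t, (p : B) ∈ Subgroup.zpowers (γ m) := by
    have : ∀ p : P, ∃ n, (p : B) ∈ Subgroup.zpowers (γ n) := fun p => (hP _).1 p.2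
    choose f hf using this
    refine ⟨t.sup f, fun p hp => hmono (Finset.le_sup hp) (hf p)⟩
  have hfinite : ((Subgroup.zpowers (γ m) : Subgroup B) : Set B).Finite := by
    have : IsOfFinOrder (γ m) := isOfFinOrder_iff_pow_eq_one.2 ⟨N m, hN m, hfin m⟩
    exact this.finite_zpowers
  let X : Set B := (Subgroup.zpowers (γ m) : Set B) * V
  have hXc : IsCompact X := hfinite.isCompact.mul hVc
  have hXV : ∀ x ∈ X, ∀ v ∈ V, x * v ∈ X := by
    rintro _ ⟨g, hg, w, hw, rfl⟩ v hv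
    have h1 : w * v ∈ V * V := mul_mem_mul hw hv
    have h2 := ht h1
    simp only [mem_iUnion, exists_prop] at h2
    obtain ⟨p, hpt, hp⟩ := h2
    rw [mem_smul_set_iff_inv_smul_mem] at hp
    refine ⟨g * p, Subgroup.mul_mem _ hg (hm p hpt), (p : B)⁻¹ * (w * v), ⟨interior_subset hp, ?_⟩, ?_⟩
    · exact L.mul_mem (L.inv_mem (hPL _ p.2)) (L.mul_mem hw.2 hv.2)
    · simp [mul_assoc]
  have h1X : (1 : B) ∈ X :=
    ⟨1, Subgroup.one_mem _, 1, ⟨mem_of_mem_nhds hV₀, L.one_mem⟩, by simp⟩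
  obtain ⟨n₀, hn₀⟩ : ∃ n₀, ∀ n ≥ n₀, γ n ∈ V₀ := by
    have := hlim.eventually_mem hV₀
    exact eventually_atTop.1 this
  have hγV : ∀ n ≥ n₀, γ n ∈ V := fun n hn =>
    ⟨hn₀ n hn, hPL _ ((hP _).2 ⟨n, Subgroup.mem_zpowers _⟩)⟩
  have hpow : ∀ n ≥ n₀, ∀ k : ℕ, γ n ^ k ∈ X := by
    intro n hn k
    induction k with
    | zero => simpa using h1X
    | succ k ih => rw [pow_succ]; exact hXV _ ih _ (hγV n hn)
  refine ⟨X, hXc, fun n g hg => ?_⟩
  have hg' : g ∈ Subgroup.zpowers (γ (max n n₀)) := hmono (le_max_left _ _) hg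
  have hfo : IsOfFinOrder (γ (max n n₀)) :=
    isOfFinOrder_iff_pow_eq_one.2 ⟨N _, hN _, hfin _⟩
  rw [← hfo.mem_powers_iff_mem_zpowers, Submonoid.mem_powers_iff] at hg'
  obtain ⟨k, rfl⟩ := hg'
  exact hpow _ (le_max_right _ _) k

/-- The abstract obstruction to `G ⧸ A` being locally compact. -/
theorem commutators_relcompact (A : Subgroup G) [A.Normal] (hA : A ≤ Subgroup.center G)
    [LocallyCompactSpace (G ⧸ A)] (γ : ℕ → G) (N : ℕ → ℕ) (hN : ∀ n, 0 < N n)
    (hfin : ∀ n, γ n ^ N n = 1) (hinc : ∀ n, γ n ∈ Subgroup.zpowers (γ (n + 1)))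
    (hlim : Tendsto γ atTop (𝓝 1)) (s : G) :
    ∃ K : Set G, IsCompact K ∧ ∀ n, ∀ g ∈ Subgroup.zpowers (γ n), g * s * g⁻¹ * s⁻¹ ∈ K := by
  have hπc : Continuous (QuotientGroup.mk : G → G ⧸ A) := continuous_quotient_mk'
  obtain ⟨X, hX, hX'⟩ := relcompact_of_generators (B := G ⧸ A) (fun n => (γ n : G ⧸ A)) N hN
    (fun n => by rw [← QuotientGroup.mk_pow, hfin n]; rfl)
    (fun n => by
      obtain ⟨k, hk⟩ := Subgroup.mem_zpowers_iff.1 (hinc n)
      refine Subgroup.mem_zpowers_iff.2 ⟨k, ?_⟩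
      rw [← QuotientGroup.mk_zpow, hk])
    (by
      have := (hπc.tendsto 1).comp hlim
      exact this)
  have hlift : ∀ a b : G, (QuotientGroup.leftRel A) a b →
      a * s * a⁻¹ * s⁻¹ = b * s * b⁻¹ * s⁻¹ := by
    intro a b hab
    rw [QuotientGroup.leftRel_apply] at hab
    obtain ⟨z, hz⟩ : ∃ z, z = a⁻¹ * b := ⟨_, rfl⟩
    have hzc : z ∈ Subgroup.center G := by rw [hz]; exact hA hab
    have hb : b = a * z := by rw [hz]; group
    rw [Subgroup.mem_center_iff] at hzc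
    rw [hb]
    have h1 : z * s = s * z := (hzc s).symm
    calc a * s * a⁻¹ * s⁻¹ = a * s * z * z⁻¹ * a⁻¹ * s⁻¹ := by group
      _ = a * (s * z) * z⁻¹ * a⁻¹ * s⁻¹ := by simp only [mul_assoc]
      _ = a * (z * s) * z⁻¹ * a⁻¹ * s⁻¹ := by rw [h1]
      _ = a * z * s * (a * z)⁻¹ * s⁻¹ := by group
  let c : G ⧸ A → G := Quotient.lift (fun g : G => g * s * g⁻¹ * s⁻¹) hlift
  have hc : Continuous c := by
    apply Continuous.quotient_lift
    fun_prop
  refine ⟨c '' X, hX.image hc, fun n g hg => ⟨(g : G ⧸ A), hX' n _ ?_, rfl⟩⟩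
  obtain ⟨k, hk⟩ := Subgroup.mem_zpowers_iff.1 hg
  refine Subgroup.mem_zpowers_iff.2 ⟨k, ?_⟩
  rw [← QuotientGroup.mk_zpow, hk]

end Abs

end Pool.Agent.Helper802
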