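import Mathlib

set_option autoImplicit false

open scoped Manifold ContDiff Topology

noncomputable section

namespace Pool.Agent.Helper802

section Diffeos

variable {E : Type} [NormedAddCommGroup E] [NormedSpace ℝ E] {H : Type} [TopologicalSpace H]
  {I : ModelWithCorners ℝ E H} {M : Type} [TopologicalSpace M] [ChartedSpace H M]

/-- Multiplication of diffeomorphisms: `f * g = f ∘ g`. -/
instance diffMul : Mul (M ≃ₘ⟮I, I⟯ M) := ⟨fun f g => g.trans f⟩

/-- The identity diffeomorphism. -/
instance diffOne : One (M ≃ₘ⟮I, I⟯ M) := ⟨Diffeomorph.refl I M ∞⟩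

/-- The inverse diffeomorphism. -/
instance diffInv : Inv (M ≃ₘ⟮I, I⟯ M) := ⟨fun f => f.symm⟩

theorem diff_inv_mul_cancel (f : M ≃ₘ⟮I, I⟯ M) : f⁻¹ * f = 1 := by
  apply Diffeomorph.ext
  intro x
  exact f.symm_apply_apply x

/-- The group of smooth diffeomorphisms of `M` under composition. -/
instance diffGroup : Group (M ≃ₘ⟮I, I⟯ M) :=
  Group.ofLeftAxioms (fun _ _ _ => rfl) (fun _ => rfl) diff_inv_mul_cancel

theorem diff_mul_apply (f g : M ≃ₘ⟮I, I⟯ M) (x : M) : (f * g) x = f (g x) := rfl

theorem diff_one_apply (x : M) : (1 : M ≃ₘ⟮I, I⟯ M) x = x := rfl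

theorem diff_inv_apply (f : M ≃ₘ⟮I, I⟯ M) (x : M) : (f⁻¹) x = f.symm x := rfl

/-- The tangent lift `Tf : TM → TM` of a diffeomorphism `f` of `M`, a diffeomorphism of the
tangent bundle. -/
def tangentLift [IsManifold I ∞ M] (f : M ≃ₘ⟮I, I⟯ M) :
    TangentBundle I M ≃ₘ⟮I.tangent, I.tangent⟯ TangentBundle I M where
  toFun := tangentMap I I f
  invFun := tangentMap I I f.symm
  left_inv p := by
    have h := tangentMap_comp (I := I) (I' := I) (I'' := I) (g := f.symm) (f := f)
      (f.symm.contMDiff.mdifferentiable (by simp)) (f.contMDiff.mdifferentiable (by simp))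
    have h2 : (f.symm ∘ f : M → M) = id := by ext x; simp
    rw [h2, tangentMap_id] at h
    exact (congrFun h p).symm
  right_inv p := by
    have h := tangentMap_comp (I := I) (I' := I) (I'' := I) (g := f) (f := f.symm)
      (f.contMDiff.mdifferentiable (by simp)) (f.symm.contMDiff.mdifferentiable (by simp))
    have h2 : (f ∘ f.symm : M → M) = id := by ext x; simp
    rw [h2, tangentMap_id] at h
    exact (congrFun h p).symm
  contMDiff_toFun := f.contMDiff.contMDiff_tangentMap (by exact le_rfl)
  contMDiff_invFun := f.symm.contMDiff.contMDiff_tangentMap (by exact le_rfl)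

end Diffeos

/-- The topology on `Diff^∞(M)` of uniform convergence on compact sets of the `k`-th iterated
tangent map: for `k = 0` it is the compact-open topology, and for `k + 1` it is the initial
topology for the tangent lift `f ↦ Tf` into `Diff^∞(TM)` with the topology of index `k`. -/
@[implicit_reducible] def ckTopology : (k : ℕ) → {E : Type} → [NormedAddCommGroup E] → [NormedSpace ℝ E] →
    {H : Type} → [TopologicalSpace H] → (I : ModelWithCorners ℝ E H) → (M : Type) →
    [TopologicalSpace M] → [ChartedSpace H M] → [IsManifold I ∞ M] →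
    TopologicalSpace (M ≃ₘ⟮I, I⟯ M)
  | 0, _, _, _, _, _, I, M, _, _, _ =>
      TopologicalSpace.induced (fun f : M ≃ₘ⟮I, I⟯ M => (⟨f, f.continuous⟩ : C(M, M)))
        ContinuousMap.compactOpen
  | k + 1, _, _, _, _, _, I, M, _, _, _ =>
      TopologicalSpace.induced (tangentLift (I := I) (M := M))
        (ckTopology k I.tangent (TangentBundle I M))

section Cinf

variable {E : Type} [NormedAddCommGroup E] [NormedSpace ℝ E] {H : Type} [TopologicalSpace H]
  {I : ModelWithCorners ℝ E H} {M : Type} [TopologicalSpace M] [ChartedSpace H M]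
  [IsManifold I ∞ M]

/-- The `C^∞` topology on `Diff^∞(M)`: the coarsest topology finer than all the
`ckTopology k`. -/
instance smoothTopology : TopologicalSpace (M ≃ₘ⟮I, I⟯ M) :=
  ⨅ k : ℕ, ckTopology k I M

/-- `f` is transitive: some orbit `{f ^ n (x) : n ∈ ℤ}` is dense. -/
def IsTransitive (f : M ≃ₘ⟮I, I⟯ M) : Prop :=
  ∃ x : M, Dense (Set.range fun n : ℤ => (f ^ n) x)

end Cinf

/-- A topological group `G` is a central extension of a Lie group if it has a closed subgroup `A`
contained in the centre such that `G ⧸ A`, with the quotient topology, is isomorphic as a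
topological group to a finite-dimensional real Lie group. -/
def IsCentralExtensionOfLieGroup (G : Type) [Group G] [TopologicalSpace G] : Prop :=
  ∃ (A : Subgroup G) (_ : A.Normal), IsClosed (A : Set G) ∧ A ≤ Subgroup.center G ∧
    ∃ (n : ℕ) (L : Type) (_ : Group L) (_ : TopologicalSpace L)
      (_ : ChartedSpace (EuclideanSpace ℝ (Fin n)) L) (_ : LieGroup (𝓡 n) ∞ L),
      Nonempty ((G ⧸ A) ≃ₜ* L)

end Pool.Agent.Helper802
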