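import Mathlib

set_option autoImplicit false

open Filter
open scoped Topology ENNReal

noncomputable section

namespace Pool.Agent.Helper802.Circ

/-- `F` is a lift to the real line of the self-map `f` of the circle `ℝ/ℤ`. -/
def IsLift (f : UnitAddCircle → UnitAddCircle) (F : ℝ → ℝ) : Prop :=
  Continuous F ∧ ∀ x : ℝ, f (x : UnitAddCircle) = ((F x : ℝ) : UnitAddCircle)

/-- Class `C^t` for real `t`: with `k = ⌊t⌋` and `α = t - k`, the function `φ` is `C^k` and, when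
`0 < α`, its `k`-th derivative is `α`-Hölder. -/
def IsCt (t : ℝ) (φ : ℝ → ℝ) : Prop :=
  ContDiff ℝ ⌊t⌋₊ φ ∧ (0 < Int.fract t → ∃ C : ℝ, ∀ x y : ℝ,
    |iteratedDeriv ⌊t⌋₊ φ x - iteratedDeriv ⌊t⌋₊ φ y| ≤ C * |x - y| ^ Int.fract t)

/-- `C^t` circle diffeomorphisms: orientation-preserving homeomorphisms `f` of the circle such that
`f` and its inverse are `C^t` (in terms of lifts). -/
def IsCtDiffeo (t : ℝ) (f : UnitAddCircle ≃ₜ UnitAddCircle) : Prop :=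
  (∃ F : ℝ → ℝ, IsLift f F ∧ StrictMono F ∧ IsCt t F) ∧ ∃ G : ℝ → ℝ, IsLift f.symm G ∧ IsCt t G

/-- `ρ` is the rotation number of `f`: the limit of `(F^n(x) - x)/n`, reduced modulo one to
`[0, 1)`. -/
def HasRotationNumber (f : UnitAddCircle ≃ₜ UnitAddCircle) (ρ : ℝ) : Prop :=
  ∃ (F : ℝ → ℝ) (τ : ℝ), IsLift f F ∧
    (∀ x : ℝ, Tendsto (fun n : ℕ => (F^[n] x - x) / n) atTop (𝓝 τ)) ∧ ρ = Int.fract τ

/-- The `C^r` norm (with values in `[0, ∞]`), `r = k + α`: the sum of the sup norms of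
`φ, φ', ..., φ^(k)` plus, when `0 < α`, the `α`-Hölder seminorm of `φ^(k)`. -/
def crNorm (r : ℝ) (φ : ℝ → ℝ) : ℝ≥0∞ :=
  (∑ j ∈ Finset.range (⌊r⌋₊ + 1), ⨆ x : ℝ, ENNReal.ofReal |iteratedDeriv j φ x|) +
    if 0 < Int.fract r then
      ⨆ (x : ℝ) (y : ℝ) (_ : x ≠ y), ENNReal.ofReal
        (|iteratedDeriv ⌊r⌋₊ φ x - iteratedDeriv ⌊r⌋₊ φ y| / |x - y| ^ Int.fract r)
    else 0

/-- Convergence of a sequence of circle maps to the identity in the `C^r` topology. -/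
def TendstoIdCr (r : ℝ) (g : ℕ → UnitAddCircle → UnitAddCircle) : Prop :=
  ∃ G : ℕ → ℝ → ℝ, (∀ n, IsLift (g n) (G n)) ∧
    Tendsto (fun n => crNorm r (fun x => G n x - x)) atTop (𝓝 0)

end Pool.Agent.Helper802.Circ
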