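import Mathlib
import Pool.Agent.Helper802.CentDefs

set_option autoImplicit false

open scoped Manifold ContDiff Topology
open Set Filter

noncomputable section

namespace Pool.Agent.Helper802

section General

variable {E : Type} [NormedAddCommGroup E] [NormedSpace ℝ E] {H : Type} [TopologicalSpace H]
  {I : ModelWithCorners ℝ E H} {M : Type} [TopologicalSpace M] [ChartedSpace H M]

/-- The continuous map underlying a diffeomorphism. -/
def toCM (f : M ≃ₘ⟮I, I⟯ M) : C(M, M) := ⟨f, f.continuous⟩

/-- The tangent bundle of a Hausdorff manifold is Hausdorff. -/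
theorem t2_tangent [IsManifold I 1 M] [T2Space M] : T2Space (TangentBundle I M) := by
  constructor
  intro p q hpq
  by_cases h : p.proj = q.proj
  · -- same base point
    let e := trivializationAt E (TangentSpace I : M → Type) p.proj
    have hp : p ∈ e.source := by
      rw [e.mem_source]; exact FiberBundle.mem_baseSet_trivializationAt' p.proj
    have hq : q ∈ e.source := by
      rw [e.mem_source, ← h]; exact FiberBundle.mem_baseSet_trivializationAt' p.proj
    have hne : e p ≠ e q := fun hh => hpq (e.injOn hp hq hh)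
    obtain ⟨u, v, hu, hv, hpu, hqv, huv⟩ := t2_separation hne
    refine ⟨e.source ∩ e ⁻¹' u, e.source ∩ e ⁻¹' v, ?_, ?_, ⟨hp, hpu⟩, ⟨hq, hqv⟩, ?_⟩
    · exact e.continuousOn.isOpen_inter_preimage e.open_source hu
    · exact e.continuousOn.isOpen_inter_preimage e.open_source hv
    · rw [Set.disjoint_left] at huv ⊢
      rintro x ⟨_, hx1⟩ ⟨_, hx2⟩
      exact huv hx1 hx2
  · obtain ⟨u, v, hu, hv, hpu, hqv, huv⟩ := t2_separation h
    have hc : Continuous (Bundle.TotalSpace.proj : TangentBundle I M → M) :=
      FiberBundle.continuous_proj E (TangentSpace I : M → Type)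
    refine ⟨_, _, hu.preimage hc, hv.preimage hc, hpu, hqv, huv.preimage _⟩

/-- Key step of the theorem of Arens: inversion is continuous at level zero. -/
theorem arens_step [IsManifold I ∞ M] [T2Space M] [LocallyCompactSpace M] [LocallyConnectedSpace M]
    (f₀ : M ≃ₘ⟮I, I⟯ M) (x : M) (U : Set M) (hU : IsOpen U) (hx : f₀.symm x ∈ U) :
    ∃ L ∈ 𝓝 x, ∀ᶠ f in @nhds (M ≃ₘ⟮I, I⟯ M) (ckTopology 0 I M) f₀,
      MapsTo (Diffeomorph.symm f) L U := by
  let : TopologicalSpace (M ≃ₘ⟮I, I⟯ M) := ckTopology 0 I M
  have hcont : Continuous (fun f : M ≃ₘ⟮I, I⟯ M => (⟨f, f.continuous⟩ : C(M, M))) :=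
    continuous_induced_dom
  -- choose V
  obtain ⟨V, hVo, hyV, hVU, hVc⟩ := exists_open_between_and_isCompact_closure
    (isCompact_singleton (x := f₀.symm x)) hU (singleton_subset_iff.2 hx)
  rw [singleton_subset_iff] at hyV
  have hfV : IsOpen (f₀ '' V) := f₀.toHomeomorph.isOpenMap V hVo
  have hxV : x ∈ f₀ '' V := ⟨f₀.symm x, hyV, f₀.apply_symm_apply x⟩
  obtain ⟨W, hWo, hxW, hWV, hWc⟩ := exists_open_between_and_isCompact_closure
    (isCompact_singleton (x := x)) hfV (singleton_subset_iff.2 hxV)
  rw [singleton_subset_iff] at hxW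
  let L := connectedComponentIn W x
  have hLo : IsOpen L := hWo.connectedComponentIn
  have hxL : x ∈ L := mem_connectedComponentIn hxW
  have hLW : L ⊆ W := connectedComponentIn_subset W x
  have hLconn : IsPreconnected L := isPreconnected_connectedComponentIn
  have hbd : IsCompact (closure V \ V) := hVc.diff hVo
  have hclL : closure L ⊆ f₀ '' V := (closure_mono hLW).trans hWV
  refine ⟨L, hLo.mem_nhds hxL, ?_⟩
  have h1 : ∀ᶠ f in 𝓝 f₀, MapsTo (fun z => (f : M ≃ₘ⟮I, I⟯ M) z) {f₀.symm x} L := by
    have := ContinuousMap.eventually_mapsTo (f := (⟨f₀, f₀.continuous⟩ : C(M, M)))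
      (isCompact_singleton (x := f₀.symm x)) hLo (by
        intro z hz; rw [mem_singleton_iff] at hz; subst hz; simpa using hxL)
    exact hcont.continuousAt.eventually this
  have h2 : ∀ᶠ f in 𝓝 f₀, MapsTo (fun z => (f : M ≃ₘ⟮I, I⟯ M) z) (closure V \ V)
      (closure L)ᶜ := by
    have := ContinuousMap.eventually_mapsTo (f := (⟨f₀, f₀.continuous⟩ : C(M, M)))
      hbd (isClosed_closure (s := L)).isOpen_compl (by
        intro z hz hzL
        obtain ⟨w, hw, hwz⟩ := hclL hzL
        have : w = z := f₀.injective hwz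
        exact hz.2 (this ▸ hw))
    exact hcont.continuousAt.eventually this
  filter_upwards [h1, h2] with f hf1 hf2
  have hy1 : f (f₀.symm x) ∈ L := hf1 rfl
  have hpre : IsPreconnected (f.symm '' L) := hLconn.image _ f.symm.continuous.continuousOn
  have hsub : f.symm '' L ⊆ V ∪ (closure V)ᶜ := by
    rintro _ ⟨l, hl, rfl⟩
    by_contra hcon
    rw [mem_union, not_or, mem_compl_iff, not_not] at hcon
    have := hf2 ⟨hcon.2, hcon.1⟩
    simp only [f.apply_symm_apply] at this
    exact this (subset_closure hl)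
  have hmeet : (f.symm '' L ∩ V).Nonempty :=
    ⟨f₀.symm x, ⟨f (f₀.symm x), hy1, f.symm_apply_apply _⟩, hyV⟩
  have hfin := hpre.subset_left_of_subset_union hVo isClosed_closure.isOpen_compl
    (disjoint_left.2 fun z hz hz' => hz' (subset_closure hz)) hsub hmeet
  intro l hl
  exact hVU (subset_closure (hfin ⟨l, hl, rfl⟩))

theorem isTopologicalGroup_zero [IsManifold I ∞ M] [T2Space M] [LocallyCompactSpace M]
    [LocallyConnectedSpace M] : @IsTopologicalGroup (M ≃ₘ⟮I, I⟯ M) (ckTopology 0 I M) _ := by
  let : TopologicalSpace (M ≃ₘ⟮I, I⟯ M) := ckTopology 0 I M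
  have hcont : Continuous (fun f : M ≃ₘ⟮I, I⟯ M => (⟨f, f.continuous⟩ : C(M, M))) :=
    continuous_induced_dom
  refine { continuous_mul := ?_, continuous_inv := ?_ }
  · apply continuous_induced_rng.2
    exact (ContinuousMap.continuous_comp' (X := M) (Y := M) (Z := M)).comp
      ((hcont.comp continuous_snd).prodMk (hcont.comp continuous_fst))
  · apply continuous_induced_rng.2
    rw [continuous_iff_continuousAt]
    intro f₀
    apply ContinuousMap.tendsto_nhds_compactOpen.2
    intro K hK U hU hKU
    refine hK.induction_on (p := fun S => ∀ᶠ f in 𝓝 f₀, MapsTo (Diffeomorph.symm f) S U)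
      ?_ ?_ ?_ ?_
    · exact Eventually.of_forall fun f => mapsTo_empty _ _
    · intro s t hst ht
      filter_upwards [ht] with f hf using hf.mono_left hst
    · intro s t hs ht
      filter_upwards [hs, ht] with f hf hf' using hf.union hf'
    · intro x hx
      obtain ⟨L, hL, hL'⟩ := arens_step f₀ x U hU (hKU hx)
      exact ⟨L, mem_nhdsWithin_of_mem_nhds hL, hL'⟩

/-- The tangent lift is a group homomorphism. -/
def tangentHom [IsManifold I ∞ M] :
    (M ≃ₘ⟮I, I⟯ M) →* (TangentBundle I M ≃ₘ⟮I.tangent, I.tangent⟯ TangentBundle I M) where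
  toFun := tangentLift
  map_one' := by
    apply Diffeomorph.ext
    intro p
    exact congrFun (tangentMap_id (I := I) (M := M)) p
  map_mul' f g := by
    apply Diffeomorph.ext
    intro p
    exact congrFun (tangentMap_comp (I := I) (I' := I) (I'' := I) (g := f) (f := g)
      (f.contMDiff.mdifferentiable (by simp)) (g.contMDiff.mdifferentiable (by simp))) p

end General

theorem isTopologicalGroup_ck (k : ℕ) : ∀ {E : Type} [NormedAddCommGroup E] [NormedSpace ℝ E]
    [FiniteDimensional ℝ E] {H : Type} [TopologicalSpace H] [LocallyConnectedSpace H]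
    (I : ModelWithCorners ℝ E H) (M : Type) [TopologicalSpace M] [ChartedSpace H M]
    [IsManifold I ∞ M] [T2Space M],
    @IsTopologicalGroup (M ≃ₘ⟮I, I⟯ M) (ckTopology k I M) _ := by
  induction k with
  | zero =>
    intro E _ _ _ H _ _ I M _ _ _ _
    have := Manifold.locallyCompact_of_finiteDimensional (M := M) I
    have := ChartedSpace.locallyConnectedSpace H M
    exact isTopologicalGroup_zero
  | succ k ih =>
    intro E _ _ _ H _ _ I M _ _ _ _
    have : T2Space (TangentBundle I M) := t2_tangent
    have : LocallyConnectedSpace (ModelProd H E) :=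
      inferInstanceAs (LocallyConnectedSpace (H × E))
    let : TopologicalSpace (TangentBundle I M ≃ₘ⟮I.tangent, I.tangent⟯ TangentBundle I M) :=
      ckTopology k I.tangent (TangentBundle I M)
    have : IsTopologicalGroup
      (TangentBundle I M ≃ₘ⟮I.tangent, I.tangent⟯ TangentBundle I M) := ih _ _
    exact topologicalGroup_induced (tangentHom (I := I) (M := M))

section Cinf

variable {E : Type} [NormedAddCommGroup E] [NormedSpace ℝ E] {H : Type} [TopologicalSpace H]
  {I : ModelWithCorners ℝ E H} {M : Type} [TopologicalSpace M] [ChartedSpace H M]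
  [IsManifold I ∞ M]

instance diffTopGroup [FiniteDimensional ℝ E] [LocallyConnectedSpace H] [T2Space M] :
    IsTopologicalGroup (M ≃ₘ⟮I, I⟯ M) :=
  topologicalGroup_iInf fun k => isTopologicalGroup_ck k I M

end Cinf

end Pool.Agent.Helper802
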