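import Mathlib
import Pool.Agent.Helper802.CentDefs
import Pool.Agent.Helper802.DiffTop

set_option autoImplicit false

open scoped Manifold ContDiff Topology
open Set Filter

noncomputable section

namespace Pool.Agent.Helper802

section General

variable {E : Type} [NormedAddCommGroup E] [NormedSpace ℝ E] {H : Type} [TopologicalSpace H]
  {I : ModelWithCorners ℝ E H} {M : Type} [TopologicalSpace M] [ChartedSpace H M]

theorem tangent_family_smooth [IsManifold I ∞ M] (φ : ℝ → M ≃ₘ⟮I, I⟯ M)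
    (hφ : ContMDiff (𝓘(ℝ, ℝ).prod I) I ∞ (fun p : ℝ × M => φ p.1 p.2)) :
    ContMDiff (𝓘(ℝ, ℝ).prod I.tangent) I.tangent ∞
      (fun p : ℝ × TangentBundle I M => tangentLift (φ p.1) p.2) := by
  have hT : ContMDiff (𝓘(ℝ, ℝ).prod I).tangent I.tangent ∞
      (tangentMap (𝓘(ℝ, ℝ).prod I) I (fun p : ℝ × M => φ p.1 p.2)) :=
    hφ.contMDiff_tangentMap le_rfl
  have hE : ContMDiff (𝓘(ℝ, ℝ).tangent.prod I.tangent) (𝓘(ℝ, ℝ).prod I).tangent ∞
      (equivTangentBundleProd 𝓘(ℝ, ℝ) ℝ I M).symm := contMDiff_equivTangentBundleProd_symm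
  have hZ : ContMDiff 𝓘(ℝ, ℝ) 𝓘(ℝ, ℝ).tangent ∞
      (Bundle.zeroSection ℝ (TangentSpace 𝓘(ℝ, ℝ) : ℝ → Type)) :=
    Bundle.contMDiff_zeroSection ℝ (TangentSpace 𝓘(ℝ, ℝ) : ℝ → Type)
  have hP : ContMDiff (𝓘(ℝ, ℝ).prod I.tangent) (𝓘(ℝ, ℝ).tangent.prod I.tangent) ∞
      (fun p : ℝ × TangentBundle I M =>
        ((Bundle.zeroSection ℝ (TangentSpace 𝓘(ℝ, ℝ) : ℝ → Type) p.1, p.2) :
          TangentBundle 𝓘(ℝ, ℝ) ℝ × TangentBundle I M)) :=
    (hZ.comp contMDiff_fst).prodMk contMDiff_snd
  have := (hT.comp hE).comp hP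
  refine this.congr ?_
  rintro ⟨s, x, v⟩
  have h1 : MDifferentiableAt (𝓘(ℝ, ℝ).prod I) I (fun p : ℝ × M => φ p.1 p.2) (s, x) :=
    (hφ.mdifferentiable (by simp)) _
  have h2 : MDifferentiableAt I (𝓘(ℝ, ℝ).prod I) (fun y : M => (s, y)) x :=
    (contMDiff_const.prodMk contMDiff_id : ContMDiff I (𝓘(ℝ, ℝ).prod I) ∞ _).mdifferentiable
      (by simp) _
  have h3 := mfderiv_comp x (I' := (𝓘(ℝ, ℝ).prod I)) (I'' := I)
    (g := (fun p : ℝ × M => φ p.1 p.2)) (f := fun y : M => (s, y)) h1 h2
  have h4 : ((fun p : ℝ × M => φ p.1 p.2) ∘ fun y : M => (s, y)) = φ s := rfl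
  rw [h4, mfderiv_prod_right] at h3
  show (⟨φ s x, mfderiv I I (φ s) x v⟩ : TangentBundle I M) = _
  rw [h3]
  rfl

end General

/-- A jointly smooth one-parameter family of diffeomorphisms is continuous for `ckTopology k`. -/
theorem continuous_family (k : ℕ) : ∀ {E : Type} [NormedAddCommGroup E] [NormedSpace ℝ E]
    {H : Type} [TopologicalSpace H]
    (I : ModelWithCorners ℝ E H) (M : Type) [TopologicalSpace M] [ChartedSpace H M]
    [IsManifold I ∞ M] (φ : ℝ → M ≃ₘ⟮I, I⟯ M)
    (_ : ContMDiff (𝓘(ℝ, ℝ).prod I) I ∞ (fun p : ℝ × M => φ p.1 p.2)),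
    @Continuous ℝ (M ≃ₘ⟮I, I⟯ M) _ (ckTopology k I M) φ := by
  induction k with
  | zero =>
    intro E _ _ H _ I M _ _ _ φ hφ
    apply continuous_induced_rng.2
    apply ContinuousMap.continuous_of_continuous_uncurry
    exact hφ.continuous
  | succ k ih =>
    intro E _ _ H _ I M _ _ _ φ hφ
    apply continuous_induced_rng.2
    exact ih I.tangent (TangentBundle I M) _ (tangent_family_smooth φ hφ)

theorem continuous_family' {E : Type} [NormedAddCommGroup E] [NormedSpace ℝ E] {H : Type}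
    [TopologicalSpace H] {I : ModelWithCorners ℝ E H} {M : Type} [TopologicalSpace M]
    [ChartedSpace H M] [IsManifold I ∞ M] (φ : ℝ → M ≃ₘ⟮I, I⟯ M)
    (hφ : ContMDiff (𝓘(ℝ, ℝ).prod I) I ∞ (fun p : ℝ × M => φ p.1 p.2)) : Continuous φ :=
  continuous_iInf_rng.2 fun k => continuous_family k I M φ hφ

theorem continuous_toCM {E : Type} [NormedAddCommGroup E] [NormedSpace ℝ E] {H : Type}
    [TopologicalSpace H] {I : ModelWithCorners ℝ E H} {M : Type} [TopologicalSpace M]
    [ChartedSpace H M] [IsManifold I ∞ M] : Continuous (toCM (I := I) (M := M)) :=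
  continuous_iInf_dom (i := 0) continuous_induced_dom

section SC

theorem sc_tangent {E : Type} [NormedAddCommGroup E] [NormedSpace ℝ E] {H : Type}
    [TopologicalSpace H] (I : ModelWithCorners ℝ E H) (M : Type) [TopologicalSpace M]
    [ChartedSpace H M] [IsManifold I 1 M] [SecondCountableTopology H] [SecondCountableTopology E]
    [SecondCountableTopology M] : SecondCountableTopology (TangentBundle I M) := by
  obtain ⟨s, hs, hsc⟩ := countable_cover_nhds (fun x : M => chart_source_mem_nhds H x)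
  have : SecondCountableTopology (ModelProd H E) :=
    inferInstanceAs (SecondCountableTopology (H × E))
  refine ChartedSpace.secondCountable_of_countable_cover (ModelProd H E)
    (s := (fun x : M => (⟨x, 0⟩ : TangentBundle I M)) '' s) ?_ (hs.image _)
  rw [eq_univ_iff_forall]
  intro p
  have hp : p.proj ∈ ⋃ x ∈ s, (chartAt H x).source := by rw [hsc]; trivial
  simp only [mem_iUnion, exists_prop] at hp ⊢
  obtain ⟨x, hx, hpx⟩ := hp
  exact ⟨_, ⟨x, hx, rfl⟩, (TangentBundle.mem_chart_source_iff _ _).2 hpx⟩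

theorem sc_ck (k : ℕ) : ∀ {E : Type} [NormedAddCommGroup E] [NormedSpace ℝ E]
    [FiniteDimensional ℝ E]
    {H : Type} [TopologicalSpace H] [SecondCountableTopology H]
    (I : ModelWithCorners ℝ E H) (M : Type) [TopologicalSpace M] [ChartedSpace H M]
    [IsManifold I ∞ M] [SecondCountableTopology M],
    @SecondCountableTopology (M ≃ₘ⟮I, I⟯ M) (ckTopology k I M) := by
  induction k with
  | zero =>
    intro E _ _ _ H _ _ I M _ _ _ _
    have := Manifold.locallyCompact_of_finiteDimensional (M := M) I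
    exact TopologicalSpace.secondCountableTopology_induced _ _ _
  | succ k ih =>
    intro E _ _ _ H _ _ I M _ _ _ _
    have : SecondCountableTopology (ModelProd H E) :=
      inferInstanceAs (SecondCountableTopology (H × E))
    have : SecondCountableTopology (TangentBundle I M) := sc_tangent I M
    let _ : TopologicalSpace (TangentBundle I M ≃ₘ⟮I.tangent, I.tangent⟯ TangentBundle I M) :=
      ckTopology k I.tangent (TangentBundle I M)
    have : SecondCountableTopology
      (TangentBundle I M ≃ₘ⟮I.tangent, I.tangent⟯ TangentBundle I M) := ih _ _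
    exact TopologicalSpace.secondCountableTopology_induced _ _ _

instance diff_sc {E : Type} [NormedAddCommGroup E] [NormedSpace ℝ E] [FiniteDimensional ℝ E]
    {H : Type} [TopologicalSpace H] [SecondCountableTopology H] {I : ModelWithCorners ℝ E H}
    {M : Type} [TopologicalSpace M] [ChartedSpace H M] [IsManifold I ∞ M]
    [SecondCountableTopology M] : SecondCountableTopology (M ≃ₘ⟮I, I⟯ M) :=
  TopologicalSpace.secondCountableTopology_iInf fun k => sc_ck k I M

end SC

end Pool.Agent.Helper802
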