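import Mathlib
import Pool.Agent.Helper802.CentDefs
import Pool.Agent.Helper802.DiffTop
import Pool.Agent.Helper802.Family

set_option autoImplicit false

open scoped Manifold ContDiff Topology
open Set Filter

noncomputable section

namespace Pool.Agent.Helper802

/-- `e t = exp (2 π i t)` as a point of the circle. -/
def e (t : ℝ) : Circle := Circle.exp (2 * Real.pi * t)

theorem e_add (s t : ℝ) : e (s + t) = e s * e t := by
  rw [e, mul_add, Circle.exp_add]; rfl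

theorem e_zero : e 0 = 1 := by simp [e]

theorem e_neg (t : ℝ) : e (-t) = (e t)⁻¹ := by
  rw [eq_inv_iff_mul_eq_one, ← e_add]; simp [e_zero]

theorem e_sub (s t : ℝ) : e (s - t) = e s * (e t)⁻¹ := by
  rw [sub_eq_add_neg, e_add, e_neg]

theorem e_one : e 1 = 1 := by simp [e]

theorem e_nat_mul (n : ℕ) (t : ℝ) : e (n * t) = e t ^ n := by
  induction n with
  | zero => simp [e_zero]
  | succ n ih => rw [pow_succ, ← ih, ← e_add]; congr 1; push_cast; ring

theorem e_nat (n : ℕ) : e n = 1 := by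
  have := e_nat_mul n 1
  rw [mul_one] at this
  rw [this, e_one, one_pow]

theorem e_int (n : ℤ) : e n = 1 := by
  rcases Int.eq_nat_or_neg n with ⟨m, rfl | rfl⟩
  · exact_mod_cast e_nat m
  · push_cast; rw [e_neg, e_nat, inv_one]

theorem e_surj (x : Circle) : ∃ s : ℝ, e s = x :=
  ⟨Complex.arg (x : ℂ) / (2 * Real.pi), by
    rw [e, mul_div_cancel₀ _ (by positivity : (2 * Real.pi) ≠ 0), Circle.exp_arg]⟩

theorem contMDiff_e : ContMDiff 𝓘(ℝ, ℝ) (𝓡 1) ∞ e := by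
  have h : ContDiff ℝ ∞ (fun t : ℝ => 2 * Real.pi * t) := contDiff_const.mul contDiff_id
  exact contMDiff_circleExp.comp h.contMDiff

theorem continuous_e : Continuous e := contMDiff_e.continuous

/-- The three-dimensional torus. -/
abbrev T3 : Type := Circle × Circle × Circle

/-- The model with corners of the torus. -/
abbrev I3 := (𝓡 1).prod ((𝓡 1).prod (𝓡 1))

section SmoothHelpers

variable {E' : Type} [NormedAddCommGroup E'] [NormedSpace ℝ E'] {H' : Type} [TopologicalSpace H']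
  {J : ModelWithCorners ℝ E' H'} {N : Type} [TopologicalSpace N] [ChartedSpace H' N]

theorem smooth_mul {f g : N → Circle} (hf : ContMDiff J (𝓡 1) ∞ f) (hg : ContMDiff J (𝓡 1) ∞ g) :
    ContMDiff J (𝓡 1) ∞ (fun x => f x * g x) := hf.mul hg

theorem smooth_inv {f : N → Circle} (hf : ContMDiff J (𝓡 1) ∞ f) :
    ContMDiff J (𝓡 1) ∞ (fun x => (f x)⁻¹) := hf.inv

theorem smooth_e {f : N → ℝ} (hf : ContMDiff J 𝓘(ℝ, ℝ) ∞ f) :
    ContMDiff J (𝓡 1) ∞ (fun x => e (f x)) := contMDiff_e.comp hf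

end SmoothHelpers

/-- Smooth real functions on the circle. -/
abbrev Smooth1 (a : Circle → ℝ) : Prop := ContMDiff (𝓡 1) 𝓘(ℝ, ℝ) ∞ a

/-- Smooth real functions on the two-torus. -/
abbrev Smooth2 (b : Circle × Circle → ℝ) : Prop := ContMDiff ((𝓡 1).prod (𝓡 1)) 𝓘(ℝ, ℝ) ∞ b

/-- The skew map of the torus. -/
def skew (θ : Circle) (a : Circle → ℝ) (b : Circle × Circle → ℝ) (y : T3) : T3 :=
  (y.1 * θ, y.2.1 * e (a y.1), y.2.2 * e (b (y.1, y.2.1)))

/-- The inverse skew map of the torus. -/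
def skewInv (θ : Circle) (a : Circle → ℝ) (b : Circle × Circle → ℝ) (y : T3) : T3 :=
  (y.1 * θ⁻¹, y.2.1 * (e (a (y.1 * θ⁻¹)))⁻¹,
    y.2.2 * (e (b (y.1 * θ⁻¹, y.2.1 * (e (a (y.1 * θ⁻¹)))⁻¹)))⁻¹)

theorem skew_smooth (θ : Circle) {a : Circle → ℝ} {b : Circle × Circle → ℝ} (ha : Smooth1 a)
    (hb : Smooth2 b) : ContMDiff I3 I3 ∞ (skew θ a b) := by
  have h1 : ContMDiff I3 (𝓡 1) ∞ (fun y : T3 => y.1) := contMDiff_fst
  have h2 : ContMDiff I3 (𝓡 1) ∞ (fun y : T3 => y.2.1) := contMDiff_fst.comp contMDiff_snd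
  have h3 : ContMDiff I3 (𝓡 1) ∞ (fun y : T3 => y.2.2) := contMDiff_snd.comp contMDiff_snd
  exact (smooth_mul h1 contMDiff_const).prodMk
    ((smooth_mul h2 (smooth_e (ha.comp h1))).prodMk
      (smooth_mul h3 (smooth_e (hb.comp (h1.prodMk h2)))))

theorem skewInv_smooth (θ : Circle) {a : Circle → ℝ} {b : Circle × Circle → ℝ} (ha : Smooth1 a)
    (hb : Smooth2 b) : ContMDiff I3 I3 ∞ (skewInv θ a b) := by
  have h1 : ContMDiff I3 (𝓡 1) ∞ (fun y : T3 => y.1 * θ⁻¹) :=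
    smooth_mul contMDiff_fst contMDiff_const
  have h2 : ContMDiff I3 (𝓡 1) ∞ (fun y : T3 => y.2.1 * (e (a (y.1 * θ⁻¹)))⁻¹) :=
    smooth_mul (contMDiff_fst.comp contMDiff_snd) (smooth_inv (smooth_e (ha.comp h1)))
  have h3 : ContMDiff I3 (𝓡 1) ∞ (fun y : T3 => y.2.2) := contMDiff_snd.comp contMDiff_snd
  exact h1.prodMk (h2.prodMk (smooth_mul h3 (smooth_inv (smooth_e (hb.comp (h1.prodMk h2))))))

/-- The skew map as a diffeomorphism. -/
def skewDiff (θ : Circle) (a : Circle → ℝ) (b : Circle × Circle → ℝ) (ha : Smooth1 a)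
    (hb : Smooth2 b) : T3 ≃ₘ⟮I3, I3⟯ T3 where
  toFun := skew θ a b
  invFun := skewInv θ a b
  left_inv y := by
    obtain ⟨x, p, z⟩ := y
    simp [skew, skewInv, mul_assoc]
  right_inv y := by
    obtain ⟨x, p, z⟩ := y
    simp [skew, skewInv, mul_assoc]
  contMDiff_toFun := skew_smooth θ ha hb
  contMDiff_invFun := skewInv_smooth θ ha hb

theorem skewDiff_apply (θ : Circle) (a : Circle → ℝ) (b : Circle × Circle → ℝ) (ha : Smooth1 a)
    (hb : Smooth2 b) (y : T3) : skewDiff θ a b ha hb y = skew θ a b y := rfl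

theorem e_half_mul_self : e (1 / 2) * e (1 / 2) = 1 := by
  rw [← e_add]; norm_num [e_one]

/-- The involution `σ (x, P, Z) = (x + 1/2, -P, Z)`. -/
def sigmaFun (y : T3) : T3 := (y.1 * e (1 / 2), y.2.1⁻¹, y.2.2)

theorem sigmaFun_invol (y : T3) : sigmaFun (sigmaFun y) = y := by
  obtain ⟨x, p, z⟩ := y
  simp only [sigmaFun, mul_assoc, e_half_mul_self, mul_one, inv_inv]

theorem sigmaFun_smooth : ContMDiff I3 I3 ∞ sigmaFun := by
  have h1 : ContMDiff I3 (𝓡 1) ∞ (fun y : T3 => y.1) := contMDiff_fst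
  have h2 : ContMDiff I3 (𝓡 1) ∞ (fun y : T3 => y.2.1) := contMDiff_fst.comp contMDiff_snd
  have h3 : ContMDiff I3 (𝓡 1) ∞ (fun y : T3 => y.2.2) := contMDiff_snd.comp contMDiff_snd
  exact (smooth_mul h1 contMDiff_const).prodMk ((smooth_inv h2).prodMk h3)

/-- The involution as a diffeomorphism. -/
def sigmaDiff : T3 ≃ₘ⟮I3, I3⟯ T3 where
  toFun := sigmaFun
  invFun := sigmaFun
  left_inv := sigmaFun_invol
  right_inv := sigmaFun_invol
  contMDiff_toFun := sigmaFun_smooth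
  contMDiff_invFun := sigmaFun_smooth

/-- The vertical twist over the translation by `β` in the second coordinate. -/
def rotB (U : Circle × Circle → ℝ) (β : ℝ) (y : Circle × Circle) : ℝ :=
  U (y.1, y.2 * e β) - U y

theorem rotB_smooth {U : Circle × Circle → ℝ} (hU : Smooth2 U) (β : ℝ) :
    Smooth2 (rotB U β) := by
  have h1 : ContMDiff ((𝓡 1).prod (𝓡 1)) (𝓡 1) ∞ (fun y : Circle × Circle => y.1) := contMDiff_fst
  have h2 : ContMDiff ((𝓡 1).prod (𝓡 1)) (𝓡 1) ∞ (fun y : Circle × Circle => y.2) := contMDiff_snd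
  exact (hU.comp (h1.prodMk (smooth_mul h2 contMDiff_const))).sub hU

/-- The conjugated rotation `R_β`. -/
def rot (U : Circle × Circle → ℝ) (hU : Smooth2 U) (β : ℝ) : T3 ≃ₘ⟮I3, I3⟯ T3 :=
  skewDiff 1 (fun _ => β) (rotB U β) contMDiff_const (rotB_smooth hU β)

theorem rot_apply (U : Circle × Circle → ℝ) (hU : Smooth2 U) (β : ℝ) (x p z : Circle) :
    rot U hU β (x, p, z) = (x, p * e β, z * e (U (x, p * e β) - U (x, p))) := by
  change skew 1 (fun _ => β) (rotB U β) (x, p, z) = _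
  simp [skew, rotB]

theorem rot_add (U : Circle × Circle → ℝ) (hU : Smooth2 U) (β β' : ℝ) :
    rot U hU (β + β') = rot U hU β * rot U hU β' := by
  apply Diffeomorph.ext
  rintro ⟨x, p, z⟩
  rw [diff_mul_apply, rot_apply, rot_apply, rot_apply]
  refine Prod.ext rfl (Prod.ext ?_ ?_)
  · simp only [e_add]; rw [mul_assoc, mul_comm (e β)]
  · simp only
    rw [mul_assoc z, ← e_add]
    congr 2
    rw [e_add, mul_comm (e β), ← mul_assoc]
    ring

theorem rot_zero (U : Circle × Circle → ℝ) (hU : Smooth2 U) : rot U hU 0 = 1 := by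
  apply Diffeomorph.ext
  rintro ⟨x, p, z⟩
  rw [rot_apply, diff_one_apply]
  simp [e_zero]

theorem rot_one (U : Circle × Circle → ℝ) (hU : Smooth2 U) : rot U hU 1 = 1 := by
  apply Diffeomorph.ext
  rintro ⟨x, p, z⟩
  rw [rot_apply, diff_one_apply]
  simp [e_zero, e_one]

theorem rot_nat_mul (U : Circle × Circle → ℝ) (hU : Smooth2 U) (k : ℕ) (β : ℝ) :
    rot U hU (k * β) = rot U hU β ^ k := by
  induction k with
  | zero => simp [rot_zero]
  | succ k ih => rw [pow_succ, ← ih, ← rot_add]; congr 1; push_cast; ring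

theorem rot_neg (U : Circle × Circle → ℝ) (hU : Smooth2 U) (β : ℝ) :
    rot U hU (-β) = (rot U hU β)⁻¹ := by
  rw [eq_inv_iff_mul_eq_one, ← rot_add]; simp [rot_zero]

theorem continuous_rot (U : Circle × Circle → ℝ) (hU : Smooth2 U) :
    Continuous (rot U hU) := by
  apply continuous_family'
  have hβ : ContMDiff (𝓘(ℝ, ℝ).prod I3) (𝓡 1) ∞ (fun q : ℝ × T3 => e q.1) :=
    smooth_e contMDiff_fst
  have h1 : ContMDiff (𝓘(ℝ, ℝ).prod I3) (𝓡 1) ∞ (fun q : ℝ × T3 => q.2.1) :=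
    contMDiff_fst.comp contMDiff_snd
  have h2 : ContMDiff (𝓘(ℝ, ℝ).prod I3) (𝓡 1) ∞ (fun q : ℝ × T3 => q.2.2.1) :=
    contMDiff_fst.comp (contMDiff_snd.comp contMDiff_snd)
  have h3 : ContMDiff (𝓘(ℝ, ℝ).prod I3) (𝓡 1) ∞ (fun q : ℝ × T3 => q.2.2.2) :=
    contMDiff_snd.comp (contMDiff_snd.comp contMDiff_snd)
  have h2' := smooth_mul h2 hβ
  have hb : ContMDiff (𝓘(ℝ, ℝ).prod I3) 𝓘(ℝ, ℝ) ∞
      (fun q : ℝ × T3 => U (q.2.1, q.2.2.1 * e q.1) - U (q.2.1, q.2.2.1)) :=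
    (hU.comp (h1.prodMk h2')).sub (hU.comp (h1.prodMk h2))
  have := h1.prodMk (h2'.prodMk (smooth_mul h3 (smooth_e hb)))
  refine this.congr ?_
  rintro ⟨β, x, p, z⟩
  exact rot_apply U hU β x p z

/-- Conjugating by `σ` inverts the rotations when `U` has the symmetry. -/
theorem sigma_rot (U : Circle × Circle → ℝ) (hU : Smooth2 U)
    (hs : ∀ x p, U (x * e (1 / 2), p⁻¹) = U (x, p)) (β : ℝ) :
    sigmaDiff * rot U hU β * sigmaDiff⁻¹ = (rot U hU β)⁻¹ := by
  rw [← rot_neg]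
  apply Diffeomorph.ext
  rintro ⟨x, p, z⟩
  rw [diff_mul_apply, diff_mul_apply]
  show sigmaFun (rot U hU β (sigmaFun (x, p, z))) = _
  simp only [sigmaFun]
  rw [rot_apply, rot_apply]
  refine Prod.ext ?_ (Prod.ext ?_ ?_)
  · simp only [mul_assoc, e_half_mul_self, mul_one]
  · simp only [mul_inv, inv_inv, e_neg]
  · simp only
    have h1 : p⁻¹ * e β = (p * e (-β))⁻¹ := by rw [mul_inv, e_neg, inv_inv]
    rw [h1, hs, hs]

end Pool.Agent.Helper802
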