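import Mathlib
import Pool.Agent.Helper802.Torus

set_option autoImplicit false

open scoped Manifold ContDiff Topology
open Set Filter

noncomputable section

namespace Pool.Agent.Helper802

/-! ### Smoothness can be tested on lifts -/

/-- A local section of `e` near `e s₀`. -/
def sec (s₀ : ℝ) (x : Circle) : ℝ :=
  s₀ + Complex.arg ((x * e (-s₀) : Circle) : ℂ) / (2 * Real.pi)

theorem e_sec (s₀ : ℝ) (x : Circle) : e (sec s₀ x) = x := by
  rw [sec, e_add]
  have : e (Complex.arg ((x * e (-s₀) : Circle) : ℂ) / (2 * Real.pi)) = x * e (-s₀) := by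
    rw [e, mul_div_cancel₀ _ (by positivity : (2 * Real.pi) ≠ 0), Circle.exp_arg]
  rw [this, mul_comm x, ← mul_assoc, ← e_add]
  simp [e_zero]

theorem sec_smoothAt (s₀ : ℝ) : ContMDiffAt (𝓡 1) 𝓘(ℝ, ℝ) ∞ (sec s₀) (e s₀) := by
  have h1 : ContMDiff (𝓡 1) (𝓡 1) ∞ (fun x : Circle => x * e (-s₀)) :=
    smooth_mul contMDiff_id contMDiff_const
  have h2 : ContMDiff (𝓡 1) 𝓘(ℝ, ℂ) ∞ (fun x : Circle => (x : ℂ)) := by
    have : Fact (Module.finrank ℝ ℂ = 1 + 1) := finrank_real_complex_fact'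
    exact contMDiff_coe_sphere
  have h3 : ContDiffAt ℝ ∞ (fun z : ℂ => s₀ + Complex.arg z / (2 * Real.pi)) 1 := by
    have : ContDiffAt ℝ ∞ (fun z : ℂ => (Complex.log z).im) 1 := by
      have h : ContDiffAt ℂ ∞ Complex.log 1 := Complex.contDiffAt_log (by simp)
      exact Complex.imCLM.contDiff.contDiffAt.comp _ (h.restrict_scalars ℝ)
    have h' : ContDiffAt ℝ ∞ (fun z : ℂ => Complex.arg z) 1 := by
      simpa [Complex.log_im] using this
    exact contDiffAt_const.add (h'.div_const _)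
  have h4 : ContMDiffAt (𝓡 1) 𝓘(ℝ, ℂ) ∞ (fun x : Circle => ((x * e (-s₀) : Circle) : ℂ))
      (e s₀) := (h2.comp h1).contMDiffAt
  have h5 : (((e s₀) * e (-s₀) : Circle) : ℂ) = 1 := by
    rw [← e_add]; simp [e_zero]
  have h6 : ContMDiffAt 𝓘(ℝ, ℂ) 𝓘(ℝ, ℝ) ∞ (fun z : ℂ => s₀ + Complex.arg z / (2 * Real.pi))
      (((e s₀) * e (-s₀) : Circle) : ℂ) := by
    rw [h5]; exact h3.contMDiffAt
  exact ContMDiffAt.comp (g := fun z : ℂ => s₀ + Complex.arg z / (2 * Real.pi))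
    (f := fun x : Circle => ((x * e (-s₀) : Circle) : ℂ)) (e s₀) h6 h4

theorem smooth1_of_lift (a : Circle → ℝ) (h : ContDiff ℝ ∞ (fun s : ℝ => a (e s))) :
    Smooth1 a := by
  intro x
  obtain ⟨s₀, rfl⟩ := e_surj x
  have h1 : a = (fun s : ℝ => a (e s)) ∘ sec s₀ := by
    funext x; simp [e_sec]
  rw [h1]
  exact ContMDiffAt.comp (e s₀) h.contMDiff.contMDiffAt (sec_smoothAt s₀)

theorem smooth2_of_lift (b : Circle × Circle → ℝ)
    (h : ContDiff ℝ ∞ (fun s : ℝ × ℝ => b (e s.1, e s.2))) : Smooth2 b := by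
  rintro ⟨x, p⟩
  obtain ⟨s₀, rfl⟩ := e_surj x
  obtain ⟨t₀, rfl⟩ := e_surj p
  have h1 : b = (fun s : ℝ × ℝ => b (e s.1, e s.2)) ∘
      (fun y : Circle × Circle => (sec s₀ y.1, sec t₀ y.2)) := by
    funext y; simp [e_sec]
  rw [h1]
  have h2 : ContMDiffAt ((𝓡 1).prod (𝓡 1)) 𝓘(ℝ, ℝ × ℝ) ∞
      (fun y : Circle × Circle => (sec s₀ y.1, sec t₀ y.2)) (e s₀, e t₀) := by
    apply ContMDiffAt.prodMk_space
    · exact ContMDiffAt.comp (g := sec s₀) (f := fun y : Circle × Circle => y.1) (e s₀, e t₀)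
        (sec_smoothAt s₀) contMDiffAt_fst
    · exact ContMDiffAt.comp (g := sec t₀) (f := fun y : Circle × Circle => y.2) (e s₀, e t₀)
        (sec_smoothAt t₀) contMDiffAt_snd
  exact ContMDiffAt.comp (e s₀, e t₀) h.contMDiff.contMDiffAt h2

/-! ### Smooth limits -/

theorem exists_smooth_limit {E : Type} [NormedAddCommGroup E] [NormedSpace ℝ E]
    (g : ℕ → E → ℝ) (hg : ∀ n, ContDiff ℝ ∞ (g n))
    (h : ∀ n k, k ≤ n → ∀ y, ‖iteratedFDeriv ℝ k (fun y => g (n + 1) y - g n y) y‖ ≤ (1 / 2) ^ n) :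
    ∃ G : E → ℝ, ContDiff ℝ ∞ G ∧ ∀ y, Tendsto (fun n => g n y) atTop (𝓝 (G y)) := by
  have hgeo : Summable fun n : ℕ => ((1 : ℝ) / 2) ^ n := summable_geometric_two
  have hs : ∀ y, Summable fun n => g (n + 1) y - g n y := by
    intro y
    refine Summable.of_norm_bounded hgeo fun n => ?_
    have := h n 0 (Nat.zero_le _) y
    rwa [norm_iteratedFDeriv_zero] at this
  refine ⟨fun y => g 0 y + ∑' n, (g (n + 1) y - g n y), ?_, ?_⟩
  · have : ContDiff ℝ ((⊤ : ℕ∞) : ℕ∞ω) fun y => ∑' n, (fun y => g (n + 1) y - g n y) y := by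
      refine contDiff_tsum_of_eventually (v := fun _ n => (1 / 2 : ℝ) ^ n) ?_ ?_ ?_
      · intro n
        exact (hg _).sub (hg _)
      · intro k _; exact hgeo
      · intro k _
        rw [Nat.cofinite_eq_atTop]
        filter_upwards [eventually_ge_atTop k] with n hn y
        exact h n k hn y
    exact (hg 0).add this
  · intro y
    have h1 := (hs y).hasSum.tendsto_sum_nat
    have h2 : ∀ n, ∑ i ∈ Finset.range n, (g (i + 1) y - g i y) = g n y - g 0 y := fun n =>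
      Finset.sum_range_sub (fun i => g i y) n
    simp only [h2] at h1
    have := h1.const_add (g 0 y)
    refine this.congr fun n => by ring

/-! ### Small perturbations -/

theorem continuous_norm_iteratedFDeriv (k : ℕ) : ∀ {E F : Type} [NormedAddCommGroup E]
    [NormedSpace ℝ E] [NormedAddCommGroup F] [NormedSpace ℝ F] (Φ : ℝ × E → F)
    (_ : ContDiff ℝ ∞ Φ),
    Continuous fun q : ℝ × E => ‖iteratedFDeriv ℝ k (fun y => Φ (q.1, y)) q.2‖ := by
  induction k with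
  | zero =>
    intro E F _ _ _ _ Φ hΦ
    simp only [norm_iteratedFDeriv_zero]
    exact hΦ.continuous.norm
  | succ k ih =>
    intro E F _ _ _ _ Φ hΦ
    have h1 : ContDiff ℝ ∞ (fun q : ℝ × E => fderiv ℝ (fun y => Φ (q.1, y)) q.2) := by
      refine ContDiff.fderiv (m := ∞) (n := ∞) (f := fun (q : ℝ × E) (y : E) => Φ (q.1, y)) ?_
        contDiff_snd (by exact le_rfl)
      exact hΦ.comp ((contDiff_fst.comp contDiff_fst).prodMk contDiff_snd)
    have h2 := ih (fun q : ℝ × E => fderiv ℝ (fun y => Φ (q.1, y)) q.2) h1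
    refine h2.congr fun q => ?_
    rw [← norm_iteratedFDeriv_fderiv]

theorem small_of_periodic {E : Type} [NormedAddCommGroup E] [NormedSpace ℝ E] (Φ : ℝ × E → ℝ)
    (hΦ : ContDiff ℝ ∞ Φ) (K : Set E) (hK : IsCompact K)
    (hper : ∀ y : E, ∃ v : E, y + v ∈ K ∧ ∀ t z, Φ (t, z + v) = Φ (t, z)) (t₀ : ℝ)
    (h0 : ∀ y, Φ (t₀, y) = 0) (n : ℕ) (ε : ℝ) (hε : 0 < ε) :
    ∀ᶠ t in 𝓝 t₀, ∀ k ≤ n, ∀ y, ‖iteratedFDeriv ℝ k (fun y => Φ (t, y)) y‖ ≤ ε := by
  have key : ∀ k, ∀ᶠ t in 𝓝 t₀, ∀ y, ‖iteratedFDeriv ℝ k (fun y => Φ (t, y)) y‖ ≤ ε := by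
    intro k
    have hc := continuous_norm_iteratedFDeriv k Φ hΦ
    have h1 : ∀ᶠ t in 𝓝 t₀, ∀ y ∈ K, ‖iteratedFDeriv ℝ k (fun y => Φ (t, y)) y‖ < ε := by
      apply hK.eventually_forall_of_forall_eventually
      intro y _
      have : ‖iteratedFDeriv ℝ k (fun y => Φ (t₀, y)) y‖ < ε := by
        have hz : (fun y => Φ (t₀, y)) = fun _ => (0 : ℝ) := funext h0
        rw [hz]
        rw [iteratedFDeriv_fun_zero]
        simpa using hε
      exact hc.continuousAt.eventually_lt (f := fun q : ℝ × E =>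
        ‖iteratedFDeriv ℝ k (fun y => Φ (q.1, y)) q.2‖) (x₀ := (t₀, y)) continuousAt_const this
    filter_upwards [h1] with t ht y
    obtain ⟨v, hv, hv'⟩ := hper y
    have h2 : iteratedFDeriv ℝ k (fun z => Φ (t, z)) y
        = iteratedFDeriv ℝ k (fun z => Φ (t, z)) (y + v) := by
      rw [← iteratedFDeriv_comp_add_right]
      congr 1
      funext z
      exact (hv' t z).symm
    rw [h2]
    exact (ht _ hv).le
  have := (Finset.range (n + 1)).eventually_all.2 fun k _ => key k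
  filter_upwards [this] with t ht k hk
  exact ht k (Finset.mem_range.2 (Nat.lt_succ_of_le hk))

end Pool.Agent.Helper802
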