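import Mathlib
import Pool.Agent.Helper802.Lifts

set_option autoImplicit false

open scoped Manifold ContDiff Topology
open Set Filter

noncomputable section

namespace Pool.Agent.Helper802

/-! ### The functions `cosN k` -/

/-- `cosN k (e s) = cos (2 π k s)`. -/
def cosN (k : ℕ) (x : Circle) : ℝ := ((x ^ k : Circle) : ℂ).re

theorem e_re (s : ℝ) : ((e s : Circle) : ℂ).re = Real.cos (2 * Real.pi * s) := by
  rw [e, Circle.coe_exp, Complex.exp_ofReal_mul_I_re]

theorem cosN_e (k : ℕ) (s : ℝ) : cosN k (e s) = Real.cos (2 * Real.pi * (k * s)) := by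
  rw [cosN, ← e_nat_mul, e_re]

theorem cosN_smooth (k : ℕ) : Smooth1 (cosN k) := by
  apply smooth1_of_lift
  simp only [cosN_e]
  exact Real.contDiff_cos.comp (contDiff_const.mul (contDiff_const.mul contDiff_id))

theorem cosN_mul_of_pow_eq_one (k : ℕ) (x y : Circle) (h : y ^ k = 1) :
    cosN k (x * y) = cosN k x := by
  rw [cosN, mul_pow, h, mul_one, cosN]

theorem cosN_inv (k : ℕ) (x : Circle) : cosN k x⁻¹ = cosN k x := by
  rw [cosN, inv_pow, Circle.coe_inv_eq_conj, Complex.conj_re, cosN]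

theorem e_half_pow_even (k : ℕ) (hk : Even k) : e (1 / 2) ^ k = 1 := by
  obtain ⟨m, rfl⟩ := hk
  rw [← two_mul, pow_mul, pow_two, e_half_mul_self, one_pow]

theorem cosN_half_even (k : ℕ) (hk : Even k) (x : Circle) :
    cosN k (x * e (1 / 2)) = cosN k x :=
  cosN_mul_of_pow_eq_one k x _ (e_half_pow_even k hk)

theorem cosN_half_odd (k : ℕ) (hk : Odd k) (x : Circle) :
    cosN k (x * e (1 / 2)) = - cosN k x := by
  obtain ⟨s, rfl⟩ := e_surj x
  obtain ⟨m, rfl⟩ := hk
  rw [← e_add, cosN_e, cosN_e]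
  have : 2 * Real.pi * (((2 * m + 1 : ℕ) : ℝ) * (s + 1 / 2))
      = (2 * Real.pi * (((2 * m + 1 : ℕ) : ℝ) * s) + Real.pi) + (m : ℕ) * (2 * Real.pi) := by
    push_cast; ring
  rw [this, Real.cos_add_nat_mul_two_pi, Real.cos_add_pi]

/-! ### Conjugating maps -/

/-- `H (x, p, z) = (x, p + G x, z + U (x, p + G x))`. -/
def Hmap (G : Circle → ℝ) (U : Circle × Circle → ℝ) (w : T3) : T3 :=
  (w.1, w.2.1 * e (G w.1), w.2.2 * e (U (w.1, w.2.1 * e (G w.1))))

theorem Hmap_surj (G : Circle → ℝ) (U : Circle × Circle → ℝ) (y : T3) :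
    Hmap G U (y.1, y.2.1 * (e (G y.1))⁻¹, y.2.2 * (e (U (y.1, y.2.1)))⁻¹) = y := by
  obtain ⟨x, p, z⟩ := y
  simp [Hmap, mul_assoc]

/-- The first cocycle. -/
def aFun (G : Circle → ℝ) (t : ℝ) (x : Circle) : ℝ := G (x * e t) - G x

/-- The second cocycle. -/
def bFun (G : Circle → ℝ) (U : Circle × Circle → ℝ) (t : ℝ) (y : Circle × Circle) : ℝ :=
  U (y.1 * e t, y.2 * e (aFun G t y.1)) - U y

/-- The conjugated rotation `H S_t H⁻¹`. -/
def fMap (G : Circle → ℝ) (U : Circle × Circle → ℝ) (t : ℝ) : T3 → T3 :=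
  skew (e t) (aFun G t) (bFun G U t)

theorem fMap_Hmap (G : Circle → ℝ) (U : Circle × Circle → ℝ) (t : ℝ) (w : T3) :
    fMap G U t (Hmap G U w) = Hmap G U (w.1 * e t, w.2) := by
  obtain ⟨x, p, z⟩ := w
  simp only [fMap, skew, Hmap, aFun, bFun]
  have h : p * e (G x) * e (G (x * e t) - G x) = p * e (G (x * e t)) := by
    rw [mul_assoc, ← e_add]; congr 2; ring
  refine Prod.ext rfl (Prod.ext h ?_)
  simp only [h]
  rw [mul_assoc, ← e_add]
  congr 2
  ring

theorem fMap_iter (G : Circle → ℝ) (U : Circle × Circle → ℝ) (t : ℝ) (w : T3) (m : ℕ) :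
    (fMap G U t)^[m] (Hmap G U w) = Hmap G U (w.1 * e t ^ m, w.2) := by
  induction m with
  | zero => simp
  | succ m ih =>
    rw [Function.iterate_succ_apply', ih, fMap_Hmap, pow_succ, mul_assoc]

theorem mul_e_mul_e (z : Circle) (A B : ℝ) : z * e A * e B = z * e (A + B) := by
  rw [mul_assoc, ← e_add]

/-- commutation of the conjugated rotation with `rot`. -/
theorem fMap_rot (G : Circle → ℝ) (U : Circle × Circle → ℝ) (hU : Smooth2 U) (t β : ℝ) (y : T3) :
    fMap G U t (rot U hU β y) = rot U hU β (fMap G U t y) := by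
  obtain ⟨x, p, z⟩ := y
  rw [rot_apply]
  simp only [fMap, skew]
  rw [rot_apply]
  have h1 : p * e β * e (aFun G t x) = p * e (aFun G t x) * e β := by
    rw [mul_assoc, mul_comm (e β), ← mul_assoc]
  refine Prod.ext rfl (Prod.ext h1 ?_)
  simp only [bFun, h1]
  rw [mul_e_mul_e z, mul_e_mul_e z]
  congr 2
  ring

theorem fMap_sigma (G : Circle → ℝ) (U : Circle × Circle → ℝ) (t : ℝ)
    (symG : ∀ x, G (x * e (1 / 2)) = - G x)
    (symU : ∀ x p, U (x * e (1 / 2), p⁻¹) = U (x, p)) (y : T3) :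
    fMap G U t (sigmaFun y) = sigmaFun (fMap G U t y) := by
  obtain ⟨x, p, z⟩ := y
  simp only [fMap, skew, sigmaFun]
  have h0 : x * e (1 / 2) * e t = x * e t * e (1 / 2) := by
    rw [mul_assoc, mul_comm (e (1 / 2)), ← mul_assoc]
  have h1 : aFun G t (x * e (1 / 2)) = - aFun G t x := by
    simp only [aFun, h0, symG]; ring
  have h2 : p⁻¹ * e (aFun G t (x * e (1 / 2))) = (p * e (aFun G t x))⁻¹ := by
    rw [h1, e_neg, mul_inv]
  refine Prod.ext h0 (Prod.ext h2 ?_)
  simp only [bFun]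
  rw [h2, h0, symU, symU]

/-! ### The step of the construction -/

/-- The new first function. -/
def G' (G : Circle → ℝ) (L : ℕ) (x : Circle) : ℝ := G x + cosN L x

/-- The new second function. -/
def U' (G : Circle → ℝ) (U : Circle × Circle → ℝ) (L M N : ℕ) (y : Circle × Circle) : ℝ :=
  U y + (cosN M y.1 + 1 / 4 * cosN N (y.2 * e (-(G' G L y.1))))

/-- The additional conjugacy. -/
def hmap (L M N : ℕ) (w : T3) : T3 :=
  (w.1, w.2.1 * e (cosN L w.1), w.2.2 * e (cosN M w.1 + 1 / 4 * cosN N w.2.1))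

theorem Hmap_hmap (G : Circle → ℝ) (U : Circle × Circle → ℝ) (L M N : ℕ) (w : T3) :
    Hmap (G' G L) (U' G U L M N) w = Hmap G U (hmap L M N w) := by
  obtain ⟨x, p, z⟩ := w
  simp only [Hmap, hmap, U']
  have h1 : p * e (G' G L x) = p * e (cosN L x) * e (G x) := by
    rw [mul_assoc, ← e_add]; congr 2; simp only [G']; ring
  have h2 : p * e (G' G L x) * e (-(G' G L x)) = p := by
    rw [mul_assoc, ← e_add]; simp [e_zero]
  refine Prod.ext rfl (Prod.ext h1 ?_)
  simp only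
  rw [h2, mul_assoc z, ← e_add]
  congr 2
  rw [h1]
  ring

theorem G'_smooth {G : Circle → ℝ} (hG : Smooth1 G) (L : ℕ) : Smooth1 (G' G L) :=
  hG.add (cosN_smooth L)

theorem U'_smooth {G : Circle → ℝ} (hG : Smooth1 G) {U : Circle × Circle → ℝ} (hU : Smooth2 U)
    (L M N : ℕ) : Smooth2 (U' G U L M N) := by
  have h1 : ContMDiff ((𝓡 1).prod (𝓡 1)) (𝓡 1) ∞ (fun y : Circle × Circle => y.1) := contMDiff_fst
  have h2 : ContMDiff ((𝓡 1).prod (𝓡 1)) (𝓡 1) ∞ (fun y : Circle × Circle => y.2) := contMDiff_snd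
  have h3 : Smooth2 (fun y => - G' G L y.1) := (((G'_smooth hG L).comp h1)).neg
  have h4 : Smooth2 (fun y => cosN N (y.2 * e (-(G' G L y.1)))) :=
    (cosN_smooth N).comp (smooth_mul h2 (smooth_e h3))
  have h5 : Smooth2 (fun y => (1 / 4 : ℝ) * cosN N (y.2 * e (-(G' G L y.1)))) :=
    contMDiff_const.mul h4
  exact hU.add (((cosN_smooth M).comp h1).add h5)

theorem G'_sym {G : Circle → ℝ} (symG : ∀ x, G (x * e (1 / 2)) = - G x) (L : ℕ) (hL : Odd L)
    (x : Circle) : G' G L (x * e (1 / 2)) = - G' G L x := by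
  simp only [G', symG, cosN_half_odd L hL]; ring

theorem U'_sym {G : Circle → ℝ} (symG : ∀ x, G (x * e (1 / 2)) = - G x)
    {U : Circle × Circle → ℝ} (symU : ∀ x p, U (x * e (1 / 2), p⁻¹) = U (x, p))
    (L M N : ℕ) (hL : Odd L) (hM : Even M) (x p : Circle) :
    U' G U L M N (x * e (1 / 2), p⁻¹) = U' G U L M N (x, p) := by
  simp only [U', symU, cosN_half_even M hM, G'_sym symG L hL]
  have : p⁻¹ * e (- -(G' G L x)) = (p * e (-(G' G L x)))⁻¹ := by
    rw [mul_inv, e_neg (-(G' G L x))]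
  rw [this, cosN_inv]

/-- Adding the new functions does not change the map at the old rotation number. -/
theorem aFun_G' (G : Circle → ℝ) (L : ℕ) (t : ℝ) (h : e t ^ L = 1) :
    aFun (G' G L) t = aFun G t := by
  funext x
  simp only [aFun, G', cosN_mul_of_pow_eq_one L x _ h]
  ring

theorem bFun_U' (G : Circle → ℝ) (U : Circle × Circle → ℝ) (L M N : ℕ) (t : ℝ)
    (hL : e t ^ L = 1) (hM : e t ^ M = 1) :
    bFun (G' G L) (U' G U L M N) t = bFun G U t := by
  funext y
  obtain ⟨x, p⟩ := y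
  simp only [bFun, aFun_G' G L t hL, U', cosN_mul_of_pow_eq_one M x _ hM]
  have : p * e (aFun G t x) * e (-(G' G L (x * e t))) = p * e (-(G' G L x)) := by
    rw [mul_assoc, ← e_add]
    congr 2
    have := congrFun (aFun_G' G L t hL) x
    rw [← this]
    simp only [aFun]
    ring
  rw [this]
  ring

theorem e_inv_pow (N : ℕ) (hN : 0 < N) : e (1 / N) ^ N = 1 := by
  rw [← e_nat_mul, mul_one_div_cancel (by positivity), e_one]

theorem U'_compat (G : Circle → ℝ) (U : Circle × Circle → ℝ) (L M N : ℕ) (hN : 0 < N)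
    (x p : Circle) :
    U' G U L M N (x, p * e (1 / N)) - U' G U L M N (x, p) = U (x, p * e (1 / N)) - U (x, p) := by
  simp only [U']
  have : cosN N (p * e (1 / N) * e (-(G' G L x))) = cosN N (p * e (-(G' G L x))) := by
    have h : p * e (1 / N) * e (-(G' G L x)) = p * e (-(G' G L x)) * e (1 / N) := by
      rw [mul_assoc, mul_comm (e (1 / N)), ← mul_assoc]
    rw [h]
    exact cosN_mul_of_pow_eq_one N _ _ (e_inv_pow N hN)
  rw [this]
  ring

end Pool.Agent.Helper802
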