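import Mathlib
import Pool.Agent.Helper802.Stage

set_option autoImplicit false

open scoped Manifold ContDiff Topology
open Set Filter

noncomputable section

namespace Pool.Agent.Helper802

theorem circle_dist (x y : Circle) : dist x y = ‖(x : ℂ) - (y : ℂ)‖ := by
  rw [← dist_eq_norm]; rfl

theorem dist_mul_left' (x y z : Circle) : dist (x * y) (x * z) = dist y z := by
  rw [circle_dist, circle_dist, Circle.coe_mul, Circle.coe_mul, ← mul_sub, norm_mul,
    Circle.norm_coe, one_mul]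

theorem dist_e (s t : ℝ) : dist (e s) (e t) ≤ 2 * Real.pi * |s - t| := by
  have h1 : e s = e t * e (s - t) := by rw [← e_add]; congr 1; ring
  have h2 : dist (e s) (e t) = dist (e (s - t)) 1 := by
    conv_lhs => rw [h1, ← mul_one (e t)]
    rw [mul_one (e t), ← dist_mul_left' (e t) (e (s - t)) 1, mul_one]
  rw [h2, circle_dist, e, Circle.coe_exp, Circle.coe_one]
  have := Real.norm_exp_I_mul_ofReal_sub_one_le (x := 2 * Real.pi * (s - t))
  rw [mul_comm] at this
  refine this.trans ?_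
  rw [Real.norm_eq_abs, abs_mul, abs_of_pos (by positivity : (0 : ℝ) < 2 * Real.pi)]

theorem exists_cos_eq (v s K : ℝ) (hv : |v| ≤ 1) (hK : 0 < K) :
    ∃ s', s ≤ s' ∧ s' ≤ s + 1 / K ∧ Real.cos (2 * Real.pi * (K * s')) = v := by
  obtain ⟨hv1, hv2⟩ := abs_le.1 hv
  have hpi : (0 : ℝ) < 2 * Real.pi := by positivity
  set c := Real.arccos v / (2 * Real.pi * K) with hc
  set n : ℤ := ⌈(s - c) * K⌉ with hn
  refine ⟨c + n / K, ?_, ?_, ?_⟩
  · have := Int.le_ceil ((s - c) * K)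
    have h2 : s - c ≤ n / K := by rw [le_div_iff₀ hK]; exact this
    linarith
  · have := (Int.ceil_lt_add_one ((s - c) * K)).le
    have h2 : (n : ℝ) / K ≤ (s - c) + 1 / K := by
      rw [div_le_iff₀ hK, add_mul, one_div, inv_mul_cancel₀ hK.ne']
      exact this
    linarith
  · have : 2 * Real.pi * (K * (c + n / K)) = Real.arccos v + n * (2 * Real.pi) := by
      rw [hc]; field_simp
    rw [this, Real.cos_add_int_mul_two_pi, Real.cos_arccos hv1 hv2]

theorem exists_e_eq (x : Circle) : ∃ v : ℝ, |v| ≤ 1 ∧ e v = x := by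
  refine ⟨Complex.arg (x : ℂ) / (2 * Real.pi), ?_, ?_⟩
  · rw [abs_div, abs_of_pos (by positivity : (0 : ℝ) < 2 * Real.pi)]
    rw [div_le_one (by positivity)]
    refine (Complex.abs_arg_le_pi _).trans ?_
    linarith [Real.pi_pos]
  · rw [e, mul_div_cancel₀ _ (by positivity : (2 * Real.pi) ≠ 0), Circle.exp_arg]

/-- The curves `x ↦ h (x, p, z)` are `ε`-dense for suitable parameters. -/
theorem hmap_dense (ε : ℝ) (hε : 0 < ε) (Q : ℕ) (hQ : 0 < Q) (hQo : Odd Q) (N : ℕ) :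
    ∃ L M : ℕ, Odd L ∧ Even M ∧ Q ∣ L ∧ Q ∣ M ∧
      ∀ (p z : Circle) (w : T3), ∃ x : Circle, dist (hmap L M N (x, p, z)) w < ε := by
  have hpi := Real.pi_pos
  -- choose L
  obtain ⟨k, hk⟩ := exists_nat_gt (8 * Real.pi / ε)
  set L := Q * (2 * k + 1) with hL
  have hL0 : 0 < L := by positivity
  have hLk : (k : ℝ) ≤ L := by
    rw [hL]; push_cast
    have : (1 : ℝ) ≤ Q := by exact_mod_cast hQ
    nlinarith [Nat.cast_nonneg (α := ℝ) k]
  have hLpos : (0 : ℝ) < L := by exact_mod_cast hL0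
  obtain ⟨m, hm⟩ := exists_nat_gt (max (L : ℝ) (8 * Real.pi ^ 2 * L / ε))
  set M := Q * (2 * m) with hM
  have hm0 : 0 < m := by
    rcases Nat.eq_zero_or_pos m with h | h
    · rw [h] at hm
      have := (le_max_left (L : ℝ) (8 * Real.pi ^ 2 * L / ε)).trans_lt hm
      simp only [Nat.cast_zero] at this
      linarith
    · exact h
  have hMm : (m : ℝ) ≤ M := by
    rw [hM]; push_cast
    have : (1 : ℝ) ≤ Q := by exact_mod_cast hQ
    nlinarith [Nat.cast_nonneg (α := ℝ) m]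
  have hM0 : 0 < M := by positivity
  have hMpos : (0 : ℝ) < M := by exact_mod_cast hM0
  have hML : (L : ℝ) < M := (le_max_left _ _).trans_lt (hm.trans_le hMm)
  have hMe : 8 * Real.pi ^ 2 * L / ε < M := (le_max_right _ _).trans_lt (hm.trans_le hMm)
  refine ⟨L, M, ?_, ?_, ⟨_, hL⟩, ⟨_, hM⟩, ?_⟩
  · rw [hL]; exact hQo.mul ⟨k, rfl⟩
  · rw [hM]; exact (even_two_mul m).mul_left Q
  · rintro p z ⟨x₀, p₀, z₀⟩
    obtain ⟨s₀, rfl⟩ := e_surj x₀
    obtain ⟨v, hv, hv'⟩ := exists_e_eq (p⁻¹ * p₀)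
    obtain ⟨u, hu, hu'⟩ := exists_e_eq (z⁻¹ * z₀ * e (-(1 / 4 * cosN N p)))
    obtain ⟨s₁, h11, h12, h13⟩ := exists_cos_eq v s₀ L hv hLpos
    obtain ⟨s₂, h21, h22, h23⟩ := exists_cos_eq u s₁ M hu hMpos
    refine ⟨e s₂, ?_⟩
    have hs20 : |s₂ - s₀| ≤ 2 / L := by
      rw [abs_of_nonneg (by linarith)]
      have : 1 / (M : ℝ) ≤ 1 / L := one_div_le_one_div_of_le hLpos hML.le
      have h3 : (2 : ℝ) / L = 1 / L + 1 / L := by ring
      rw [h3]
      linarith
    have h1 : dist (e s₂) (e s₀) < ε := by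
      refine (dist_e _ _).trans_lt ?_
      have : 2 * Real.pi * |s₂ - s₀| ≤ 2 * Real.pi * (2 / L) :=
        mul_le_mul_of_nonneg_left hs20 (by positivity)
      refine this.trans_lt ?_
      have h4 : 8 * Real.pi / ε < L := hk.trans_le hLk
      rw [div_lt_iff₀ hε] at h4
      have : 2 * Real.pi * (2 / L) = 4 * Real.pi / L := by ring
      rw [this, div_lt_iff₀ hLpos]
      nlinarith
    have h2 : dist (p * e (cosN L (e s₂))) p₀ < ε := by
      have hp₀ : p₀ = p * e v := by rw [hv']; simp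
      rw [hp₀, dist_mul_left', cosN_e]
      refine (dist_e _ _).trans_lt ?_
      rw [← h13]
      have h5 := Real.abs_cos_sub_cos_le (2 * Real.pi * (L * s₂)) (2 * Real.pi * (L * s₁))
      have h6 : |2 * Real.pi * (L * s₂) - 2 * Real.pi * (L * s₁)| ≤ 2 * Real.pi * L / M := by
        have : 2 * Real.pi * (L * s₂) - 2 * Real.pi * (L * s₁) = 2 * Real.pi * L * (s₂ - s₁) := by
          ring
        rw [this, abs_mul, abs_of_pos (by positivity), abs_of_nonneg (by linarith)]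
        have : (s₂ - s₁) ≤ 1 / M := by linarith
        calc 2 * Real.pi * L * (s₂ - s₁) ≤ 2 * Real.pi * L * (1 / M) :=
              mul_le_mul_of_nonneg_left this (by positivity)
          _ = _ := by ring
      have h7 : 2 * Real.pi * |Real.cos (2 * Real.pi * (L * s₂)) - Real.cos (2 * Real.pi * (L * s₁))|
          ≤ 2 * Real.pi * (2 * Real.pi * L / M) :=
        mul_le_mul_of_nonneg_left (h5.trans h6) (by positivity)
      refine h7.trans_lt ?_
      rw [div_lt_iff₀ hε] at hMe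
      have : 2 * Real.pi * (2 * Real.pi * L / M) = 4 * Real.pi ^ 2 * L / M := by ring
      rw [this, div_lt_iff₀ hMpos]
      have : 0 < Real.pi ^ 2 * L := by positivity
      nlinarith
    have h3 : z * e (cosN M (e s₂) + 1 / 4 * cosN N p) = z₀ := by
      rw [cosN_e, h23, e_add, hu']
      have : e (-(1 / 4 * cosN N p)) * e (1 / 4 * cosN N p) = 1 := by
        rw [← e_add]; simp [e_zero]
      calc z * (z⁻¹ * z₀ * e (-(1 / 4 * cosN N p)) * e (1 / 4 * cosN N p))
          = z * (z⁻¹ * z₀ * (e (-(1 / 4 * cosN N p)) * e (1 / 4 * cosN N p))) := by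
            simp only [mul_assoc]
        _ = z₀ := by rw [this]; simp
    simp only [hmap]
    rw [Prod.dist_eq, Prod.dist_eq, max_lt_iff, max_lt_iff]
    refine ⟨h1, h2, ?_⟩
    simp only
    rw [h3, dist_self]
    exact hε

/-- Iterates at a point depend continuously on the map. -/
theorem robust_iter {X : Type*} [MetricSpace X] [CompactSpace X] (f : X → X) (hf : Continuous f)
    (y₀ : X) (m : ℕ) : ∀ ε > 0, ∃ δ > 0, ∀ F : X → X, (∀ y, dist (F y) (f y) ≤ δ) →
      dist (F^[m] y₀) (f^[m] y₀) < ε := by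
  have hu : UniformContinuous f := CompactSpace.uniformContinuous_of_continuous hf
  induction m with
  | zero => intro ε hε; exact ⟨1, one_pos, fun F _ => by simpa using hε⟩
  | succ m ih =>
    intro ε hε
    obtain ⟨δ₁, hδ₁, h1⟩ := Metric.uniformContinuous_iff.1 hu (ε / 2) (half_pos hε)
    obtain ⟨δ₂, hδ₂, h2⟩ := ih δ₁ hδ₁
    refine ⟨min δ₂ (ε / 2), lt_min hδ₂ (half_pos hε), fun F hF => ?_⟩
    rw [Function.iterate_succ_apply', Function.iterate_succ_apply']
    have h3 := h2 F fun y => (hF y).trans (min_le_left _ _)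
    have h4 := h1 h3
    have h5 := (hF (F^[m] y₀)).trans (min_le_right _ _)
    calc dist (F (F^[m] y₀)) (f (f^[m] y₀))
        ≤ dist (F (F^[m] y₀)) (f (F^[m] y₀)) + dist (f (F^[m] y₀)) (f (f^[m] y₀)) :=
          dist_triangle _ _ _
      _ < ε / 2 + ε / 2 := add_lt_add_of_le_of_lt h5 h4
      _ = ε := by ring

/-- If the orbit of `y₀` under `f` is `ε`-dense, then so is it (with `2 ε`) for nearby maps. -/
theorem robust_dense {X : Type*} [MetricSpace X] [CompactSpace X] (f : X → X) (hf : Continuous f)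
    (y₀ : X) (ε : ℝ) (hε : 0 < ε) (h : ∀ y, ∃ m : ℕ, dist (f^[m] y₀) y < ε) :
    ∃ δ > 0, ∀ F : X → X, (∀ y, dist (F y) (f y) ≤ δ) → ∀ y, ∃ m : ℕ, dist (F^[m] y₀) y < 2 * ε := by
  choose δ hδ hδ' using fun m => robust_iter f hf y₀ m ε hε
  obtain ⟨t, ht⟩ := isCompact_univ.elim_finite_subcover (fun m : ℕ => Metric.ball (f^[m] y₀) ε)
    (fun m => Metric.isOpen_ball) (fun y _ => by
      obtain ⟨m, hm⟩ := h y
      exact mem_iUnion.2 ⟨m, by rwa [Metric.mem_ball, dist_comm]⟩)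
  have hδmin : ∃ δ₀ > 0, ∀ m ∈ t, δ₀ ≤ δ m := by
    rcases t.eq_empty_or_nonempty with h | h
    · exact ⟨1, one_pos, fun m hm => by rw [h] at hm; simp at hm⟩
    · refine ⟨t.inf' h δ, (Finset.lt_inf'_iff h).2 fun m _ => hδ m, fun m hm => Finset.inf'_le _ hm⟩
  obtain ⟨δ₀, hδ₀, hδ₀'⟩ := hδmin
  refine ⟨δ₀, hδ₀, fun F hF y => ?_⟩
  have hy := ht (mem_univ y)
  simp only [mem_iUnion, exists_prop, Metric.mem_ball] at hy
  obtain ⟨m, hm, hm'⟩ := hy
  refine ⟨m, ?_⟩
  have h1 := hδ' m F fun y => (hF y).trans (hδ₀' m hm)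
  calc dist (F^[m] y₀) y ≤ dist (F^[m] y₀) (f^[m] y₀) + dist (f^[m] y₀) y := dist_triangle _ _ _
    _ < ε + ε := add_lt_add h1 (by rwa [dist_comm] at hm')
    _ = 2 * ε := by ring

end Pool.Agent.Helper802
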