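import Mathlib
import Pool.Agent.Helper802.Density

set_option autoImplicit false

open scoped Manifold ContDiff Topology
open Set Filter

noncomputable section

namespace Pool.Agent.Helper802

/-- The finite data at one stage of the construction. -/
structure Stage where
  /-- first conjugating function -/
  G : Circle → ℝ
  /-- second conjugating function -/
  U : Circle × Circle → ℝ
  hG : Smooth1 G
  hU : Smooth2 U
  symG : ∀ x, G (x * e (1 / 2)) = - G x
  symU : ∀ x p, U (x * e (1 / 2), p⁻¹) = U (x, p)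
  /-- rotation number -/
  t : ℝ
  /-- denominator -/
  Q : ℕ
  /-- order of the rotation in the second coordinate -/
  N : ℕ
  /-- allowed future error -/
  η : ℝ
  hQ : 0 < Q
  hQo : Odd Q
  hN : 0 < N
  hη : 0 < η
  ht : e t ^ Q = 1
  hNs : ∀ β : ℝ, |β| ≤ 1 / N → ∀ x p, |U (x, p * e β) - U (x, p)| ≤ 1 / 16

/-- The map at a stage. -/
def Stage.f (s : Stage) : T3 → T3 := fMap s.G s.U s.t

/-- The relation between consecutive stages. -/
structure Next (W : ℕ → Set (T3 ≃ₘ⟮I3, I3⟯ T3)) (n : ℕ) (s s' : Stage) : Prop where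
  dvd : 4 * s.N ∣ s'.N
  compat : ∀ x p, s'.U (x, p * e (1 / s.N)) - s'.U (x, p) = s.U (x, p * e (1 / s.N)) - s.U (x, p)
  near_one : rot s'.U s'.hU (1 / s'.N) ∈ W n
  wild : ∃ y y' : T3, dist y y' ≤ 2 / s.N ∧
    1 ≤ dist (rot s'.U s'.hU (1 / (2 * s.N)) y) (rot s'.U s'.hU (1 / (2 * s.N)) y')
  close_t : |s'.t - s.t| ≤ (1 / 2) ^ n
  close_a : ∀ k ≤ n, ∀ r : ℝ,
    ‖iteratedFDeriv ℝ k (fun r : ℝ => aFun s'.G s'.t (e r) - aFun s.G s.t (e r)) r‖ ≤ (1 / 2) ^ n
  close_b : ∀ k ≤ n, ∀ r : ℝ × ℝ,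
    ‖iteratedFDeriv ℝ k (fun r : ℝ × ℝ => bFun s'.G s'.U s'.t (e r.1, e r.2)
      - bFun s.G s.U s.t (e r.1, e r.2)) r‖ ≤ (1 / 2) ^ n
  close_f : ∀ y, dist (s'.f y) (s.f y) ≤ s.η / 2
  eta : s'.η ≤ s.η / 2
  dense : ∀ F : T3 → T3, (∀ y, dist (F y) (s'.f y) ≤ s'.η) →
    ∀ y, ∃ m : ℕ, dist (F^[m] (1, 1, 1)) y < 1 / (n + 1)

theorem e_add_int (r : ℝ) (k : ℤ) : e (r + k) = e r := by
  rw [e_add, e_int, mul_one]

section Small

variable {G : Circle → ℝ} (hG : Smooth1 G) {U : Circle × Circle → ℝ} (hU : Smooth2 U)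

include hG in
theorem aFun_lift_smooth {X : Type} [NormedAddCommGroup X] [NormedSpace ℝ X] (T R : X → ℝ)
    (hT : ContDiff ℝ ∞ T) (hR : ContDiff ℝ ∞ R) :
    ContDiff ℝ ∞ (fun q => aFun G (T q) (e (R q))) := by
  have h1 : ContMDiff 𝓘(ℝ, X) (𝓡 1) ∞ (fun q => e (R q)) := smooth_e hR.contMDiff
  have h2 : ContMDiff 𝓘(ℝ, X) (𝓡 1) ∞ (fun q => e (T q)) := smooth_e hT.contMDiff
  have h3 : ContMDiff 𝓘(ℝ, X) 𝓘(ℝ, ℝ) ∞ (fun q => aFun G (T q) (e (R q))) :=
    (hG.comp (smooth_mul h1 h2)).sub (hG.comp h1)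
  exact h3.contDiff

include hG hU in
theorem bFun_lift_smooth {X : Type} [NormedAddCommGroup X] [NormedSpace ℝ X] (T R S : X → ℝ)
    (hT : ContDiff ℝ ∞ T) (hR : ContDiff ℝ ∞ R) (hS : ContDiff ℝ ∞ S) :
    ContDiff ℝ ∞ (fun q => bFun G U (T q) (e (R q), e (S q))) := by
  have h1 : ContMDiff 𝓘(ℝ, X) (𝓡 1) ∞ (fun q => e (R q)) := smooth_e hR.contMDiff
  have h2 : ContMDiff 𝓘(ℝ, X) (𝓡 1) ∞ (fun q => e (T q)) := smooth_e hT.contMDiff
  have h3 : ContMDiff 𝓘(ℝ, X) (𝓡 1) ∞ (fun q => e (S q)) := smooth_e hS.contMDiff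
  have h4 : ContMDiff 𝓘(ℝ, X) (𝓡 1) ∞ (fun q => e (aFun G (T q) (e (R q)))) :=
    smooth_e (aFun_lift_smooth hG T R hT hR).contMDiff
  have h5 : ContMDiff 𝓘(ℝ, X) 𝓘(ℝ, ℝ) ∞ (fun q => bFun G U (T q) (e (R q), e (S q))) :=
    (hU.comp ((smooth_mul h1 h2).prodMk (smooth_mul h3 h4))).sub (hU.comp (h1.prodMk h3))
  exact h5.contDiff

include hG in
theorem aFun_small (t₀ : ℝ) (n : ℕ) (ε : ℝ) (hε : 0 < ε) :
    ∀ᶠ t in 𝓝 t₀, ∀ k ≤ n, ∀ r : ℝ,
      ‖iteratedFDeriv ℝ k (fun r : ℝ => aFun G t (e r) - aFun G t₀ (e r)) r‖ ≤ ε := by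
  refine small_of_periodic (fun q : ℝ × ℝ => aFun G q.1 (e q.2) - aFun G t₀ (e q.2)) ?_
    (Icc 0 1) isCompact_Icc ?_ t₀ (fun y => by simp) n ε hε
  · exact (aFun_lift_smooth hG _ _ contDiff_fst contDiff_snd).sub
      (aFun_lift_smooth hG _ _ contDiff_const contDiff_snd)
  · intro y
    refine ⟨((-⌊y⌋ : ℤ) : ℝ), ?_, fun t z => ?_⟩
    · push_cast
      exact ⟨by linarith [Int.floor_le y], by linarith [Int.lt_floor_add_one y]⟩
    · simp only [e_add_int]

include hG hU in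
theorem bFun_small (t₀ : ℝ) (n : ℕ) (ε : ℝ) (hε : 0 < ε) :
    ∀ᶠ t in 𝓝 t₀, ∀ k ≤ n, ∀ r : ℝ × ℝ,
      ‖iteratedFDeriv ℝ k (fun r : ℝ × ℝ => bFun G U t (e r.1, e r.2)
        - bFun G U t₀ (e r.1, e r.2)) r‖ ≤ ε := by
  refine small_of_periodic (fun q : ℝ × (ℝ × ℝ) => bFun G U q.1 (e q.2.1, e q.2.2)
    - bFun G U t₀ (e q.2.1, e q.2.2)) ?_ (Icc 0 1 ×ˢ Icc 0 1) (isCompact_Icc.prod isCompact_Icc)
    ?_ t₀ (fun y => by simp) n ε hε
  · exact (bFun_lift_smooth hG hU _ _ _ contDiff_fst (contDiff_fst.comp contDiff_snd)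
      (contDiff_snd.comp contDiff_snd)).sub
      (bFun_lift_smooth hG hU _ _ _ contDiff_const (contDiff_fst.comp contDiff_snd)
      (contDiff_snd.comp contDiff_snd))
  · rintro ⟨y₁, y₂⟩
    refine ⟨(((-⌊y₁⌋ : ℤ) : ℝ), ((-⌊y₂⌋ : ℤ) : ℝ)), ?_, fun t z => ?_⟩
    · simp only [Prod.mk_add_mk, mem_prod]
      push_cast
      exact ⟨⟨by linarith [Int.floor_le y₁], by linarith [Int.lt_floor_add_one y₁]⟩,
        ⟨by linarith [Int.floor_le y₂], by linarith [Int.lt_floor_add_one y₂]⟩⟩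
    · simp only [Prod.fst_add, Prod.snd_add, e_add_int]

include hG hU in
theorem fMap_joint_continuous : Continuous (fun q : ℝ × T3 => fMap G U q.1 q.2) := by
  have hGc : Continuous G := hG.continuous
  have hUc : Continuous U := hU.continuous
  have hec := continuous_e
  simp only [fMap, skew, aFun, bFun]
  fun_prop

include hG hU in
theorem fMap_small (t₀ : ℝ) (ε : ℝ) (hε : 0 < ε) :
    ∀ᶠ t in 𝓝 t₀, ∀ y, dist (fMap G U t y) (fMap G U t₀ y) ≤ ε := by
  have hc := fMap_joint_continuous hG hU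
  have h1 : ∀ᶠ t in 𝓝 t₀, ∀ y ∈ (univ : Set T3), dist (fMap G U t y) (fMap G U t₀ y) < ε := by
    apply isCompact_univ.eventually_forall_of_forall_eventually
    intro y _
    have hc2 : Continuous fun q : ℝ × T3 => dist (fMap G U q.1 q.2) (fMap G U t₀ q.2) :=
      hc.dist (hc.comp (continuous_const.prodMk continuous_snd))
    have : dist (fMap G U t₀ y) (fMap G U t₀ y) < ε := by rwa [dist_self]
    exact hc2.continuousAt.eventually_lt (x₀ := (t₀, y)) continuousAt_const this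
  filter_upwards [h1] with t ht y using (ht y (mem_univ y)).le

include hU in
theorem U_small (ε : ℝ) (hε : 0 < ε) :
    ∀ᶠ β in 𝓝 (0 : ℝ), ∀ x p, |U (x, p * e β) - U (x, p)| ≤ ε := by
  have hUc : Continuous U := hU.continuous
  have hec := continuous_e
  have h1 : ∀ᶠ β in 𝓝 (0 : ℝ), ∀ y ∈ (univ : Set (Circle × Circle)),
      |U (y.1, y.2 * e β) - U (y.1, y.2)| < ε := by
    apply isCompact_univ.eventually_forall_of_forall_eventually
    intro y _
    have hc2 : Continuous fun q : ℝ × (Circle × Circle) =>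
        |U (q.2.1, q.2.2 * e q.1) - U (q.2.1, q.2.2)| := by fun_prop
    have : |U (y.1, y.2 * e 0) - U (y.1, y.2)| < ε := by simpa [e_zero] using hε
    exact hc2.continuousAt.eventually_lt (x₀ := ((0 : ℝ), y)) continuousAt_const this
  filter_upwards [h1] with β hβ x p using (hβ (x, p) (mem_univ _)).le

end Small

/-- The wildness of `R_{1/(2N)}` after the new function is added. -/
theorem wild_step (G : Circle → ℝ) (U : Circle × Circle → ℝ) (L M N : ℕ) (hN : 0 < N)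
    (hs : ∀ β : ℝ, |β| ≤ 1 / N → ∀ x p, |U (x, p * e β) - U (x, p)| ≤ 1 / 16)
    (hU' : Smooth2 (U' G U L M N)) :
    ∃ y y' : T3, dist y y' ≤ 2 / N ∧
      1 ≤ dist (rot (U' G U L M N) hU' (1 / (2 * N)) y) (rot (U' G U L M N) hU' (1 / (2 * N)) y') := by
  have hNpos : (0 : ℝ) < N := by exact_mod_cast hN
  set g := G' G L 1 with hg
  set β : ℝ := 1 / (2 * N) with hβ
  have hβN : |β| ≤ 1 / N := by
    rw [hβ, abs_of_pos (by positivity)]
    apply one_div_le_one_div_of_le hNpos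
    linarith
  refine ⟨(1, e g, 1), (1, e (g + 1 / (4 * N)), 1), ?_, ?_⟩
  · rw [Prod.dist_eq, Prod.dist_eq]
    simp only [dist_self]
    have h1 : dist (e g) (e (g + 1 / (4 * N))) ≤ 2 / N := by
      refine (dist_e _ _).trans ?_
      have : |g - (g + 1 / (4 * (N : ℝ)))| = 1 / (4 * N) := by
        rw [show g - (g + 1 / (4 * (N : ℝ))) = -(1 / (4 * N)) by ring, abs_neg,
          abs_of_pos (by positivity)]
      rw [this, mul_one_div, div_le_div_iff₀ (by positivity) hNpos]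
      nlinarith [Real.pi_le_four, Real.pi_pos]
    have h0 : (0 : ℝ) ≤ 2 / N := by positivity
    exact max_le h0 (max_le h1 h0)
  · rw [rot_apply, rot_apply]
    rw [Prod.dist_eq, Prod.dist_eq]
    refine le_max_of_le_right (le_max_of_le_right ?_)
    simp only [one_mul]
    set v₀ := U' G U L M N (1, e g * e β) - U' G U L M N (1, e g) with hv₀
    set v₁ := U' G U L M N (1, e (g + 1 / (4 * N)) * e β) - U' G U L M N (1, e (g + 1 / (4 * N)))
      with hv₁
    have key : ∀ r : ℝ, U' G U L M N (1, e (g + r) * e β) - U' G U L M N (1, e (g + r))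
        = (U (1, e (g + r) * e β) - U (1, e (g + r))) +
          1 / 4 * (Real.cos (2 * Real.pi * (N * (r + β))) - Real.cos (2 * Real.pi * (N * r))) := by
      intro r
      simp only [U']
      have h1 : e (g + r) * e β * e (-(G' G L 1)) = e (r + β) := by
        rw [← e_add, ← e_add]; congr 1; rw [← hg]; ring
      have h2 : e (g + r) * e (-(G' G L 1)) = e r := by
        rw [← e_add]; congr 1; rw [← hg]; ring
      rw [h1, h2, cosN_e, cosN_e]
      ring
    have hk0 := key 0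
    rw [add_zero] at hk0
    have hk1 := key (1 / (4 * N))
    have hd0 := hs β hβN 1 (e g)
    have hd1 := hs β hβN 1 (e (g + 1 / (4 * N)))
    have hc0 : Real.cos (2 * Real.pi * (N * (0 + β))) = -1 := by
      have : 2 * Real.pi * (N * (0 + β)) = Real.pi := by rw [hβ]; field_simp; ring
      rw [this, Real.cos_pi]
    have hc0' : Real.cos (2 * Real.pi * (N * (0 : ℝ))) = 1 := by simp
    have hc1 : Real.cos (2 * Real.pi * (N * (1 / (4 * N) + β))) = 0 := by
      have : 2 * Real.pi * (N * (1 / (4 * N) + β)) = Real.pi / 2 + Real.pi := by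
        rw [hβ]; field_simp; ring
      rw [this, Real.cos_add_pi, Real.cos_pi_div_two, neg_zero]
    have hc1' : Real.cos (2 * Real.pi * (N * (1 / (4 * (N : ℝ))))) = 0 := by
      have : 2 * Real.pi * (N * (1 / (4 * (N : ℝ)))) = Real.pi / 2 := by field_simp; ring
      rw [this, Real.cos_pi_div_two]
    rw [hc0, hc0', ← hv₀] at hk0
    rw [hc1, hc1', ← hv₁] at hk1
    have hv : |v₀ - v₁ + 1 / 2| ≤ 1 / 8 := by
      rw [hk0, hk1]
      rw [abs_le] at hd0 hd1 ⊢
      constructor <;> linarith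
    have h2 : dist (e v₀) (e v₁) = dist (e (v₀ - v₁)) 1 := by
      have h1 : e v₀ = e v₁ * e (v₀ - v₁) := by rw [← e_add]; congr 1; ring
      rw [h1]
      conv_lhs => rw [← mul_one (e v₁), mul_assoc, one_mul]
      rw [dist_mul_left']
    rw [h2, circle_dist]
    have h3 : |(((e (v₀ - v₁) : Circle) : ℂ) - ((1 : Circle) : ℂ)).re|
        ≤ ‖((e (v₀ - v₁) : Circle) : ℂ) - ((1 : Circle) : ℂ)‖ := Complex.abs_re_le_norm _
    refine le_trans ?_ h3
    rw [Complex.sub_re, e_re, Circle.coe_one, Complex.one_re]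
    have h4 : Real.cos (2 * Real.pi * (v₀ - v₁)) = - Real.cos (2 * Real.pi * (v₀ - v₁ + 1 / 2)) := by
      have : 2 * Real.pi * (v₀ - v₁ + 1 / 2) = 2 * Real.pi * (v₀ - v₁) + Real.pi := by ring
      rw [this, Real.cos_add_pi, neg_neg]
    have h5 : 0 ≤ Real.cos (2 * Real.pi * (v₀ - v₁ + 1 / 2)) := by
      apply Real.cos_nonneg_of_mem_Icc
      rw [abs_le] at hv
      constructor <;> nlinarith [Real.pi_pos]
    rw [h4, abs_of_nonpos (by linarith)]
    linarith

theorem Hmap_continuous {G : Circle → ℝ} (hG : Continuous G) {U : Circle × Circle → ℝ}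
    (hU : Continuous U) : Continuous (Hmap G U) := by
  have hec := continuous_e
  unfold Hmap
  fun_prop

theorem hmap_continuous (L M N : ℕ) : Continuous (hmap L M N) := by
  have hec := continuous_e
  have h1 : ∀ k, Continuous (cosN k) := fun k => (cosN_smooth k).continuous
  have := h1 L
  have := h1 M
  have := h1 N
  unfold hmap
  fun_prop

/-- Rotation orbits are dense enough for `t + 1 / (Q R)`. -/
theorem orbit_dense (t : ℝ) (Q : ℕ) (hQ : 0 < Q) (ht : e t ^ Q = 1) (R : ℕ) (hR : 0 < R)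
    (δ : ℝ) (hδ : 2 * Real.pi / R < δ) (x : Circle) :
    ∃ m : ℕ, dist (e (t + 1 / (Q * R)) ^ m) x < δ := by
  obtain ⟨r₀, hr₀⟩ := e_surj x
  set r := Int.fract r₀ with hr
  have hrx : e r = x := by
    rw [← hr₀]
    conv_rhs => rw [← Int.fract_add_floor r₀]
    rw [e_add_int]
  have hr0 : 0 ≤ r := Int.fract_nonneg _
  have hRpos : (0 : ℝ) < R := by exact_mod_cast hR
  have hQpos : (0 : ℝ) < Q := by exact_mod_cast hQ
  set i := ⌊r * R⌋₊ with hi
  refine ⟨Q * i, ?_⟩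
  have h1 : e (t + 1 / (Q * R)) ^ (Q * i) = e (i / R) := by
    rw [e_add, mul_pow, pow_mul, ht, one_pow, one_mul, ← e_nat_mul]
    congr 1
    push_cast
    field_simp
  rw [h1, ← hrx]
  refine (dist_e _ _).trans_lt ?_
  have h2 : (i : ℝ) ≤ r * R := Nat.floor_le (by positivity)
  have h3 : r * R < i + 1 := Nat.lt_floor_add_one _
  have h4 : |(i : ℝ) / R - r| ≤ 1 / R := by
    rw [abs_le]
    constructor
    · rw [neg_le_sub_iff_le_add, ← add_div, le_div_iff₀ hRpos]; linarith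
    · have : (i : ℝ) / R ≤ r := by rw [div_le_iff₀ hRpos]; exact h2
      have : (0 : ℝ) ≤ 1 / R := by positivity
      linarith
  calc 2 * Real.pi * |(i : ℝ) / R - r| ≤ 2 * Real.pi * (1 / R) :=
        mul_le_mul_of_nonneg_left h4 (by positivity)
    _ = 2 * Real.pi / R := by ring
    _ < δ := hδ

end Pool.Agent.Helper802
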