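import Mathlib
import Pool.Agent.Helper802.Next

set_option autoImplicit false

open scoped Manifold ContDiff Topology
open Set Filter

noncomputable section

namespace Pool.Agent.Helper802

theorem exists_next (W : ℕ → Set (T3 ≃ₘ⟮I3, I3⟯ T3)) (hW : ∀ n, W n ∈ 𝓝 (1 : T3 ≃ₘ⟮I3, I3⟯ T3))
    (n : ℕ) (s : Stage) : ∃ s' : Stage, Next W n s s' := by
  have hGc : Continuous s.G := s.hG.continuous
  have hUc : Continuous s.U := s.hU.continuous
  -- constants
  set κ : ℝ := 1 / (2 * (n + 1)) with hκ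
  have hκ0 : 0 < κ := by positivity
  have hHu : UniformContinuous (Hmap s.G s.U) :=
    CompactSpace.uniformContinuous_of_continuous (Hmap_continuous hGc hUc)
  obtain ⟨δ₁, hδ₁, hH⟩ := Metric.uniformContinuous_iff.1 hHu κ hκ0
  obtain ⟨L, M, hLo, hMe, hQL, hQM, hdense⟩ :=
    hmap_dense (δ₁ / 2) (half_pos hδ₁) s.Q s.hQ s.hQo s.N
  have hhu : UniformContinuous (hmap L M s.N) :=
    CompactSpace.uniformContinuous_of_continuous (hmap_continuous L M s.N)
  obtain ⟨δ₂, hδ₂, hh⟩ := Metric.uniformContinuous_iff.1 hhu (δ₁ / 2) (half_pos hδ₁)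
  set G₁ := G' s.G L with hG₁
  set U₁ := U' s.G s.U L M s.N with hU₁
  have sG₁ : Smooth1 G₁ := G'_smooth s.hG L
  have sU₁ : Smooth2 U₁ := U'_smooth s.hG s.hU L M s.N
  have htL : e s.t ^ L = 1 := by
    obtain ⟨c, rfl⟩ := hQL; rw [pow_mul, s.ht, one_pow]
  have htM : e s.t ^ M = 1 := by
    obtain ⟨c, rfl⟩ := hQM; rw [pow_mul, s.ht, one_pow]
  have haEq : aFun G₁ s.t = aFun s.G s.t := aFun_G' s.G L s.t htL
  have hbEq : bFun G₁ U₁ s.t = bFun s.G s.U s.t := bFun_U' s.G s.U L M s.N s.t htL htM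
  have hfEq : fMap G₁ U₁ s.t = fMap s.G s.U s.t := by
    simp only [fMap, haEq, hbEq]
  -- choose t'
  have hpow : (0 : ℝ) < (1 / 2) ^ n := by positivity
  have ev1 := aFun_small sG₁ s.t n ((1 / 2) ^ n) hpow
  have ev2 := bFun_small sG₁ sU₁ s.t n ((1 / 2) ^ n) hpow
  have ev3 := fMap_small sG₁ sU₁ s.t (s.η / 2) (half_pos s.hη)
  have ev4 : ∀ᶠ t in 𝓝 s.t, |t - s.t| ≤ (1 / 2) ^ n := by
    have : Metric.closedBall s.t ((1 / 2 : ℝ) ^ n) ∈ 𝓝 s.t := Metric.closedBall_mem_nhds _ hpow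
    filter_upwards [this] with t ht
    rwa [Metric.mem_closedBall, Real.dist_eq] at ht
  have hQpos : (0 : ℝ) < s.Q := by exact_mod_cast s.hQ
  have htend : Tendsto (fun j : ℕ => s.t + 1 / ((s.Q : ℝ) * ((2 * j + 1 : ℕ) : ℝ))) atTop
      (𝓝 s.t) := by
    have h1 : Tendsto (fun j : ℕ => ((2 * j + 1 : ℕ) : ℝ)) atTop atTop := by
      apply tendsto_natCast_atTop_atTop.comp
      exact tendsto_atTop_mono (fun j => by simp only [id]; omega) tendsto_id
    have h2 : Tendsto (fun j : ℕ => (s.Q : ℝ) * ((2 * j + 1 : ℕ) : ℝ)) atTop atTop :=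
      h1.const_mul_atTop hQpos
    have h3 := h2.inv_tendsto_atTop
    have h4 := h3.const_add s.t
    rw [add_zero] at h4
    refine h4.congr fun j => ?_
    simp only [Pi.inv_apply, one_div]
  obtain ⟨j₀, hj₀⟩ := exists_nat_gt (2 * Real.pi / δ₂)
  have evj := (htend.eventually (ev1.and (ev2.and (ev3.and ev4)))).and (eventually_ge_atTop j₀)
  obtain ⟨j, ⟨hj1, hj2, hj3, hj4⟩, hjj⟩ := evj.exists
  set R := 2 * j + 1 with hR
  have hR0 : 0 < R := by omega
  have hRpos : (0 : ℝ) < R := by exact_mod_cast hR0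
  set t' : ℝ := s.t + 1 / ((s.Q : ℝ) * (R : ℝ)) with ht'
  have hRδ : 2 * Real.pi / R < δ₂ := by
    rw [div_lt_iff₀ hRpos]
    rw [div_lt_iff₀ hδ₂] at hj₀
    have h1 : (j₀ : ℝ) ≤ R := by
      have : j₀ ≤ R := by omega
      exact_mod_cast this
    nlinarith
  -- choose N'
  have evβ1 : ∀ᶠ β in 𝓝 (0 : ℝ), rot U₁ sU₁ β ∈ W n := by
    have hc := (continuous_rot U₁ sU₁).tendsto 0
    rw [rot_zero] at hc
    exact hc (hW n)
  have evβ2 := U_small sU₁ (1 / 16) (by norm_num)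
  obtain ⟨δ₃, hδ₃, hβ⟩ := Metric.eventually_nhds_iff.1 (evβ1.and evβ2)
  obtain ⟨k, hk⟩ := exists_nat_gt (1 / δ₃)
  have hk0 : 0 < k := by
    rcases Nat.eq_zero_or_pos k with h | h
    · rw [h] at hk
      have : (0 : ℝ) < 1 / δ₃ := by positivity
      simp only [Nat.cast_zero] at hk
      linarith
    · exact h
  set N' := 4 * s.N * k with hN'
  have hN'0 : 0 < N' := by
    have := s.hN
    positivity
  have hN'pos : (0 : ℝ) < N' := by exact_mod_cast hN'0
  have hN'k : (k : ℝ) ≤ N' := by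
    have : k ≤ N' := by
      rw [hN']
      have := s.hN
      nlinarith
    exact_mod_cast this
  have hN'δ : 1 / (N' : ℝ) < δ₃ := by
    rw [div_lt_iff₀ hN'pos]
    rw [div_lt_iff₀ hδ₃] at hk
    nlinarith
  -- density of the orbit
  set y₀ : T3 := (1, 1, 1) with hy₀
  have hf'c : Continuous (fMap G₁ U₁ t') := by
    have := fMap_joint_continuous sG₁ sU₁
    exact this.comp (continuous_const.prodMk continuous_id)
  have horbit : ∀ y, ∃ m : ℕ, dist ((fMap G₁ U₁ t')^[m] y₀) y < κ := by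
    intro y
    obtain ⟨w₀, hw₀⟩ : ∃ w₀, Hmap G₁ U₁ w₀ = y₀ := ⟨_, Hmap_surj G₁ U₁ y₀⟩
    obtain ⟨w₁, hw₁⟩ : ∃ w₁, Hmap s.G s.U w₁ = y := ⟨_, Hmap_surj s.G s.U y⟩
    obtain ⟨x, hx⟩ := hdense w₀.2.1 w₀.2.2 w₁
    obtain ⟨m, hm⟩ := orbit_dense s.t s.Q s.hQ s.ht R hR0 δ₂ hRδ (w₀.1⁻¹ * x)
    refine ⟨m, ?_⟩
    rw [← hw₀, fMap_iter, hG₁, hU₁, Hmap_hmap, ← hw₁]
    apply hH
    have h1 : dist (w₀.1 * e t' ^ m) x < δ₂ := by
      have : x = w₀.1 * (w₀.1⁻¹ * x) := by simp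
      rw [this, dist_mul_left']
      exact hm
    have h2 : dist ((w₀.1 * e t' ^ m, w₀.2) : T3) (x, w₀.2.1, w₀.2.2) < δ₂ := by
      rw [Prod.dist_eq]
      simp only [Prod.mk.eta, dist_self]
      exact max_lt h1 hδ₂
    have h3 := hh h2
    calc dist (hmap L M s.N (w₀.1 * e t' ^ m, w₀.2)) w₁
        ≤ dist (hmap L M s.N (w₀.1 * e t' ^ m, w₀.2)) (hmap L M s.N (x, w₀.2.1, w₀.2.2)) +
          dist (hmap L M s.N (x, w₀.2.1, w₀.2.2)) w₁ := dist_triangle _ _ _
      _ < δ₁ / 2 + δ₁ / 2 := add_lt_add h3 hx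
      _ = δ₁ := by ring
  obtain ⟨δ₄, hδ₄, hrob⟩ := robust_dense (fMap G₁ U₁ t') hf'c y₀ κ hκ0 horbit
  -- the new stage
  refine ⟨{
    G := G₁
    U := U₁
    hG := sG₁
    hU := sU₁
    symG := G'_sym s.symG L hLo
    symU := U'_sym s.symG s.symU L M s.N hLo hMe
    t := t'
    Q := s.Q * R
    N := N'
    η := min δ₄ (s.η / 2)
    hQ := Nat.mul_pos s.hQ hR0
    hQo := s.hQo.mul ⟨j, rfl⟩
    hN := hN'0
    hη := lt_min hδ₄ (half_pos s.hη)
    ht := by
      rw [ht', e_add, mul_pow, pow_mul, s.ht, one_pow, one_mul, ← e_nat_mul]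
      have : ((s.Q * R : ℕ) : ℝ) * (1 / ((s.Q : ℝ) * (R : ℝ))) = 1 := by
        push_cast; field_simp
      rw [this, e_one]
    hNs := by
      intro β hβ' x p
      apply (hβ _).2
      rw [Real.dist_eq, sub_zero]
      exact hβ'.trans_lt hN'δ }, ?_⟩
  exact {
    dvd := ⟨k, rfl⟩
    compat := fun x p => U'_compat s.G s.U L M s.N s.hN x p
    near_one := by
      apply (hβ _).1
      rw [Real.dist_eq, sub_zero, abs_of_pos (by positivity)]
      exact hN'δ
    wild := wild_step s.G s.U L M s.N s.hN s.hNs sU₁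
    close_t := hj4
    close_a := by
      intro k hk r
      simp only [← haEq]
      exact hj1 k hk r
    close_b := by
      intro k hk r
      simp only [← hbEq]
      exact hj2 k hk r
    close_f := by
      intro y
      simp only [Stage.f]
      rw [← hfEq]
      exact hj3 y
    eta := min_le_right _ _
    dense := by
      intro F hF y
      have h1 := hrob F (fun y => (hF y).trans (min_le_left _ _)) y
      have h2 : 2 * κ = 1 / ((n : ℝ) + 1) := by
        rw [hκ]; field_simp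
      rw [h2] at h1
      exact h1 }

end Pool.Agent.Helper802
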