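import Mathlib
import Pool.Agent.Helper802.ExistsNext
import Pool.Agent.Helper802.AbsGroup

set_option autoImplicit false

open scoped Manifold ContDiff Topology
open Set Filter

noncomputable section

namespace Pool.Agent.Helper802

/-- The model space of the torus. -/
abbrev H3 : Type := ModelProd (EuclideanSpace ℝ (Fin 1))
  (ModelProd (EuclideanSpace ℝ (Fin 1)) (EuclideanSpace ℝ (Fin 1)))

instance : SecondCountableTopology H3 :=
  inferInstanceAs (SecondCountableTopology
    (EuclideanSpace ℝ (Fin 1) × EuclideanSpace ℝ (Fin 1) × EuclideanSpace ℝ (Fin 1)))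

instance : LocallyConnectedSpace H3 :=
  inferInstanceAs (LocallyConnectedSpace
    (EuclideanSpace ℝ (Fin 1) × EuclideanSpace ℝ (Fin 1) × EuclideanSpace ℝ (Fin 1)))

instance : SecondCountableTopology (T3 ≃ₘ⟮I3, I3⟯ T3) := diff_sc

instance : IsTopologicalGroup (T3 ≃ₘ⟮I3, I3⟯ T3) := diffTopGroup

/-- The initial stage. -/
def stage0 : Stage where
  G := fun _ => 0
  U := fun _ => 0
  hG := contMDiff_const
  hU := contMDiff_const
  symG := fun _ => by simp
  symU := fun _ _ => rfl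
  t := 0
  Q := 1
  N := 1
  η := 1
  hQ := one_pos
  hQo := odd_one
  hN := one_pos
  hη := one_pos
  ht := by simp [e_zero]
  hNs := fun _ _ _ _ => by norm_num

/-- The stage map as a diffeomorphism. -/
def Stage.fD (s : Stage) : T3 ≃ₘ⟮I3, I3⟯ T3 :=
  skewDiff (e s.t) (aFun s.G s.t) (bFun s.G s.U s.t)
    (by
      have h1 : ContMDiff (𝓡 1) (𝓡 1) ∞ (fun x : Circle => x * e s.t) :=
        smooth_mul contMDiff_id contMDiff_const
      exact (s.hG.comp h1).sub s.hG)
    (by
      have h1 : ContMDiff (𝓡 1) (𝓡 1) ∞ (fun x : Circle => x * e s.t) :=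
        smooth_mul contMDiff_id contMDiff_const
      have ha : Smooth1 (aFun s.G s.t) := (s.hG.comp h1).sub s.hG
      have p1 : ContMDiff ((𝓡 1).prod (𝓡 1)) (𝓡 1) ∞ (fun y : Circle × Circle => y.1) :=
        contMDiff_fst
      have p2 : ContMDiff ((𝓡 1).prod (𝓡 1)) (𝓡 1) ∞ (fun y : Circle × Circle => y.2) :=
        contMDiff_snd
      exact (s.hU.comp ((h1.comp p1).prodMk (smooth_mul p2 (smooth_e (ha.comp p1))))).sub s.hU)

theorem Stage.fD_apply (s : Stage) (y : T3) : s.fD y = s.f y := rfl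

/-- The generator at a stage. -/
def Stage.γ (s : Stage) : T3 ≃ₘ⟮I3, I3⟯ T3 := rot s.U s.hU (1 / s.N)

theorem Stage.commute (s : Stage) : Commute s.γ s.fD := by
  apply Diffeomorph.ext
  intro y
  rw [diff_mul_apply, diff_mul_apply, Stage.fD_apply, Stage.fD_apply]
  exact (fMap_rot s.G s.U s.hU s.t _ y).symm

theorem Stage.commute_sigma (s : Stage) : Commute sigmaDiff s.fD := by
  apply Diffeomorph.ext
  intro y
  exact (fMap_sigma s.G s.U s.t s.symG s.symU y).symm

theorem Stage.γ_pow (s : Stage) : s.γ ^ s.N = 1 := by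
  rw [Stage.γ, ← rot_nat_mul]
  have hN : (0 : ℝ) < s.N := by exact_mod_cast s.hN
  rw [mul_one_div_cancel hN.ne', rot_one]

variable {W : ℕ → Set (T3 ≃ₘ⟮I3, I3⟯ T3)}

theorem Next.rot_eq {n : ℕ} {s s' : Stage} (h : Next W n s s') :
    s.γ = rot s'.U s'.hU (1 / s.N) := by
  apply Diffeomorph.ext
  rintro ⟨x, p, z⟩
  rw [Stage.γ, rot_apply, rot_apply, h.compat]

theorem Next.mem_zpowers {n : ℕ} {s s' : Stage} (_h : Next W n s s') (k : ℕ) (hk : 0 < k)
    (hkd : k ∣ s'.N) : rot s'.U s'.hU (1 / k) ∈ Subgroup.zpowers s'.γ := by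
  obtain ⟨c, hc⟩ := hkd
  rw [Subgroup.mem_zpowers_iff]
  refine ⟨(c : ℤ), ?_⟩
  rw [zpow_natCast, Stage.γ, ← rot_nat_mul]
  congr 1
  have hkpos : (0 : ℝ) < k := by exact_mod_cast hk
  have hNpos : (0 : ℝ) < s'.N := by exact_mod_cast s'.hN
  have hc' : (s'.N : ℝ) = k * c := by rw [hc]; push_cast; ring
  rw [hc'] at hNpos ⊢
  have hcpos : (0 : ℝ) < c := by
    by_contra hcon
    have : (c : ℝ) ≤ 0 := not_lt.1 hcon
    nlinarith
  field_simp

/-- Main theorem: a transitive diffeomorphism of the three-torus whose centralizer has no locally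
compact quotient by a closed central subgroup. -/
theorem main_theorem : ∃ f : T3 ≃ₘ⟮I3, I3⟯ T3, IsTransitive f ∧
    ¬ IsCentralExtensionOfLieGroup (Subgroup.centralizer {f}) := by
  -- neighbourhood basis
  obtain ⟨W, hWb⟩ := (𝓝 (1 : T3 ≃ₘ⟮I3, I3⟯ T3)).exists_antitone_basis
  have hW : ∀ n, W n ∈ 𝓝 (1 : T3 ≃ₘ⟮I3, I3⟯ T3) := fun n => hWb.toHasBasis.mem_of_mem trivial
  choose nxt hnxt using exists_next W hW
  let s : ℕ → Stage := fun n => Nat.rec stage0 (fun n s => nxt n s) n
  have hs : ∀ n, Next W n (s n) (s (n + 1)) := fun n => hnxt n (s n)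
  clear_value s
  -- limits
  have hgeo : Summable fun n : ℕ => ((1 : ℝ) / 2) ^ n := summable_geometric_two
  obtain ⟨t, ht⟩ : ∃ t, Tendsto (fun n => (s n).t) atTop (𝓝 t) := by
    apply cauchySeq_tendsto_of_complete
    apply cauchySeq_of_summable_dist
    refine Summable.of_nonneg_of_le (fun n => dist_nonneg) (fun n => ?_) hgeo
    rw [dist_comm, Real.dist_eq]
    exact (hs n).close_t
  obtain ⟨A, hA, hAt⟩ := exists_smooth_limit (fun n (r : ℝ) => aFun (s n).G (s n).t (e r))
    (fun n => aFun_lift_smooth (s n).hG _ _ contDiff_const contDiff_id)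
    (fun n k hk y => (hs n).close_a k hk y)
  obtain ⟨B, hB, hBt⟩ := exists_smooth_limit
    (fun n (r : ℝ × ℝ) => bFun (s n).G (s n).U (s n).t (e r.1, e r.2))
    (fun n => bFun_lift_smooth (s n).hG (s n).hU _ _ _ contDiff_const contDiff_fst contDiff_snd)
    (fun n k hk y => (hs n).close_b k hk y)
  have ha_ex : ∀ x : Circle, ∃ l, Tendsto (fun n => aFun (s n).G (s n).t x) atTop (𝓝 l) := by
    intro x
    obtain ⟨r, rfl⟩ := e_surj x
    exact ⟨_, hAt r⟩
  have hb_ex : ∀ y : Circle × Circle,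
      ∃ l, Tendsto (fun n => bFun (s n).G (s n).U (s n).t y) atTop (𝓝 l) := by
    rintro ⟨x, p⟩
    obtain ⟨r, rfl⟩ := e_surj x
    obtain ⟨q, rfl⟩ := e_surj p
    exact ⟨_, hBt (r, q)⟩
  choose a ha using ha_ex
  choose b hb using hb_ex
  have hsa : Smooth1 a := by
    apply smooth1_of_lift
    have : (fun r : ℝ => a (e r)) = A := by
      funext r
      exact tendsto_nhds_unique (ha (e r)) (hAt r)
    rw [this]; exact hA
  have hsb : Smooth2 b := by
    apply smooth2_of_lift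
    have : (fun r : ℝ × ℝ => b (e r.1, e r.2)) = B := by
      funext r
      exact tendsto_nhds_unique (hb (e r.1, e r.2)) (hBt r)
    rw [this]; exact hB
  set f : T3 ≃ₘ⟮I3, I3⟯ T3 := skewDiff (e t) a b hsa hsb with hf
  have hlim : ∀ y, Tendsto (fun n => (s n).fD y) atTop (𝓝 (f y)) := by
    rintro ⟨x, p, z⟩
    have h1 : Tendsto (fun n => e (s n).t) atTop (𝓝 (e t)) :=
      (continuous_e.tendsto t).comp ht
    have h2 : Tendsto (fun n => e (aFun (s n).G (s n).t x)) atTop (𝓝 (e (a x))) :=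
      (continuous_e.tendsto _).comp (ha x)
    have h3 : Tendsto (fun n => e (bFun (s n).G (s n).U (s n).t (x, p))) atTop
        (𝓝 (e (b (x, p)))) := (continuous_e.tendsto _).comp (hb (x, p))
    exact (h1.const_mul x).prodMk_nhds ((h2.const_mul p).prodMk_nhds (h3.const_mul z))
  -- distance estimates
  have hdist : ∀ n y, dist (f y) ((s n).f y) ≤ (s n).η := by
    intro n y
    have hk : ∀ k, dist ((s (n + k)).f y) ((s n).f y) ≤ (s n).η - (s (n + k)).η := by
      intro k
      induction k with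
      | zero => simp
      | succ k ih =>
        have h1 := (hs (n + k)).close_f y
        have h2 := (hs (n + k)).eta
        have h3 := dist_triangle ((s (n + (k + 1))).f y) ((s (n + k)).f y) ((s n).f y)
        have h4 : n + (k + 1) = n + k + 1 := rfl
        rw [h4] at h3 ⊢
        linarith
    have hk' : ∀ k, dist ((s (n + k)).fD y) ((s n).f y) ≤ (s n).η := fun k =>
      (hk k).trans (by linarith [(s (n + k)).hη])
    have hl : Tendsto (fun k => (s (n + k)).fD y) atTop (𝓝 (f y)) :=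
      (hlim y).comp (tendsto_atTop_mono (fun k => Nat.le_add_left k n) tendsto_id)
    exact le_of_tendsto (hl.dist tendsto_const_nhds) (Eventually.of_forall hk')
  -- transitivity
  have hpow : ∀ (m : ℕ) (y : T3), (f ^ m) y = f^[m] y := by
    intro m
    induction m with
    | zero => intro y; rfl
    | succ m ih =>
      intro y
      rw [pow_succ, diff_mul_apply, ih, Function.iterate_succ_apply]
  have htrans : IsTransitive f := by
    refine ⟨(1, 1, 1), ?_⟩
    rw [Metric.dense_iff]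
    intro y r hr
    obtain ⟨n, hn⟩ := exists_nat_one_div_lt hr
    obtain ⟨m, hm⟩ := (hs n).dense f (fun y => hdist (n + 1) y) y
    refine ⟨(f ^ (m : ℤ)) (1, 1, 1), ?_, ⟨(m : ℤ), rfl⟩⟩
    rw [Metric.mem_ball, zpow_natCast, hpow]
    exact hm.trans hn
  -- generators
  have hγinc : ∀ n, (s n).γ ∈ Subgroup.zpowers (s (n + 1)).γ := by
    intro n
    rw [(hs n).rot_eq]
    exact (hs n).mem_zpowers _ (s n).hN ((dvd_mul_left _ _).trans (hs n).dvd)
  have hmono : Monotone fun n => Subgroup.zpowers (s n).γ := by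
    apply monotone_nat_of_le_succ
    intro n
    rw [Subgroup.zpowers_le]
    exact hγinc n
  have hcomm_n : ∀ m n, m ≤ n → Commute (s m).γ (s n).fD := by
    intro m n hmn
    have h1 : (s m).γ ∈ Subgroup.zpowers (s n).γ := hmono hmn (Subgroup.mem_zpowers _)
    obtain ⟨k, hk⟩ := Subgroup.mem_zpowers_iff.1 h1
    rw [← hk]
    exact (s n).commute.zpow_left k
  -- passing to the limit
  have hpass : ∀ g : T3 ≃ₘ⟮I3, I3⟯ T3, (∀ᶠ n in atTop, Commute g (s n).fD) → Commute g f := by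
    intro g hg
    apply Diffeomorph.ext
    intro y
    rw [diff_mul_apply, diff_mul_apply]
    have h1 : Tendsto (fun n => g ((s n).fD y)) atTop (𝓝 (g (f y))) :=
      (g.continuous.tendsto _).comp (hlim y)
    have h2 : Tendsto (fun n => (s n).fD (g y)) atTop (𝓝 (f (g y))) := hlim (g y)
    refine tendsto_nhds_unique h1 (h2.congr' ?_)
    filter_upwards [hg] with n hn
    have := congrArg (fun F : T3 ≃ₘ⟮I3, I3⟯ T3 => F y) hn.eq
    exact this.symm
  have hγf : ∀ m, Commute (s m).γ f := fun m =>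
    hpass _ (eventually_atTop.2 ⟨m, fun n hn => hcomm_n m n hn⟩)
  have hσf : Commute sigmaDiff f := hpass _ (Eventually.of_forall fun n => (s n).commute_sigma)
  refine ⟨f, htrans, ?_⟩
  rintro ⟨A₀, hnorm, _, hcen, d, L, _, _, _, _, ⟨φ⟩⟩
  -- local compactness of the quotient
  have hLlc : LocallyCompactSpace L := ChartedSpace.locallyCompactSpace (EuclideanSpace ℝ (Fin d)) L
  have hQlc : LocallyCompactSpace (Subgroup.centralizer {f} ⧸ A₀) :=
    φ.toHomeomorph.isClosedEmbedding.locallyCompactSpace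
  have hmem : ∀ g : T3 ≃ₘ⟮I3, I3⟯ T3, Commute g f → g ∈ Subgroup.centralizer {f} := by
    intro g hg
    rw [Subgroup.mem_centralizer_singleton_iff]
    exact hg.eq
  let Γ : ℕ → Subgroup.centralizer {f} := fun n => ⟨(s n).γ, hmem _ (hγf n)⟩
  let S : Subgroup.centralizer {f} := ⟨sigmaDiff, hmem _ hσf⟩
  have hΓfin : ∀ n, Γ n ^ (s n).N = 1 := by
    intro n
    apply Subtype.ext
    exact (s n).γ_pow
  have hΓinc : ∀ n, Γ n ∈ Subgroup.zpowers (Γ (n + 1)) := by
    intro n
    obtain ⟨k, hk⟩ := Subgroup.mem_zpowers_iff.1 (hγinc n)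
    refine Subgroup.mem_zpowers_iff.2 ⟨k, ?_⟩
    apply Subtype.ext
    simpa using hk
  have hγlim : Tendsto (fun n => (s n).γ) atTop (𝓝 1) := by
    rw [← tendsto_add_atTop_iff_nat 1]
    exact hWb.tendsto (fun n => (hs n).near_one)
  have hΓlim : Tendsto Γ atTop (𝓝 1) := by
    rw [nhds_subtype_eq_comap, tendsto_comap_iff]
    exact hγlim
  obtain ⟨K, hKc, hK⟩ := commutators_relcompact A₀ hcen Γ (fun n => (s n).N) (fun n => (s n).hN)
    hΓfin hΓinc hΓlim S
  -- the wild elements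
  let u : ℕ → T3 ≃ₘ⟮I3, I3⟯ T3 := fun n => rot (s (n + 1)).U (s (n + 1)).hU (1 / (2 * (s n).N))
  have huK : ∀ n, toCM (u n) ∈ (fun g : Subgroup.centralizer {f} =>
      toCM (g : T3 ≃ₘ⟮I3, I3⟯ T3)) '' K := by
    intro n
    -- g = rot (1 / (4 N))
    have h4N : 0 < 4 * (s n).N := by have := (s n).hN; omega
    have hg := (hs n).mem_zpowers (4 * (s n).N) h4N (hs n).dvd
    obtain ⟨k, hk⟩ := Subgroup.mem_zpowers_iff.1 hg
    have hgK := hK (n + 1) (Γ (n + 1) ^ k) (Subgroup.zpow_mem_zpowers _ _)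
    refine ⟨_, hgK, ?_⟩
    have hcoe : ((Γ (n + 1) ^ k * S * (Γ (n + 1) ^ k)⁻¹ * S⁻¹ : Subgroup.centralizer {f}) :
        T3 ≃ₘ⟮I3, I3⟯ T3) = (s (n + 1)).γ ^ k * sigmaDiff * ((s (n + 1)).γ ^ k)⁻¹ * sigmaDiff⁻¹ := by
      simp [Γ, S]
    simp only [hcoe, hk]
    apply congrArg toCM
    set β : ℝ := 1 / ((4 * (s n).N : ℕ) : ℝ) with hβ
    have h1 := sigma_rot (s (n + 1)).U (s (n + 1)).hU (s (n + 1)).symU β
    have h2 : sigmaDiff * (rot (s (n + 1)).U (s (n + 1)).hU β)⁻¹ * sigmaDiff⁻¹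
        = rot (s (n + 1)).U (s (n + 1)).hU β := by
      have := congrArg (fun g => g⁻¹) h1
      simp only [mul_inv_rev, inv_inv] at this
      rw [mul_assoc]
      exact this
    calc rot (s (n + 1)).U (s (n + 1)).hU β * sigmaDiff *
          (rot (s (n + 1)).U (s (n + 1)).hU β)⁻¹ * sigmaDiff⁻¹
        = rot (s (n + 1)).U (s (n + 1)).hU β * (sigmaDiff *
          (rot (s (n + 1)).U (s (n + 1)).hU β)⁻¹ * sigmaDiff⁻¹) := by simp only [mul_assoc]
      _ = rot (s (n + 1)).U (s (n + 1)).hU β * rot (s (n + 1)).U (s (n + 1)).hU β := by rw [h2]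
      _ = rot (s (n + 1)).U (s (n + 1)).hU (β + β) := (rot_add _ _ _ _).symm
      _ = u n := by
        simp only [u]
        congr 1
        rw [hβ]
        have hNpos : (0 : ℝ) < (s n).N := by exact_mod_cast (s n).hN
        push_cast
        field_simp
        norm_num
  have hK'c : IsCompact ((fun g : Subgroup.centralizer {f} =>
      toCM (g : T3 ≃ₘ⟮I3, I3⟯ T3)) '' K) :=
    hKc.image (continuous_toCM.comp continuous_subtype_val)
  obtain ⟨h, _, ψ, hψ, hψt⟩ := hK'c.tendsto_subseq huK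
  -- growth of N
  have hNgrow : ∀ n, n + 1 ≤ (s n).N := by
    intro n
    induction n with
    | zero => have := (s 0).hN; omega
    | succ n ih =>
      have := Nat.le_of_dvd (s (n + 1)).hN (hs n).dvd
      omega
  have hhu : UniformContinuous h := CompactSpace.uniformContinuous_of_continuous h.continuous
  obtain ⟨δ, hδ, hδ'⟩ := Metric.uniformContinuous_iff.1 hhu (1 / 4) (by norm_num)
  have hev1 : ∀ᶠ n in atTop, dist (toCM (u (ψ n))) h < 1 / 4 :=
    (Metric.tendsto_nhds.1 hψt) (1 / 4) (by norm_num)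
  obtain ⟨n₀, hn₀⟩ := exists_nat_gt (2 / δ)
  obtain ⟨n, hn1, hn2⟩ := (hev1.and (eventually_ge_atTop n₀)).exists
  obtain ⟨y, y', hyy, hwild⟩ := (hs (ψ n)).wild
  have hNpos : (0 : ℝ) < (s (ψ n)).N := by exact_mod_cast (s (ψ n)).hN
  have hyδ : dist y y' < δ := by
    refine hyy.trans_lt ?_
    rw [div_lt_iff₀ hNpos]
    rw [div_lt_iff₀ hδ] at hn₀
    have h1 : n₀ ≤ (s (ψ n)).N := by
      have := hNgrow (ψ n)
      have := hψ.id_le n
      simp only [id] at this
      omega
    have h2 : (n₀ : ℝ) ≤ (s (ψ n)).N := by exact_mod_cast h1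
    nlinarith
  have h1 : dist (h y) (h y') < 1 / 4 := hδ' hyδ
  have h2 : dist (toCM (u (ψ n)) y) (h y) < 1 / 4 :=
    (ContinuousMap.dist_apply_le_dist y).trans_lt hn1
  have h3 : dist (toCM (u (ψ n)) y') (h y') < 1 / 4 :=
    (ContinuousMap.dist_apply_le_dist y').trans_lt hn1
  have h4 : 1 ≤ dist (toCM (u (ψ n)) y) (toCM (u (ψ n)) y') := hwild
  have h5 := dist_triangle4 (toCM (u (ψ n)) y) (h y) (h y') (toCM (u (ψ n)) y')
  rw [dist_comm (h y')] at h5
  linarith

end Pool.Agent.Helper802
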