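import Mathlib

set_option autoImplicit false

open Real Set Filter
open scoped Topology ContDiff

noncomputable section

namespace Pool.Agent.Helper802.Mob

/-! Explicit lifts of projective maps of the circle. -/

def wE (t e x : ℝ) : ℝ :=
  (t * cos (π * x) ^ 2 + e * sin (π * x) ^ 2) /
    (1 + (t - e) * (sin (π * x) * cos (π * x)))

/-- the lift of the projective map with matrix `[1, -e; t, 1]` -/
def E (t e x : ℝ) : ℝ := x + arctan (wE t e x) / π

def vB (l x : ℝ) : ℝ :=
  ((l - 1) * (sin (π * x) * cos (π * x))) / (cos (π * x) ^ 2 + l * sin (π * x) ^ 2)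

/-- the lift of the projective map with matrix `diag (1, l)` -/
def B (l x : ℝ) : ℝ := x + arctan (vB l x) / π

theorem wE_add_one (t e x : ℝ) : wE t e (x + 1) = wE t e x := by
  have h1 : π * (x + 1) = π * x + π := by ring
  simp only [wE, h1, cos_add_pi, sin_add_pi]
  ring_nf

theorem vB_add_one (l x : ℝ) : vB l (x + 1) = vB l x := by
  have h1 : π * (x + 1) = π * x + π := by ring
  simp only [vB, h1, cos_add_pi, sin_add_pi]
  ring_nf

theorem E_add_one (t e x : ℝ) : E t e (x + 1) = E t e x + 1 := by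
  simp only [E, wE_add_one]; ring

theorem B_add_one (l x : ℝ) : B l (x + 1) = B l x + 1 := by
  simp only [B, vB_add_one]; ring

theorem cosarc (z : ℝ) : cos (arctan z) ^ 2 * (1 + z ^ 2) = 1 := by
  rw [Real.cos_sq_arctan]
  have : (1 + z ^ 2) ≠ 0 := by positivity
  field_simp

theorem sinarc (z : ℝ) : sin (arctan z) = z * cos (arctan z) := by
  have h := Real.tan_arctan z
  rw [tan_eq_sin_div_cos] at h
  have h2 : cos (arctan z) ≠ 0 := (Real.cos_arctan_pos z).ne'
  field_simp at h
  linarith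

theorem shift_cos_sq (x z : ℝ) : cos (π * (x + arctan z / π)) ^ 2 * (1 + z ^ 2)
    = (cos (π * x) - sin (π * x) * z) ^ 2 := by
  have h0 : π * (x + arctan z / π) = π * x + arctan z := by field_simp
  rw [h0, cos_add, sinarc]
  linear_combination (cos (π * x) - sin (π * x) * z) ^ 2 * cosarc z

theorem shift_sin_sq (x z : ℝ) : sin (π * (x + arctan z / π)) ^ 2 * (1 + z ^ 2)
    = (sin (π * x) + cos (π * x) * z) ^ 2 := by
  have h0 : π * (x + arctan z / π) = π * x + arctan z := by field_simp
  rw [h0, sin_add, sinarc]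
  linear_combination (sin (π * x) + cos (π * x) * z) ^ 2 * cosarc z

theorem shift_sincos (x z : ℝ) : (sin (π * (x + arctan z / π)) * cos (π * (x + arctan z / π)))
      * (1 + z ^ 2)
    = (sin (π * x) + cos (π * x) * z) * (cos (π * x) - sin (π * x) * z) := by
  have h0 : π * (x + arctan z / π) = π * x + arctan z := by field_simp
  rw [h0, sin_add, cos_add, sinarc]
  linear_combination (sin (π * x) + cos (π * x) * z) * (cos (π * x) - sin (π * x) * z) * cosarc z

theorem sc_bound (y : ℝ) : |sin y * cos y| ≤ 1 / 2 := by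
  have h := sin_sq_add_cos_sq y
  rw [abs_le]
  constructor <;> nlinarith [sq_nonneg (sin y + cos y), sq_nonneg (sin y - cos y)]

theorem den_pos {t e : ℝ} (ht : |t| < 1) (he : |e| < 1) (y : ℝ) :
    0 < 1 + (t - e) * (sin y * cos y) := by
  have h1 := sc_bound y
  have h2 : |t - e| < 2 := by
    have := abs_sub t e
    linarith
  have h3 : |(t - e) * (sin y * cos y)| < 1 := by
    rw [abs_mul]
    have h4 : 0 ≤ |sin y * cos y| := abs_nonneg _
    nlinarith [abs_nonneg (t - e)]
  have := (abs_lt.1 h3).1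
  linarith

theorem denB_pos {l : ℝ} (hl : 0 < l) (y : ℝ) : 0 < cos y ^ 2 + l * sin y ^ 2 := by
  have h := sin_sq_add_cos_sq y
  rcases le_or_gt (sin y ^ 2) (1 / 2) with h1 | h1
  · nlinarith [mul_nonneg hl.le (sq_nonneg (sin y))]
  · nlinarith [sq_nonneg (cos y)]

theorem te_pos {t e : ℝ} (ht : |t| < 1) (he : |e| < 1) : 0 < 1 + t * e := by
  have : |t * e| < 1 := by
    rw [abs_mul]
    nlinarith [abs_nonneg t, abs_nonneg e]
  have := (abs_lt.1 this).1
  linarith

theorem aux1 (N D : ℝ) (hD : D ≠ 0) : (1 + (N / D) ^ 2) * D ^ 2 = D ^ 2 + N ^ 2 := by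
  field_simp

theorem aux2 (a b N D : ℝ) (hD : D ≠ 0) : (a - b * (N / D)) * D = a * D - b * N := by
  field_simp

theorem aux3 (a b N D : ℝ) (hD : D ≠ 0) : (a + b * (N / D)) * D = a * D + b * N := by
  field_simp

/-- squared length of the image vector -/
def rho (t e x : ℝ) : ℝ :=
  (cos (π * x) - e * sin (π * x)) ^ 2 + (sin (π * x) + t * cos (π * x)) ^ 2

theorem rho_eq (t e x : ℝ) : rho t e x = (1 + (t - e) * (sin (π * x) * cos (π * x))) ^ 2
    + (t * cos (π * x) ^ 2 + e * sin (π * x) ^ 2) ^ 2 := by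
  have h := sin_sq_add_cos_sq (π * x)
  rw [rho]
  generalize sin (π * x) = s at *
  generalize cos (π * x) = c at *
  linear_combination (1 - t ^ 2 * c ^ 2 - e ^ 2 * s ^ 2) * h

theorem rho_pos {t e : ℝ} (ht : |t| < 1) (he : |e| < 1) (x : ℝ) : 0 < rho t e x := by
  rw [rho_eq]
  have := den_pos ht he (π * x)
  positivity

theorem E_cos_sq {t e : ℝ} (ht : |t| < 1) (he : |e| < 1) (x : ℝ) :
    cos (π * E t e x) ^ 2 = (cos (π * x) - e * sin (π * x)) ^ 2 / rho t e x := by
  have h1 := shift_cos_sq x (wE t e x)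
  have hD := den_pos ht he (π * x)
  have hr := rho_pos ht he x
  have h := sin_sq_add_cos_sq (π * x)
  rw [eq_div_iff hr.ne', E]
  have h2 : (1 + wE t e x ^ 2) * (1 + (t - e) * (sin (π * x) * cos (π * x))) ^ 2 = rho t e x := by
    rw [rho_eq, wE, aux1 _ _ hD.ne']
  have h3 : (cos (π * x) - sin (π * x) * wE t e x) * (1 + (t - e) * (sin (π * x) * cos (π * x)))
      = cos (π * x) - e * sin (π * x) := by
    rw [wE, aux2 _ _ _ _ hD.ne']
    linear_combination (-e * sin (π * x)) * h
  rw [← h2, ← h3, ← mul_assoc, h1]; ring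

theorem E_sin_sq {t e : ℝ} (ht : |t| < 1) (he : |e| < 1) (x : ℝ) :
    sin (π * E t e x) ^ 2 = (sin (π * x) + t * cos (π * x)) ^ 2 / rho t e x := by
  have h1 := shift_sin_sq x (wE t e x)
  have hD := den_pos ht he (π * x)
  have hr := rho_pos ht he x
  have h := sin_sq_add_cos_sq (π * x)
  rw [eq_div_iff hr.ne', E]
  have h2 : (1 + wE t e x ^ 2) * (1 + (t - e) * (sin (π * x) * cos (π * x))) ^ 2 = rho t e x := by
    rw [rho_eq, wE, aux1 _ _ hD.ne']
  have h3 : (sin (π * x) + cos (π * x) * wE t e x) * (1 + (t - e) * (sin (π * x) * cos (π * x)))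
      = sin (π * x) + t * cos (π * x) := by
    rw [wE, aux3 _ _ _ _ hD.ne']
    linear_combination (t * cos (π * x)) * h
  rw [← h2, ← h3, ← mul_assoc, h1]; ring

theorem E_sincos {t e : ℝ} (ht : |t| < 1) (he : |e| < 1) (x : ℝ) :
    sin (π * E t e x) * cos (π * E t e x)
      = (sin (π * x) + t * cos (π * x)) * (cos (π * x) - e * sin (π * x)) / rho t e x := by
  have h1 := shift_sincos x (wE t e x)
  have hD := den_pos ht he (π * x)
  have hr := rho_pos ht he x
  have h := sin_sq_add_cos_sq (π * x)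
  rw [eq_div_iff hr.ne', E]
  have h2 : (1 + wE t e x ^ 2) * (1 + (t - e) * (sin (π * x) * cos (π * x))) ^ 2 = rho t e x := by
    rw [rho_eq, wE, aux1 _ _ hD.ne']
  have h3 : (sin (π * x) + cos (π * x) * wE t e x) * (1 + (t - e) * (sin (π * x) * cos (π * x)))
      = sin (π * x) + t * cos (π * x) := by
    rw [wE, aux3 _ _ _ _ hD.ne']
    linear_combination (t * cos (π * x)) * h
  have h4 : (cos (π * x) - sin (π * x) * wE t e x) * (1 + (t - e) * (sin (π * x) * cos (π * x)))
      = cos (π * x) - e * sin (π * x) := by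
    rw [wE, aux2 _ _ _ _ hD.ne']
    linear_combination (-e * sin (π * x)) * h
  rw [← h2, ← h3, ← h4, ← mul_assoc, h1]; ring

theorem wE_neg {t e : ℝ} (ht : |t| < 1) (he : |e| < 1) (x : ℝ) :
    wE (-t) (-e) (E t e x) = - wE t e x := by
  have hD := den_pos ht he (π * x)
  have hr := rho_pos ht he x
  have hte := te_pos ht he
  have h := sin_sq_add_cos_sq (π * x)
  have hD' := den_pos (t := -t) (e := -e) (by simpa using ht) (by simpa using he) (π * E t e x)
  rw [wE, wE, E_cos_sq ht he, E_sin_sq ht he] 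
  rw [E_sincos ht he] at hD' ⊢
  rw [← neg_div, div_eq_div_iff hD'.ne' hD.ne']
  have hr' := hr.ne'
  have key1 : -t * ((cos (π * x) - e * sin (π * x)) ^ 2) + -e * ((sin (π * x) + t * cos (π * x)) ^ 2)
      = - (1 + t * e) * (t * cos (π * x) ^ 2 + e * sin (π * x) ^ 2) := by ring
  have key2 : rho t e x + (-t - -e) * ((sin (π * x) + t * cos (π * x)) * (cos (π * x) - e * sin (π * x)))
      = (1 + t * e) * (1 + (t - e) * (sin (π * x) * cos (π * x))) := by
    rw [rho]
    generalize sin (π * x) = s at *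
    generalize cos (π * x) = c at *
    linear_combination (1 + t * e) * h
  have e1 : -t * ((cos (π * x) - e * sin (π * x)) ^ 2 / rho t e x)
        + -e * ((sin (π * x) + t * cos (π * x)) ^ 2 / rho t e x)
      = (- (1 + t * e) * (t * cos (π * x) ^ 2 + e * sin (π * x) ^ 2)) / rho t e x := by
    rw [← key1]; field_simp
  have e2 : 1 + (-t - -e) * ((sin (π * x) + t * cos (π * x)) * (cos (π * x) - e * sin (π * x)) / rho t e x)
      = ((1 + t * e) * (1 + (t - e) * (sin (π * x) * cos (π * x)))) / rho t e x := by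
    rw [← key2]; field_simp
  rw [e1, e2]
  field_simp

theorem E_neg_E {t e : ℝ} (ht : |t| < 1) (he : |e| < 1) (x : ℝ) :
    E (-t) (-e) (E t e x) = x := by
  have h : E (-t) (-e) (E t e x) = E t e x + arctan (wE (-t) (-e) (E t e x)) / π := rfl
  rw [h, wE_neg ht he, arctan_neg, E]
  ring

end Pool.Agent.Helper802.Mob
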