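import Mathlib
import Pool.Agent.Helper802.Mob

set_option autoImplicit false

open Real Set Filter
open scoped Topology ContDiff

noncomputable section

namespace Pool.Agent.Helper802.Mob

/-- squared length for `B` -/
def rhoB (l x : ℝ) : ℝ := cos (π * x) ^ 2 + l ^ 2 * sin (π * x) ^ 2

theorem rhoB_eq (l x : ℝ) : rhoB l x = (cos (π * x) ^ 2 + l * sin (π * x) ^ 2) ^ 2
    + ((l - 1) * (sin (π * x) * cos (π * x))) ^ 2 := by
  have h := sin_sq_add_cos_sq (π * x)
  rw [rhoB]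
  generalize sin (π * x) = s at *
  generalize cos (π * x) = c at *
  linear_combination (- (c ^ 2 + l ^ 2 * s ^ 2)) * h

theorem rhoB_pos {l : ℝ} (hl : 0 < l) (x : ℝ) : 0 < rhoB l x := by
  rw [rhoB_eq]
  have := denB_pos hl (π * x)
  positivity

theorem B_cos_sq {l : ℝ} (hl : 0 < l) (x : ℝ) :
    cos (π * B l x) ^ 2 = cos (π * x) ^ 2 / rhoB l x := by
  have h1 := shift_cos_sq x (vB l x)
  have hD := denB_pos hl (π * x)
  have hr := rhoB_pos hl x
  have h := sin_sq_add_cos_sq (π * x)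
  rw [eq_div_iff hr.ne', B]
  have h2 : (1 + vB l x ^ 2) * (cos (π * x) ^ 2 + l * sin (π * x) ^ 2) ^ 2 = rhoB l x := by
    rw [rhoB_eq, vB, aux1 _ _ hD.ne']
  have h3 : (cos (π * x) - sin (π * x) * vB l x) * (cos (π * x) ^ 2 + l * sin (π * x) ^ 2)
      = cos (π * x) := by
    rw [vB, aux2 _ _ _ _ hD.ne']
    linear_combination (cos (π * x)) * h
  rw [← h2, ← mul_assoc, h1, ← mul_pow, h3]

theorem B_sin_sq {l : ℝ} (hl : 0 < l) (x : ℝ) :
    sin (π * B l x) ^ 2 = l ^ 2 * sin (π * x) ^ 2 / rhoB l x := by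
  have h1 := shift_sin_sq x (vB l x)
  have hD := denB_pos hl (π * x)
  have hr := rhoB_pos hl x
  have h := sin_sq_add_cos_sq (π * x)
  rw [eq_div_iff hr.ne', B]
  have h2 : (1 + vB l x ^ 2) * (cos (π * x) ^ 2 + l * sin (π * x) ^ 2) ^ 2 = rhoB l x := by
    rw [rhoB_eq, vB, aux1 _ _ hD.ne']
  have h3 : (sin (π * x) + cos (π * x) * vB l x) * (cos (π * x) ^ 2 + l * sin (π * x) ^ 2)
      = l * sin (π * x) := by
    rw [vB, aux3 _ _ _ _ hD.ne']
    linear_combination (l * sin (π * x)) * h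
  rw [← h2, ← mul_assoc, h1, ← mul_pow, h3]; ring

theorem B_sincos {l : ℝ} (hl : 0 < l) (x : ℝ) :
    sin (π * B l x) * cos (π * B l x) = l * (sin (π * x) * cos (π * x)) / rhoB l x := by
  have h1 := shift_sincos x (vB l x)
  have hD := denB_pos hl (π * x)
  have hr := rhoB_pos hl x
  have h := sin_sq_add_cos_sq (π * x)
  rw [eq_div_iff hr.ne', B]
  have h2 : (1 + vB l x ^ 2) * (cos (π * x) ^ 2 + l * sin (π * x) ^ 2) ^ 2 = rhoB l x := by
    rw [rhoB_eq, vB, aux1 _ _ hD.ne']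
  have h3 : (sin (π * x) + cos (π * x) * vB l x) * (cos (π * x) ^ 2 + l * sin (π * x) ^ 2)
      = l * sin (π * x) := by
    rw [vB, aux3 _ _ _ _ hD.ne']
    linear_combination (l * sin (π * x)) * h
  have h4 : (cos (π * x) - sin (π * x) * vB l x) * (cos (π * x) ^ 2 + l * sin (π * x) ^ 2)
      = cos (π * x) := by
    rw [vB, aux2 _ _ _ _ hD.ne']
    linear_combination (cos (π * x)) * h
  rw [← h2, ← mul_assoc, h1]
  linear_combination (cos (π * x) - sin (π * x) * vB l x) * (cos (π * x) ^ 2 + l * sin (π * x) ^ 2) * h3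
    + (l * sin (π * x)) * h4

theorem vB_inv {l : ℝ} (hl : 0 < l) (x : ℝ) : vB l⁻¹ (B l x) = - vB l x := by
  have hD := denB_pos hl (π * x)
  have hr := rhoB_pos hl x
  have h := sin_sq_add_cos_sq (π * x)
  rw [vB, vB, B_cos_sq hl, B_sin_sq hl, B_sincos hl, rhoB]
  have hr' : cos (π * x) ^ 2 + l ^ 2 * sin (π * x) ^ 2 ≠ 0 := hr.ne'
  have hl' := hl.ne'
  have e2 : cos (π * x) ^ 2 / (cos (π * x) ^ 2 + l ^ 2 * sin (π * x) ^ 2)
      + l⁻¹ * (l ^ 2 * sin (π * x) ^ 2 / (cos (π * x) ^ 2 + l ^ 2 * sin (π * x) ^ 2))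
      = (cos (π * x) ^ 2 + l * sin (π * x) ^ 2) / (cos (π * x) ^ 2 + l ^ 2 * sin (π * x) ^ 2) := by
    field_simp
  have e1 : (l⁻¹ - 1) * (l * (sin (π * x) * cos (π * x)) / (cos (π * x) ^ 2 + l ^ 2 * sin (π * x) ^ 2))
      = ((1 - l) * (sin (π * x) * cos (π * x))) / (cos (π * x) ^ 2 + l ^ 2 * sin (π * x) ^ 2) := by
    field_simp
  rw [e1, e2, div_div_div_cancel_right₀ hr', ← neg_div]
  congr 1
  ring

theorem B_inv_B {l : ℝ} (hl : 0 < l) (x : ℝ) : B l⁻¹ (B l x) = x := by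
  have h : B l⁻¹ (B l x) = B l x + arctan (vB l⁻¹ (B l x)) / π := rfl
  rw [h, vB_inv hl, arctan_neg, B]
  ring

/-! derivatives -/

theorem hasDerivAt_pi_mul (x : ℝ) : HasDerivAt (fun x : ℝ => π * x) π x := by
  simpa using (hasDerivAt_id x).const_mul π

theorem hasDerivAt_arctan_div {N D : ℝ → ℝ} {N' D' x : ℝ} (hN : HasDerivAt N N' x)
    (hD : HasDerivAt D D' x) (h0 : 0 < D x) :
    HasDerivAt (fun x => x + arctan (N x / D x) / π)
      (1 + (N' * D x - N x * D') / (D x ^ 2 + N x ^ 2) / π) x := by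
  have h1 := (hN.div hD h0.ne').arctan
  have h2 := (hasDerivAt_id x).add (h1.div_const π)
  refine h2.congr_deriv ?_
  have : D x ^ 2 + N x ^ 2 ≠ 0 := by positivity
  have h3 : (1 + (N x / D x) ^ 2) = (D x ^ 2 + N x ^ 2) / D x ^ 2 := by field_simp
  have h0' := h0.ne'
  simp only [Pi.div_apply, h3]
  field_simp

theorem hasDerivAt_sincos (x : ℝ) :
    HasDerivAt (fun x => sin (π * x) * cos (π * x)) (π * (cos (π * x) ^ 2 - sin (π * x) ^ 2)) x := by
  have h1 := (hasDerivAt_pi_mul x).sin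
  have h2 := (hasDerivAt_pi_mul x).cos
  refine (h1.mul h2).congr_deriv ?_
  ring

theorem hasDerivAt_cossq (x : ℝ) :
    HasDerivAt (fun x => cos (π * x) ^ 2) (-(2 * π * (sin (π * x) * cos (π * x)))) x := by
  have h2 := ((hasDerivAt_pi_mul x).cos).pow 2
  refine h2.congr_deriv ?_
  ring

theorem hasDerivAt_sinsq (x : ℝ) :
    HasDerivAt (fun x => sin (π * x) ^ 2) (2 * π * (sin (π * x) * cos (π * x))) x := by
  have h2 := ((hasDerivAt_pi_mul x).sin).pow 2
  refine h2.congr_deriv ?_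
  ring

theorem hasDerivAt_E {t e : ℝ} (ht : |t| < 1) (he : |e| < 1) (x : ℝ) :
    HasDerivAt (E t e) ((1 + t * e) / rho t e x) x := by
  have h1 : HasDerivAt (fun x => t * cos (π * x) ^ 2 + e * sin (π * x) ^ 2)
      (2 * π * (e - t) * (sin (π * x) * cos (π * x))) x := by
    refine (((hasDerivAt_cossq x).const_mul t).add ((hasDerivAt_sinsq x).const_mul e)).congr_deriv ?_
    ring
  have h2 : HasDerivAt (fun x => 1 + (t - e) * (sin (π * x) * cos (π * x)))
      (π * (t - e) * (cos (π * x) ^ 2 - sin (π * x) ^ 2)) x := by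
    refine (((hasDerivAt_sincos x).const_mul (t - e)).const_add 1).congr_deriv ?_
    ring
  have hD := den_pos ht he (π * x)
  have h3 := hasDerivAt_arctan_div h1 h2 hD
  have hr := rho_pos ht he x
  refine h3.congr_deriv ?_
  rw [← rho_eq]
  have h := sin_sq_add_cos_sq (π * x)
  have hr' := hr.ne'
  field_simp
  rw [rho_eq]
  generalize sin (π * x) = s at *
  generalize cos (π * x) = c at *
  linear_combination (1 + c ^ 2 * e * t - c ^ 2 + s ^ 2 * e * t + e * t + s ^ 2 * 0 + c ^ 2) * h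
    - h

theorem hasDerivAt_B {l : ℝ} (hl : 0 < l) (x : ℝ) :
    HasDerivAt (B l) (l / rhoB l x) x := by
  have h1 : HasDerivAt (fun x => (l - 1) * (sin (π * x) * cos (π * x)))
      (π * (l - 1) * (cos (π * x) ^ 2 - sin (π * x) ^ 2)) x := by
    refine ((hasDerivAt_sincos x).const_mul (l - 1)).congr_deriv ?_
    ring
  have h2 : HasDerivAt (fun x => cos (π * x) ^ 2 + l * sin (π * x) ^ 2)
      (2 * π * (l - 1) * (sin (π * x) * cos (π * x))) x := by
    refine ((hasDerivAt_cossq x).add ((hasDerivAt_sinsq x).const_mul l)).congr_deriv ?_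
    ring
  have hD := denB_pos hl (π * x)
  have h3 := hasDerivAt_arctan_div h1 h2 hD
  have hr := rhoB_pos hl x
  refine h3.congr_deriv ?_
  rw [← rhoB_eq]
  have h := sin_sq_add_cos_sq (π * x)
  have hr' := hr.ne'
  field_simp
  rw [rhoB_eq]
  generalize sin (π * x) = s at *
  generalize cos (π * x) = c at *
  linear_combination (l * c ^ 2 + l * s ^ 2 + l) * h

end Pool.Agent.Helper802.Mob
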