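import Mathlib
import Pool.Agent.Helper802.MobB

set_option autoImplicit false

open Real Set Filter
open scoped Topology ContDiff

noncomputable section

namespace Pool.Agent.Helper802.Mob

theorem E_zero (t e : ℝ) : E t e 0 = arctan t / π := by
  simp [E, wE]

theorem B_zero (l : ℝ) : B l 0 = 0 := by
  simp [B, vB]

theorem B_half (l : ℝ) : B l (1 / 2) = 1 / 2 := by
  have h : π * (1 / 2) = π / 2 := by ring
  simp only [B, vB, h, cos_pi_div_two]
  simp

theorem E_half (t e : ℝ) : E t e (1 / 2) = 1 / 2 + arctan e / π := by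
  have h : π * (1 / 2) = π / 2 := by ring
  simp only [E, wE, h, cos_pi_div_two, sin_pi_div_two]
  simp

theorem B_arctan {l t : ℝ} (hl : 0 < l) : B l (arctan t / π) = arctan (l * t) / π := by
  have h0 : π * (arctan t / π) = arctan t := by field_simp
  have hs := sinarc t
  have hc := cosarc t
  have h1 : vB l (arctan t / π) = ((l - 1) * t) / (1 + l * t ^ 2) := by
    rw [vB, h0, hs]
    have h2 : (0 : ℝ) < 1 + l * t ^ 2 := by positivity
    have h3 : 0 < cos (arctan t) ^ 2 := by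
      have := Real.cos_arctan_pos t; positivity
    have h4 : cos (arctan t) ^ 2 + l * (t * cos (arctan t)) ^ 2
        = (1 + l * t ^ 2) * cos (arctan t) ^ 2 := by ring
    rw [h4, div_eq_div_iff (by positivity) h2.ne']
    ring
  rw [B, h1]
  have h2 : (0 : ℝ) < 1 + l * t ^ 2 := by positivity
  have h5 : t * ((l - 1) * t / (1 + l * t ^ 2)) < 1 := by
    rw [← mul_div_assoc, div_lt_one h2]
    nlinarith [sq_nonneg t]
  have h6 := Real.arctan_add h5
  have h7 : (t + (l - 1) * t / (1 + l * t ^ 2)) / (1 - t * ((l - 1) * t / (1 + l * t ^ 2)))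
      = l * t := by
    have h8 : 1 - t * ((l - 1) * t / (1 + l * t ^ 2)) = (1 + t ^ 2) / (1 + l * t ^ 2) := by
      field_simp; ring
    have h9 : t + (l - 1) * t / (1 + l * t ^ 2) = (l * t * (1 + t ^ 2)) / (1 + l * t ^ 2) := by
      field_simp; ring
    rw [h8, h9, div_div_div_cancel_right₀ h2.ne']
    have : (1 : ℝ) + t ^ 2 ≠ 0 := by positivity
    field_simp
  rw [h7] at h6
  rw [← h6]
  ring

theorem rhoB_E {t e l : ℝ} (ht : |t| < 1) (he : |e| < 1)
    (hl2 : l ^ 2 * t = e) (x : ℝ) :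
    rhoB l (E t e x) = (1 + t * e) * rhoB l x / rho t e x := by
  have hr := rho_pos ht he x
  have hr' := hr.ne'
  rw [rhoB, E_cos_sq ht he, E_sin_sq ht he, rhoB]
  rw [eq_div_iff hr']
  have : ((cos (π * x) - e * sin (π * x)) ^ 2 / rho t e x
      + l ^ 2 * ((sin (π * x) + t * cos (π * x)) ^ 2 / rho t e x)) * rho t e x
      = (cos (π * x) - e * sin (π * x)) ^ 2 + l ^ 2 * (sin (π * x) + t * cos (π * x)) ^ 2 := by
    field_simp
  rw [this, ← hl2]
  ring

theorem B_E {t e l : ℝ} (ht : |t| < 1) (he : |e| < 1) (hl : 0 < l)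
    (hl2 : l ^ 2 * t = e) (x : ℝ) :
    B l (E t e x) = B l x + arctan (l * t) / π := by
  have hd : ∀ x, HasDerivAt (fun x => B l (E t e x) - B l x) 0 x := by
    intro x
    have h1 := (hasDerivAt_B hl (E t e x)).comp x (hasDerivAt_E ht he x)
    have h2 := h1.sub (hasDerivAt_B hl x)
    refine h2.congr_deriv ?_
    rw [rhoB_E ht he hl2]
    have hr := (rho_pos ht he x).ne'
    have hb := (rhoB_pos hl x).ne'
    have hte := (te_pos ht he).ne'
    field_simp
    ring
  have hdiff : Differentiable ℝ (fun x => B l (E t e x) - B l x) := fun x => (hd x).differentiableAt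
  have hc := is_const_of_deriv_eq_zero hdiff (fun x => (hd x).deriv) x 0
  simp only [E_zero, B_zero, B_arctan hl] at hc
  linarith

/-- the smooth joint family -/
theorem contDiff_wE_num : ContDiff ℝ ∞ (fun p : ℝ × ℝ × ℝ =>
    p.1 * cos (π * p.2.2) ^ 2 + p.2.1 * sin (π * p.2.2) ^ 2) := by
  fun_prop

/-- a cut-off function -/
def chi : ContDiffBump (0 : ℝ) := ⟨1 / 4, 1 / 2, by norm_num, by norm_num⟩

def b (t : ℝ) : ℝ := t * chi t

theorem b_smooth : ContDiff ℝ ∞ b := contDiff_id.mul chi.contDiff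

theorem b_eq {t : ℝ} (ht : |t| ≤ 1 / 4) : b t = t := by
  have : chi t = 1 := chi.one_of_mem_closedBall (by simpa [chi] using ht)
  simp [b, this]

theorem b_abs (t : ℝ) : |b t| ≤ 1 / 2 := by
  by_cases h : |t| < 1 / 2
  · rw [b, abs_mul]
    have h1 : |chi t| ≤ 1 := by
      rw [abs_of_nonneg chi.nonneg]; exact chi.le_one
    nlinarith [abs_nonneg t, abs_nonneg (chi t)]
  · have : chi t = 0 := chi.zero_of_le_dist (by simpa [chi] using not_lt.1 h)
    simp [b, this]

theorem b_abs_lt (t : ℝ) : |b t| < 1 := lt_of_le_of_lt (b_abs t) (by norm_num)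

/-- globally smooth family -/
def Eb (t e x : ℝ) : ℝ := E (b t) (b e) x

theorem contDiff_Eb : ContDiff ℝ ∞ (fun p : ℝ × ℝ × ℝ => Eb p.1 p.2.1 p.2.2) := by
  have hb1 : ContDiff ℝ ∞ (fun p : ℝ × ℝ × ℝ => b p.1) := b_smooth.comp contDiff_fst
  have hb2 : ContDiff ℝ ∞ (fun p : ℝ × ℝ × ℝ => b p.2.1) :=
    b_smooth.comp (contDiff_fst.comp contDiff_snd)
  have hx : ContDiff ℝ ∞ (fun p : ℝ × ℝ × ℝ => π * p.2.2) :=
    contDiff_const.mul (contDiff_snd.comp contDiff_snd)
  have hc := hx.cos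
  have hs := hx.sin
  have hnum : ContDiff ℝ ∞ (fun p : ℝ × ℝ × ℝ =>
      b p.1 * cos (π * p.2.2) ^ 2 + b p.2.1 * sin (π * p.2.2) ^ 2) :=
    (hb1.mul (hc.pow 2)).add (hb2.mul (hs.pow 2))
  have hden : ContDiff ℝ ∞ (fun p : ℝ × ℝ × ℝ =>
      1 + (b p.1 - b p.2.1) * (sin (π * p.2.2) * cos (π * p.2.2))) :=
    contDiff_const.add ((hb1.sub hb2).mul (hs.mul hc))
  have hw : ContDiff ℝ ∞ (fun p : ℝ × ℝ × ℝ => wE (b p.1) (b p.2.1) p.2.2) :=
    hnum.div hden (fun p => (den_pos (b_abs_lt _) (b_abs_lt _) _).ne')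
  have ha : ContDiff ℝ ∞ (fun p : ℝ × ℝ × ℝ => arctan (wE (b p.1) (b p.2.1) p.2.2)) :=
    Real.contDiff_arctan.comp hw
  exact (contDiff_snd.comp contDiff_snd).add (ha.div_const π)

theorem contDiff_E {t e : ℝ} (ht : |t| < 1) (he : |e| < 1) : ContDiff ℝ ∞ (E t e) := by
  have hx : ContDiff ℝ ∞ (fun x : ℝ => π * x) := contDiff_const.mul contDiff_id
  have hc := hx.cos
  have hs := hx.sin
  have hw : ContDiff ℝ ∞ (fun x => wE t e x) := by
    refine ContDiff.div ?_ ?_ (fun p => (den_pos ht he _).ne')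
    · exact (contDiff_const.mul (hc.pow 2)).add (contDiff_const.mul (hs.pow 2))
    · exact contDiff_const.add (contDiff_const.mul (hs.mul hc))
  exact contDiff_id.add ((Real.contDiff_arctan.comp hw).div_const π)

theorem contDiff_B {l : ℝ} (hl : 0 < l) : ContDiff ℝ ∞ (B l) := by
  have hx : ContDiff ℝ ∞ (fun x : ℝ => π * x) := contDiff_const.mul contDiff_id
  have hc := hx.cos
  have hs := hx.sin
  have hw : ContDiff ℝ ∞ (fun x => vB l x) := by
    refine ContDiff.div ?_ ?_ (fun p => (denB_pos hl _).ne')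
    · exact contDiff_const.mul (hs.mul hc)
    · exact (hc.pow 2).add (contDiff_const.mul (hs.pow 2))
  exact contDiff_id.add ((Real.contDiff_arctan.comp hw).div_const π)

theorem Eb_zero (x : ℝ) : Eb 0 0 x = x := by
  have : b 0 = 0 := by simp [b]
  simp [Eb, E, wE, this]

theorem b_neg (t : ℝ) : b (-t) = - b t := by
  rw [b, b, chi.neg]; ring

theorem Eb_neg_Eb (t e x : ℝ) : Eb (-t) (-e) (Eb t e x) = x := by
  rw [Eb, Eb, b_neg, b_neg]
  exact E_neg_E (b_abs_lt _) (b_abs_lt _) x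

theorem Eb_add_one (t e x : ℝ) : Eb t e (x + 1) = Eb t e x + 1 := E_add_one _ _ _

theorem Eb_eq {t e : ℝ} (ht : |t| ≤ 1 / 4) (he : |e| ≤ 1 / 4) (x : ℝ) : Eb t e x = E t e x := by
  rw [Eb, b_eq ht, b_eq he]

end Pool.Agent.Helper802.Mob
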