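import Mathlib
import Pool.Agent.Helper802.MobC

set_option autoImplicit false

open Real Set Filter
open scoped Topology ContDiff

noncomputable section

namespace Pool.Agent.Helper802.Mob

/-! ### Abstract group identity -/

section Abstract

variable {G : Type*} [Group G]

def hj (E h : G) (i : ℕ) : G := E ^ i * h * (E ^ i)⁻¹

def Cn (E h : G) : ℕ → G
  | 0 => 1
  | n + 1 => Cn E h n * hj E h (2 * (n + 1))

theorem hj_conj (E h : G) (i k : ℕ) : E ^ k * hj E h i * (E ^ k)⁻¹ = hj E h (k + i) := by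
  simp only [hj, pow_add]; group

theorem Cn_conj (E h : G) (n : ℕ) :
    hj E h 2 * (E ^ 2 * Cn E h n * (E ^ 2)⁻¹) = Cn E h n * hj E h (2 * n + 2) := by
  induction n with
  | zero => simp [Cn]
  | succ n ih =>
    have h1 : E ^ 2 * Cn E h (n + 1) * (E ^ 2)⁻¹
        = (E ^ 2 * Cn E h n * (E ^ 2)⁻¹) * hj E h (2 * n + 4) := by
      rw [show 2 * n + 4 = 2 + (2 * (n + 1)) by ring, ← hj_conj E h (2 * (n + 1)) 2]
      simp only [Cn]; group
    rw [h1, ← mul_assoc, ih]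
    simp only [Cn]
    rw [show 2 * (n + 1) = 2 * n + 2 by ring, show 2 * n + 2 + 2 = 2 * n + 4 by ring]

theorem commute_hj_Cn (E h : G) (m : ℕ)
    (hc : ∀ i : ℕ, i < 2 * m + 1 → Commute (hj E h i) h) (n : ℕ) (hn : n ≤ m + 1) :
    Commute (hj E h 2) (Cn E h n) := by
  induction n with
  | zero => exact Commute.one_right _
  | succ n ih =>
    refine (ih (by omega)).mul_right ?_
    have h1 := hc (2 * n) (by omega)
    have h2 : Commute (E ^ 2 * hj E h (2 * n) * (E ^ 2)⁻¹) (E ^ 2 * h * (E ^ 2)⁻¹) := by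
      have := h1.eq
      rw [commute_iff_eq]
      calc E ^ 2 * hj E h (2 * n) * (E ^ 2)⁻¹ * (E ^ 2 * h * (E ^ 2)⁻¹)
          = E ^ 2 * (hj E h (2 * n) * h) * (E ^ 2)⁻¹ := by group
        _ = E ^ 2 * (h * hj E h (2 * n)) * (E ^ 2)⁻¹ := by rw [this]
        _ = _ := by group
    rw [hj_conj] at h2
    rw [show 2 * (n + 1) = 2 + 2 * n by ring]
    exact h2.symm

theorem Cn_main (E h τ : G) (m : ℕ) (hτ : E ^ (2 * m + 1) = τ) (hτh : Commute h τ)
    (hc : ∀ i : ℕ, i < 2 * m + 1 → Commute (hj E h i) h) :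
    (Cn E h (m + 1))⁻¹ * E ^ 2 * Cn E h (m + 1) = E ^ 2 * h⁻¹ * (E * h * E⁻¹) := by
  have h1 := Cn_conj E h (m + 1)
  have h2 := (commute_hj_Cn E h m hc (m + 1) le_rfl).eq
  set C := Cn E h (m + 1) with hC
  have h3 : E ^ 2 * C = (hj E h 2)⁻¹ * C * hj E h (2 * (m + 1) + 2) * E ^ 2 := by
    have : E ^ 2 * C = (hj E h 2)⁻¹ * (hj E h 2 * (E ^ 2 * C * (E ^ 2)⁻¹)) * E ^ 2 := by group
    rw [this, h1]; group
  have h4 : C⁻¹ * (hj E h 2)⁻¹ * C = (hj E h 2)⁻¹ := by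
    have : C⁻¹ * (hj E h 2)⁻¹ * C = C⁻¹ * (hj E h 2)⁻¹ * (C * hj E h 2) * (hj E h 2)⁻¹ := by group
    rw [this, ← h2]; group
  have h5 : hj E h (2 * (m + 1) + 2) = E ^ 2 * (E * h * E⁻¹) * (E ^ 2)⁻¹ := by
    have h6 : 2 * (m + 1) + 2 = 3 + (2 * m + 1) := by ring
    rw [hj, h6, pow_add, hτ]
    have h7 : τ * h * τ⁻¹ = h := by rw [← hτh.eq]; group
    calc E ^ 3 * τ * h * (E ^ 3 * τ)⁻¹ = E ^ 3 * (τ * h * τ⁻¹) * (E ^ 3)⁻¹ := by group
      _ = _ := by rw [h7]; group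
  calc C⁻¹ * E ^ 2 * C = C⁻¹ * (E ^ 2 * C) := by group
    _ = C⁻¹ * ((hj E h 2)⁻¹ * C * hj E h (2 * (m + 1) + 2) * E ^ 2) := by rw [h3]
    _ = (C⁻¹ * (hj E h 2)⁻¹ * C) * hj E h (2 * (m + 1) + 2) * E ^ 2 := by group
    _ = (hj E h 2)⁻¹ * (E ^ 2 * (E * h * E⁻¹) * (E ^ 2)⁻¹) * E ^ 2 := by rw [h4, h5]
    _ = _ := by rw [hj]; group

end Abstract

/-! ### Permutations of the line -/

abbrev P := Equiv.Perm ℝ

theorem ap_inv (σ : P) (x : ℝ) : σ (σ⁻¹ x) = x := by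
  rw [← Equiv.Perm.mul_apply, mul_inv_cancel]; rfl

theorem inv_ap (σ : P) (x : ℝ) : σ⁻¹ (σ x) = x := by
  rw [← Equiv.Perm.mul_apply, inv_mul_cancel]; rfl

def tr (a : ℝ) : P := Equiv.addRight a

@[simp] theorem tr_apply (a x : ℝ) : tr a x = x + a := rfl

theorem tr_add (a c : ℝ) : tr (a + c) = tr a * tr c := by
  ext x; simp [Equiv.Perm.mul_apply]; ring

theorem tr_zero : tr 0 = 1 := by ext x; simp

theorem tr_neg (a : ℝ) : tr (-a) = (tr a)⁻¹ := by
  rw [eq_inv_iff_mul_eq_one, ← tr_add]; simp [tr_zero]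

theorem tr_comm (a c : ℝ) : Commute (tr a) (tr c) := by
  rw [commute_iff_eq, ← tr_add, ← tr_add, add_comm]

theorem tr_pow (a : ℝ) (n : ℕ) : (tr a) ^ n = tr (n * a) := by
  induction n with
  | zero => simp [tr_zero]
  | succ n ih => rw [pow_succ, ih, ← tr_add]; congr 1; push_cast; ring

theorem tr_nat_mul (a : ℝ) (n : ℕ) : tr (n * a) = (tr a) ^ n := (tr_pow a n).symm

theorem tr_int_mul (a : ℝ) (n : ℤ) : tr (n * a) = (tr a) ^ n := by
  cases n with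
  | ofNat n => simpa using tr_nat_mul a n
  | negSucc n =>
    rw [zpow_negSucc, ← tr_nat_mul, ← tr_neg]
    congr 1
    simp [Int.negSucc_eq]
    ring

theorem comm_tr_int {σ : P} {a : ℝ} (h : Commute σ (tr a)) (n : ℤ) : Commute σ (tr (n * a)) := by
  rw [tr_int_mul]; exact h.zpow_right n

theorem comm_apply {σ : P} {a : ℝ} (h : Commute σ (tr a)) (x : ℝ) : σ (x + a) = σ x + a := by
  have := congrArg (fun f : P => f x) h.eq
  simpa [Equiv.Perm.mul_apply] using this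

theorem comm_of_apply {σ : P} {a : ℝ} (h : ∀ x, σ (x + a) = σ x + a) : Commute σ (tr a) := by
  rw [commute_iff_eq]; ext x; simp [Equiv.Perm.mul_apply, h]

/-- smooth diffeomorphisms of the line -/
def Sm : Subgroup P where
  carrier := {σ | ContDiff ℝ ∞ (σ : ℝ → ℝ) ∧ ContDiff ℝ ∞ (σ⁻¹ : P)}
  mul_mem' := by
    rintro a c ⟨ha, ha'⟩ ⟨hc, hc'⟩
    refine ⟨ha.comp hc, ?_⟩
    rw [mul_inv_rev]
    exact hc'.comp ha'
  one_mem' := ⟨contDiff_id, by rw [inv_one]; exact contDiff_id⟩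
  inv_mem' := by
    rintro a ⟨ha, ha'⟩
    exact ⟨ha', by rwa [inv_inv]⟩

theorem tr_mem (a : ℝ) : tr a ∈ Sm := by
  refine ⟨contDiff_id.add contDiff_const, ?_⟩
  rw [← tr_neg]
  exact contDiff_id.add contDiff_const

/-- multiplication by `q` -/
def sq (q : ℝ) (hq : q ≠ 0) : P := Equiv.mulLeft₀ q hq

@[simp] theorem sq_apply (q : ℝ) (hq : q ≠ 0) (x : ℝ) : sq q hq x = q * x := rfl

theorem sq_inv_apply (q : ℝ) (hq : q ≠ 0) (x : ℝ) : (sq q hq)⁻¹ x = x / q := by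
  rw [Equiv.Perm.inv_eq_iff_eq]; simp; field_simp

theorem sq_mem (q : ℝ) (hq : q ≠ 0) : sq q hq ∈ Sm := by
  refine ⟨contDiff_const.mul contDiff_id, ?_⟩
  have : ((sq q hq)⁻¹ : P) = (fun x : ℝ => x / q) := by funext x; exact sq_inv_apply q hq x
  show ContDiff ℝ ∞ (((sq q hq)⁻¹ : P) : ℝ → ℝ)
  rw [this]
  exact contDiff_id.div_const q

/-- conjugation by the scaling -/
def sc (q : ℝ) (hq : q ≠ 0) (σ : P) : P := (sq q hq)⁻¹ * σ * sq q hq

theorem sc_apply (q : ℝ) (hq : q ≠ 0) (σ : P) (x : ℝ) : sc q hq σ x = σ (q * x) / q := by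
  simp [sc, Equiv.Perm.mul_apply, sq_inv_apply]

theorem sc_mul (q : ℝ) (hq : q ≠ 0) (σ τ : P) : sc q hq (σ * τ) = sc q hq σ * sc q hq τ := by
  simp only [sc]; group

theorem sc_inv (q : ℝ) (hq : q ≠ 0) (σ : P) : sc q hq σ⁻¹ = (sc q hq σ)⁻¹ := by
  simp only [sc]; group

theorem sc_pow (q : ℝ) (hq : q ≠ 0) (σ : P) (n : ℕ) : sc q hq (σ ^ n) = (sc q hq σ) ^ n := by
  induction n with
  | zero => simp [sc]
  | succ n ih => rw [pow_succ, sc_mul, ih, pow_succ]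

theorem sc_tr (q : ℝ) (hq : q ≠ 0) (a : ℝ) : sc q hq (tr a) = tr (a / q) := by
  ext x; rw [sc_apply]; simp; field_simp

theorem sc_mem (q : ℝ) (hq : q ≠ 0) {σ : P} (h : σ ∈ Sm) : sc q hq σ ∈ Sm :=
  Sm.mul_mem (Sm.mul_mem (Sm.inv_mem (sq_mem q hq)) h) (sq_mem q hq)

theorem sc_comm (q : ℝ) (hq : q ≠ 0) {σ τ : P} (h : Commute σ τ) :
    Commute (sc q hq σ) (sc q hq τ) := by
  rw [commute_iff_eq, ← sc_mul, h.eq, sc_mul]

/-- `E` as a permutation -/
def Ep (t e : ℝ) (ht : |t| < 1) (he : |e| < 1) : P where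
  toFun := E t e
  invFun := E (-t) (-e)
  left_inv := E_neg_E ht he
  right_inv := by
    intro x
    have := E_neg_E (t := -t) (e := -e) (by simpa using ht) (by simpa using he) x
    simpa using this

theorem Ep_mem {t e : ℝ} (ht : |t| < 1) (he : |e| < 1) : Ep t e ht he ∈ Sm :=
  ⟨contDiff_E ht he, contDiff_E (by simpa using ht) (by simpa using he)⟩

theorem Ep_comm {t e : ℝ} (ht : |t| < 1) (he : |e| < 1) : Commute (Ep t e ht he) (tr 1) :=
  comm_of_apply (E_add_one t e)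

@[simp] theorem Ep_apply {t e : ℝ} (ht : |t| < 1) (he : |e| < 1) (x : ℝ) :
    Ep t e ht he x = E t e x := rfl

theorem Ep_inv_apply {t e : ℝ} (ht : |t| < 1) (he : |e| < 1) (x : ℝ) :
    (Ep t e ht he)⁻¹ x = E (-t) (-e) x := rfl

def Bp (l : ℝ) (hl : 0 < l) : P where
  toFun := B l
  invFun := B l⁻¹
  left_inv := B_inv_B hl
  right_inv := by
    intro x
    have := B_inv_B (l := l⁻¹) (by positivity) x
    simpa using this

theorem Bp_mem {l : ℝ} (hl : 0 < l) : Bp l hl ∈ Sm :=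
  ⟨contDiff_B hl, contDiff_B (by positivity)⟩

theorem Bp_comm {l : ℝ} (hl : 0 < l) : Commute (Bp l hl) (tr 1) := comm_of_apply (B_add_one l)

theorem B_strictMono {l : ℝ} (hl : 0 < l) : StrictMono (B l) := by
  apply strictMono_of_hasDerivAt_pos (f' := fun x => l / rhoB l x)
  · intro x; exact hasDerivAt_B hl x
  · intro x; have := rhoB_pos hl x; positivity

theorem E_strictMono {t e : ℝ} (ht : |t| < 1) (he : |e| < 1) : StrictMono (E t e) := by
  apply strictMono_of_hasDerivAt_pos (f' := fun x => (1 + t * e) / rho t e x)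
  · intro x; exact hasDerivAt_E ht he x
  · intro x; have := rho_pos ht he x; have := te_pos ht he; positivity

end Pool.Agent.Helper802.Mob
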