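import Mathlib
import Pool.Agent.Helper802.MobG

set_option autoImplicit false

open Real Set Filter
open scoped Topology ContDiff

noncomputable section

namespace Pool.Agent.Helper802.Mob

/-! ### The combinatorics of the tiles -/

structure Ctx where
  E : P
  B : P
  h : P
  m : ℕ
  hm : 0 < m
  BE : ∀ x, B (E x) = B x + 1 / (2 * (m : ℝ) + 1)
  Bper : ∀ x, B (x + 1) = B x + 1
  Bmono : StrictMono B
  Bhalf : B (1 / 2) = 1 / 2
  hcomm : Commute h (tr 1)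
  hsupp : ∀ x, h x ≠ x → ∃ k : ℤ, 1 / 2 + (k : ℝ) < B x ∧ B x < 1 / 2 + 1 / (2 * (m : ℝ) + 1) + k
  hJ : ∀ x, 1 / 2 ≤ B x → B x ≤ 1 / 2 + 1 / (2 * (m : ℝ) + 1) →
    1 / 2 ≤ B (h x) ∧ B (h x) ≤ 1 / 2 + 1 / (2 * (m : ℝ) + 1)

namespace Ctx

variable (X : Ctx)

def θ : ℝ := 1 / (2 * (X.m : ℝ) + 1)

theorem θ_pos : 0 < X.θ := by unfold θ; positivity

theorem θ_mul : (2 * (X.m : ℝ) + 1) * X.θ = 1 := by
  unfold θ; field_simp

theorem BE_pow (i : ℕ) (x : ℝ) : X.B ((X.E ^ i) x) = X.B x + i * X.θ := by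
  induction i generalizing x with
  | zero => simp
  | succ i ih =>
    rw [pow_succ, Equiv.Perm.mul_apply, ih, X.BE]
    simp only [θ]; push_cast; ring

theorem BE_inv_pow (i : ℕ) (x : ℝ) : X.B (((X.E ^ i)⁻¹ : P) x) = X.B x - i * X.θ := by
  have := X.BE_pow i (((X.E ^ i)⁻¹ : P) x)
  rw [ap_inv] at this
  linarith

theorem E_pow_full : X.E ^ (2 * X.m + 1) = tr 1 := by
  ext x
  apply X.Bmono.injective
  rw [BE_pow, tr_apply, X.Bper]
  push_cast
  rw [X.θ_mul]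

theorem E_comm : Commute X.E (tr 1) := by
  rw [← E_pow_full]; exact Commute.self_pow _ _

def tile (j : ℤ) (x : ℝ) : Prop :=
  1 / 2 + j * X.θ ≤ X.B x ∧ X.B x ≤ 1 / 2 + (j + 1) * X.θ

theorem hj_fix {i : ℕ} {j : ℤ} (hij : ¬ ((2 * X.m + 1 : ℤ) ∣ (i - j))) {y : ℝ}
    (hy : X.tile j y) : hj X.E X.h i y = y := by
  by_contra hne
  set z := ((X.E ^ i)⁻¹ : P) y with hz
  have h1 : X.h z ≠ z := by
    intro hc
    apply hne
    rw [hj, Equiv.Perm.mul_apply, Equiv.Perm.mul_apply, ← hz, hc, hz, ap_inv]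
  obtain ⟨k, hk1, hk2⟩ := X.hsupp z h1
  rw [hz, BE_inv_pow] at hk1 hk2
  have hθ := X.θ_pos
  have hN := X.θ_mul
  have hk : (k : ℝ) = (k * (2 * X.m + 1)) * X.θ := by
    rw [mul_assoc, hN, mul_one]
  obtain ⟨hy1, hy2⟩ := hy
  change X.B y - i * X.θ < 1 / 2 + X.θ + k at hk2
  rw [hk] at hk1 hk2
  have e1 : ((k * (2 * X.m + 1) + i : ℤ) : ℝ) < ((j + 1 : ℤ) : ℝ) := by
    push_cast
    have : ((k : ℝ) * (2 * X.m + 1) + i) * X.θ < ((j : ℝ) + 1) * X.θ := by nlinarith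
    exact lt_of_mul_lt_mul_right this hθ.le
  have e2 : ((j : ℤ) : ℝ) < ((k * (2 * X.m + 1) + i + 1 : ℤ) : ℝ) := by
    push_cast
    have : (j : ℝ) * X.θ < ((k : ℝ) * (2 * X.m + 1) + i + 1) * X.θ := by nlinarith
    exact lt_of_mul_lt_mul_right this hθ.le
  rw [Int.cast_lt] at e1 e2
  have e3 : j = k * (2 * X.m + 1) + i := by omega
  apply hij
  rw [e3]
  exact ⟨-k, by ring⟩

theorem commute_hj (i : ℕ) (hi : i < 2 * X.m + 1) : Commute (hj X.E X.h i) X.h := by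
  rcases Nat.eq_zero_or_pos i with rfl | hpos
  · have : hj X.E X.h 0 = X.h := by simp [hj]
    rw [this]
  · apply Equiv.Perm.Disjoint.commute
    intro y
    by_cases hy : X.h y = y
    · right; exact hy
    · left
      obtain ⟨k, hk1, hk2⟩ := X.hsupp y hy
      have hN := X.θ_mul
      have hk : (k : ℝ) = (k * (2 * X.m + 1)) * X.θ := by
        rw [mul_assoc, hN, mul_one]
      apply X.hj_fix (j := k * (2 * X.m + 1))
      · intro hdvd
        have h1 : (2 * X.m + 1 : ℤ) ∣ (i : ℤ) := by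
          have h2 := dvd_add hdvd (Dvd.intro_left k rfl : (2 * X.m + 1 : ℤ) ∣ k * (2 * X.m + 1))
          simpa using h2
        have h3 := Int.le_of_dvd (by exact_mod_cast hpos) h1
        omega
      · change X.B y < 1 / 2 + X.θ + k at hk2
        rw [hk] at hk1 hk2
        constructor
        · push_cast; linarith
        · push_cast; nlinarith

def C : P := Cn X.E X.h (X.m + 1)

theorem main_conj : (X.C)⁻¹ * X.E ^ 2 * X.C = X.E ^ 2 * X.h⁻¹ * (X.E * X.h * X.E⁻¹) :=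
  Cn_main X.E X.h (tr 1) X.m X.E_pow_full X.hcomm X.commute_hj

theorem hj_comm (i : ℕ) : Commute (hj X.E X.h i) (tr 1) := by
  have h1 := X.E_comm.pow_left i
  exact (h1.mul_left X.hcomm).mul_left h1.inv_left

theorem Cn_comm (n : ℕ) : Commute (Cn X.E X.h n) (tr 1) := by
  induction n with
  | zero => exact Commute.one_left _
  | succ n ih => exact ih.mul_left (X.hj_comm _)

theorem C_comm : Commute X.C (tr 1) := X.Cn_comm _

theorem tile_pow {i : ℕ} {y : ℝ} (hy : X.tile 0 y) : X.tile i ((X.E ^ i) y) := by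
  obtain ⟨h1, h2⟩ := hy
  simp only [Int.cast_zero, zero_mul, add_zero, zero_add, one_mul] at h1 h2
  constructor
  · rw [BE_pow]; push_cast; linarith
  · rw [BE_pow]; push_cast; linarith

theorem tile_h {y : ℝ} (hy : X.tile 0 y) : X.tile 0 (X.h y) := by
  obtain ⟨h1, h2⟩ := hy
  simp only [Int.cast_zero, zero_mul, add_zero, zero_add, one_mul] at h1 h2
  have := X.hJ y h1 h2
  simpa [tile, θ] using this

theorem Cn_fix (n : ℕ) {y : ℝ} (h : ∀ i, 1 ≤ i → i ≤ n → hj X.E X.h (2 * i) y = y) :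
    Cn X.E X.h n y = y := by
  induction n with
  | zero => rfl
  | succ n ih =>
    simp only [Cn, Equiv.Perm.mul_apply]
    rw [h (n + 1) (by omega) le_rfl]
    exact ih fun i h1 h2 => h i h1 (by omega)

theorem hj_apply (i : ℕ) (y : ℝ) : hj X.E X.h i ((X.E ^ i) y) = (X.E ^ i) (X.h y) := by
  rw [hj, Equiv.Perm.mul_apply, Equiv.Perm.mul_apply, inv_ap]

theorem C_tile {j : ℕ} (hj1 : 1 ≤ j) (hj2 : j ≤ X.m + 1) {y : ℝ} (hy : X.tile 0 y) :
    X.C ((X.E ^ (2 * j)) y) = (X.E ^ (2 * j)) (X.h y) := by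
  have ht := X.tile_pow (i := 2 * j) hy
  have ht' := X.tile_pow (i := 2 * j) (X.tile_h hy)
  have key : ∀ n, j ≤ n → n ≤ X.m + 1 → Cn X.E X.h n ((X.E ^ (2 * j)) y)
      = (X.E ^ (2 * j)) (X.h y) := by
    intro n hn
    induction n, hn using Nat.le_induction with
    | base =>
      intro _
      obtain ⟨j', rfl⟩ : ∃ j', j = j' + 1 := ⟨j - 1, by omega⟩
      simp only [Cn, Equiv.Perm.mul_apply]
      rw [X.hj_apply]
      apply X.Cn_fix
      intro i h1 h2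
      apply X.hj_fix _ ht'
      rintro ⟨d, hd⟩
      have : d = 0 := by
        by_contra hne
        have : |(2 * (X.m : ℤ) + 1) * d| ≥ 2 * X.m + 1 := by
          rw [abs_mul]
          have := Int.one_le_abs hne
          have h0 : |(2 * (X.m : ℤ) + 1)| = 2 * X.m + 1 := abs_of_pos (by omega)
          rw [h0]; nlinarith
        rw [← hd] at this
        have h3 : |((2 * i : ℕ) : ℤ) - ((2 * (j' + 1) : ℕ) : ℤ)| ≤ 2 * X.m := by
          rw [abs_le]; constructor <;> push_cast <;> omega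
        omega
      rw [this] at hd
      push_cast at hd; omega
    | succ n hn ih =>
      intro hn2
      simp only [Cn, Equiv.Perm.mul_apply]
      rw [X.hj_fix _ ht]
      · exact ih (by omega)
      · rintro ⟨d, hd⟩
        have : d = 0 := by
          by_contra hne
          have : |(2 * (X.m : ℤ) + 1) * d| ≥ 2 * X.m + 1 := by
            rw [abs_mul]
            have := Int.one_le_abs hne
            have h0 : |(2 * (X.m : ℤ) + 1)| = 2 * X.m + 1 := abs_of_pos (by omega)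
            rw [h0]; nlinarith
          rw [← hd] at this
          have h3 : |((2 * (n + 1) : ℕ) : ℤ) - ((2 * j : ℕ) : ℤ)| ≤ 2 * X.m := by
            rw [abs_le]; constructor <;> push_cast <;> omega
          omega
        rw [this] at hd
        push_cast at hd; omega
  exact key (X.m + 1) hj2 le_rfl

theorem C_fix_odd {j : ℕ} (hj1 : 2 ≤ j) (hj2 : j ≤ X.m + 1) {y : ℝ} (hy : X.tile 0 y) :
    X.C ((X.E ^ (2 * j - 1)) y) = (X.E ^ (2 * j - 1)) y := by
  have ht := X.tile_pow (i := 2 * j - 1) hy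
  apply X.Cn_fix
  intro i h1 h2
  apply X.hj_fix _ ht
  rintro ⟨d, hd⟩
  have : d = 0 := by
    by_contra hne
    have : |(2 * (X.m : ℤ) + 1) * d| ≥ 2 * X.m + 1 := by
      rw [abs_mul]
      have := Int.one_le_abs hne
      have h0 : |(2 * (X.m : ℤ) + 1)| = 2 * X.m + 1 := abs_of_pos (by omega)
      rw [h0]; nlinarith
    rw [← hd] at this
    have h3 : |((2 * i : ℕ) : ℤ) - ((2 * j - 1 : ℕ) : ℤ)| ≤ 2 * X.m := by
      rw [abs_le]; constructor <;> push_cast [Nat.cast_sub (show 1 ≤ 2 * j by omega)] <;> omega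
    omega
  rw [this] at hd
  push_cast [Nat.cast_sub (show 1 ≤ 2 * j by omega)] at hd; omega

def Ω : P := (X.C)⁻¹ * X.E⁻¹ * X.C

theorem Ω_tile {j : ℕ} (hj1 : 2 ≤ j) (hj2 : j ≤ X.m + 1) {y : ℝ} (hy : X.tile 0 y) :
    X.Ω ((X.E ^ (2 * j)) y) = X.E⁻¹ ((X.E ^ (2 * j)) (X.h y)) := by
  have h0 : X.E⁻¹ ((X.E ^ (2 * j)) (X.h y)) = (X.E ^ (2 * j - 1)) (X.h y) := by
    obtain ⟨k, hk⟩ : ∃ k, 2 * j = k + 1 := ⟨2 * j - 1, by omega⟩
    rw [hk, pow_succ', Equiv.Perm.mul_apply, inv_ap]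
    rfl
  rw [Ω, Equiv.Perm.mul_apply, Equiv.Perm.mul_apply, X.C_tile (by omega) hj2 hy, h0,
    Equiv.Perm.inv_eq_iff_eq, X.C_fix_odd hj1 hj2 (X.tile_h hy)]

/-- the map `Φ = C⁻¹ E² C` -/
def Φ : P := (X.C)⁻¹ * X.E ^ 2 * X.C

theorem Φ_eq : X.Φ = X.E ^ 2 * X.h⁻¹ * (X.E * X.h * X.E⁻¹) := X.main_conj

theorem Φ_pow (n : ℕ) : X.Φ ^ n = (X.C)⁻¹ * X.E ^ (2 * n) * X.C := by
  induction n with
  | zero => simp
  | succ n ih => rw [pow_succ, ih, Φ, mul_add, pow_add]; group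

theorem Φ_pow_m : X.Φ ^ X.m = tr 1 * X.Ω := by
  have h1 : X.E ^ (2 * X.m) = tr 1 * X.E⁻¹ := by
    rw [← E_pow_full, pow_succ]; group
  have h2 := X.C_comm.inv_left.eq
  rw [Φ_pow, h1, Ω]
  calc (X.C)⁻¹ * (tr 1 * X.E⁻¹) * X.C = ((X.C)⁻¹ * tr 1) * X.E⁻¹ * X.C := by group
    _ = (tr 1 * (X.C)⁻¹) * X.E⁻¹ * X.C := by rw [h2]
    _ = _ := by group

theorem Φ_conj : X.Φ = (X.B * X.C)⁻¹ * tr (2 * X.θ) * (X.B * X.C) := by
  have h1 : X.B * X.E = tr X.θ * X.B := by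
    ext x; simp [Equiv.Perm.mul_apply, X.BE, θ]
  have h2 : X.E = X.B⁻¹ * tr X.θ * X.B := by
    rw [mul_assoc, ← h1]; group
  have h3 : X.E ^ 2 = X.B⁻¹ * tr (2 * X.θ) * X.B := by
    rw [show (2 : ℝ) * X.θ = X.θ + X.θ by ring, tr_add, pow_two]
    conv_lhs => rw [h2]
    group
  rw [Φ, h3]; group

end Ctx

end Pool.Agent.Helper802.Mob
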