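import Mathlib
import Pool.Agent.Helper802.MobH

set_option autoImplicit false

open Real Set Filter
open scoped Topology ContDiff

noncomputable section

namespace Pool.Agent.Helper802.Mob

/-! ### Inverses of families -/

theorem surj_of_lift {f : ℝ → ℝ} (hf : Continuous f) (hper : ∀ x, f (x + 1) = f x + 1) :
    Function.Surjective f := by
  have h1 : ∀ n : ℕ, f (n : ℝ) = f 0 + n := by
    intro n
    induction n with
    | zero => simp
    | succ n ih => push_cast; rw [hper, ih]; ring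
  have h2 : ∀ n : ℕ, f (-(n : ℝ)) = f 0 - n := by
    intro n
    induction n with
    | zero => simp
    | succ n ih =>
      have := hper (-((n : ℝ) + 1))
      rw [show -((n : ℝ) + 1) + 1 = -(n : ℝ) by ring, ih] at this
      push_cast
      linarith
  intro y
  obtain ⟨n, hn⟩ := exists_nat_ge (|y - f 0|)
  have h3 := abs_le.1 hn
  exact mem_range_of_exists_le_of_exists_ge hf ⟨-(n : ℝ), by rw [h2]; linarith⟩
    ⟨n, by rw [h1]; linarith⟩

def shearEquiv (a d : ℝ) (hd : d ≠ 0) : (ℝ × ℝ) ≃L[ℝ] (ℝ × ℝ) :=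
  ContinuousLinearEquiv.equivOfInverse
    ((ContinuousLinearMap.fst ℝ ℝ ℝ).prod
      (a • ContinuousLinearMap.fst ℝ ℝ ℝ + d • ContinuousLinearMap.snd ℝ ℝ ℝ))
    ((ContinuousLinearMap.fst ℝ ℝ ℝ).prod
      ((-(a / d)) • ContinuousLinearMap.fst ℝ ℝ ℝ + d⁻¹ • ContinuousLinearMap.snd ℝ ℝ ℝ))
    (by
      rintro ⟨x, y⟩
      simp
      field_simp
      ring)
    (by
      rintro ⟨x, y⟩
      simp
      field_simp
      ring)

theorem exists_inv_family (g : ℝ × ℝ → ℝ) (hg : ContDiff ℝ ∞ g)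
    (hper : ∀ c x, g (c, x + 1) = g (c, x) + 1)
    (hpos : ∀ p : ℝ × ℝ, 0 < fderiv ℝ g p (0, 1)) :
    ∃ k : ℝ × ℝ → ℝ, ContDiff ℝ ∞ k ∧ (∀ c x, k (c, g (c, x)) = x) ∧
      (∀ c x, g (c, k (c, x)) = x) := by
  have hd : ∀ c x, HasDerivAt (fun x => g (c, x)) (fderiv ℝ g (c, x) (0, 1)) x := by
    intro c x
    have h1 : HasFDerivAt g (fderiv ℝ g (c, x)) (c, x) :=
      (hg.differentiable (by simp)).differentiableAt.hasFDerivAt
    have h2 : HasDerivAt (fun x : ℝ => (c, x)) ((0 : ℝ), (1 : ℝ)) x :=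
      (hasDerivAt_const x c).prodMk (hasDerivAt_id x)
    exact h1.comp_hasDerivAt x h2
  have hmono : ∀ c, StrictMono (fun x => g (c, x)) := fun c =>
    strictMono_of_hasDerivAt_pos (hd c) (fun x => hpos (c, x))
  have hsurj : ∀ c, Function.Surjective (fun x => g (c, x)) := fun c =>
    surj_of_lift (hg.continuous.comp (continuous_const.prodMk continuous_id)) (hper c)
  let Θ : ℝ × ℝ → ℝ × ℝ := fun p => (p.1, g p)
  have hΘs : ContDiff ℝ ∞ Θ := contDiff_fst.prodMk hg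
  have hΘ : Function.Bijective Θ := by
    constructor
    · rintro ⟨c, x⟩ ⟨c', x'⟩ h
      simp only [Θ, Prod.mk.injEq] at h
      obtain ⟨rfl, h2⟩ := h
      have := (hmono c).injective h2
      simpa using this
    · rintro ⟨c, y⟩
      obtain ⟨x, hx⟩ := hsurj c y
      exact ⟨(c, x), by simp [Θ]; exact hx⟩
  let Θ' : ℝ × ℝ → ((ℝ × ℝ) ≃L[ℝ] (ℝ × ℝ)) := fun p =>
    shearEquiv (fderiv ℝ g p (1, 0)) (fderiv ℝ g p (0, 1)) (hpos p).ne'
  have hΘ' : ∀ p, HasStrictFDerivAt Θ ((Θ' p : (ℝ × ℝ) ≃L[ℝ] (ℝ × ℝ)) : (ℝ × ℝ) →L[ℝ] (ℝ × ℝ)) p := by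
    intro p
    have h1 : HasStrictFDerivAt g (fderiv ℝ g p) p :=
      hg.contDiffAt.hasStrictFDerivAt (by simp)
    have h2 := (hasStrictFDerivAt_fst (𝕜 := ℝ) (p := p)).prodMk h1
    have h3 : ((Θ' p : (ℝ × ℝ) ≃L[ℝ] (ℝ × ℝ)) : (ℝ × ℝ) →L[ℝ] (ℝ × ℝ))
        = (ContinuousLinearMap.fst ℝ ℝ ℝ).prod (fderiv ℝ g p) := by
      apply ContinuousLinearMap.ext
      rintro ⟨a, d⟩
      have h4 : fderiv ℝ g p (a, d) = fderiv ℝ g p (1, 0) * a + fderiv ℝ g p (0, 1) * d := by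
        have : ((a, d) : ℝ × ℝ) = a • ((1 : ℝ), (0 : ℝ)) + d • ((0 : ℝ), (1 : ℝ)) := by
          ext <;> simp
        rw [this, map_add, map_smul, map_smul]
        simp only [smul_eq_mul]; ring
      show ((a, fderiv ℝ g p (1, 0) • a + fderiv ℝ g p (0, 1) • d) : ℝ × ℝ)
        = (a, fderiv ℝ g p (a, d))
      rw [h4]; rfl
    rw [h3]; exact h2
  have hopen : IsOpenMap Θ := isOpenMap_of_hasStrictFDerivAt_equiv hΘ'
  let e : (ℝ × ℝ) ≃ₜ (ℝ × ℝ) :=
    (Equiv.ofBijective Θ hΘ).toHomeomorphOfContinuousOpen hΘs.continuous hopen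
  have hsymm : ContDiff ℝ ∞ (e.symm : ℝ × ℝ → ℝ × ℝ) :=
    e.contDiff_symm (f₀' := Θ') (fun a => (hΘ' a).hasFDerivAt) hΘs
  have he : ∀ p, e.symm (Θ p) = p := fun p => e.symm_apply_apply p
  have he' : ∀ p, Θ (e.symm p) = p := fun p => e.apply_symm_apply p
  refine ⟨fun p => (e.symm p).2, contDiff_snd.comp hsymm, ?_, ?_⟩
  · intro c x
    have := he (c, x)
    have h2 := congrArg Prod.snd this
    exact h2
  · intro c x
    have h1 := he' (c, x)
    have h2 : (e.symm (c, x)).1 = c := congrArg Prod.fst h1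
    have h3 : g (e.symm (c, x)) = x := congrArg Prod.snd h1
    have h4 : (c, (e.symm (c, x)).2) = e.symm (c, x) := Prod.ext h2.symm rfl
    rw [h4, h3]

/-! ### Uniform smallness -/

theorem iteratedDeriv_family {V : Type} [NormedAddCommGroup V] [NormedSpace ℝ V] (k : ℕ) :
    ∀ (Φ : V × ℝ → ℝ), ContDiff ℝ ∞ Φ →
      Continuous fun q : V × ℝ => iteratedDeriv k (fun x => Φ (q.1, x)) q.2 := by
  induction k with
  | zero => intro Φ hΦ; simpa using hΦ.continuous
  | succ k ih =>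
    intro Φ hΦ
    have h1 : ContDiff ℝ ∞ (fun q : V × ℝ => fderiv ℝ Φ q (0, 1)) :=
      (hΦ.fderiv_right (m := ∞) (by simp)).clm_apply contDiff_const
    have h2 := ih _ h1
    refine h2.congr fun q => ?_
    rw [iteratedDeriv_succ']
    congr 1
    funext x
    have h3 : HasFDerivAt Φ (fderiv ℝ Φ (q.1, x)) (q.1, x) :=
      (hΦ.differentiable (by simp)).differentiableAt.hasFDerivAt
    have h4 : HasDerivAt (fun x : ℝ => (q.1, x)) ((0 : V), (1 : ℝ)) x :=
      (hasDerivAt_const x q.1).prodMk (hasDerivAt_id x)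
    exact (h3.comp_hasDerivAt x h4).deriv.symm

theorem iteratedDeriv_add_one {φ : ℝ → ℝ} (hper : ∀ x, φ (x + 1) = φ x) (k : ℕ) (x : ℝ) :
    iteratedDeriv k φ (x + 1) = iteratedDeriv k φ x := by
  have h : (fun z => φ (z + 1)) = φ := funext hper
  conv_rhs => rw [← h]
  rw [iteratedDeriv_comp_add_const]

theorem periodic_int {φ : ℝ → ℝ} (hper : ∀ x, φ (x + 1) = φ x) (x : ℝ) (n : ℤ) :
    φ (x + n) = φ x := by
  have : Function.Periodic φ 1 := hper
  simpa using this.int_mul n x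

theorem small_uniform {V : Type} [NormedAddCommGroup V] [NormedSpace ℝ V] (Φ : V × ℝ → ℝ)
    (hΦ : ContDiff ℝ ∞ Φ) (hper : ∀ p x, Φ (p, x + 1) = Φ (p, x)) (p₀ : V)
    (h0 : ∀ x, Φ (p₀, x) = 0) (n : ℕ) (ε : ℝ) (hε : 0 < ε) :
    ∀ᶠ p in 𝓝 p₀, ∀ k ≤ n, ∀ x, |iteratedDeriv k (fun x => Φ (p, x)) x| ≤ ε := by
  have key : ∀ k, ∀ᶠ p in 𝓝 p₀, ∀ x, |iteratedDeriv k (fun x => Φ (p, x)) x| ≤ ε := by
    intro k
    have hc := iteratedDeriv_family k Φ hΦ
    have h1 : ∀ᶠ p in 𝓝 p₀, ∀ x ∈ Icc (0 : ℝ) 1,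
        |iteratedDeriv k (fun x => Φ (p, x)) x| < ε := by
      apply isCompact_Icc.eventually_forall_of_forall_eventually
      intro x _
      have : |iteratedDeriv k (fun x => Φ (p₀, x)) x| < ε := by
        have hz : (fun x => Φ (p₀, x)) = fun _ => (0 : ℝ) := funext h0
        rw [hz]
        simpa using hε
      exact hc.abs.continuousAt.eventually_lt (f := fun q : V × ℝ =>
        |iteratedDeriv k (fun x => Φ (q.1, x)) q.2|) (x₀ := (p₀, x)) continuousAt_const this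
    filter_upwards [h1] with p hp x
    have h2 : iteratedDeriv k (fun x => Φ (p, x)) (Int.fract x)
        = iteratedDeriv k (fun x => Φ (p, x)) x := by
      have := periodic_int (iteratedDeriv_add_one (φ := fun x => Φ (p, x)) (hper p) k) (Int.fract x) ⌊x⌋
      rw [Int.fract_add_floor] at this
      exact this.symm
    rw [← h2]
    exact (hp _ ⟨Int.fract_nonneg x, (Int.fract_lt_one x).le⟩).le
  have := (Finset.range (n + 1)).eventually_all.2 fun k _ => key k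
  filter_upwards [this] with t ht k hk
  exact ht k (Finset.mem_range.2 (Nat.lt_succ_of_le hk))

end Pool.Agent.Helper802.Mob
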