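import Mathlib
import Pool.Agent.Helper802.MobI

set_option autoImplicit false

open Real Set Filter
open scoped Topology ContDiff

noncomputable section

namespace Pool.Agent.Helper802.Mob

/-! ### The localized perturbations -/

theorem sin_small {η y : ℝ} (h0 : 0 < η) (h1 : η < 1 / 4)
    (h : |sin (π * y)| < sin (π * (η / 4))) : ∃ k : ℤ, |y - k| < η / 4 := by
  refine ⟨round y, ?_⟩
  set z := y - round y with hz
  have hz1 : |z| ≤ 1 / 2 := abs_sub_round y
  by_contra hcon
  push Not at hcon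
  have h2 : |sin (π * y)| = |sin (π * z)| := by
    have : π * y = π * z + (round y : ℤ) * π := by rw [hz]; ring
    rw [this, sin_add_int_mul_pi]
    rw [abs_mul, abs_zpow, abs_neg, abs_one, one_zpow, one_mul]
  have h3 : |sin (π * z)| = sin (π * |z|) := by
    rcases abs_cases z with ⟨e1, e2⟩ | ⟨e1, e2⟩
    · rw [e1]
      apply abs_of_nonneg
      apply sin_nonneg_of_nonneg_of_le_pi
      · positivity
      · rw [e1] at hz1; nlinarith [pi_pos]
    · rw [e1, mul_neg, sin_neg]
      apply abs_of_nonpos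
      have : 0 ≤ sin (π * (-z)) := by
        apply sin_nonneg_of_nonneg_of_le_pi
        · have : 0 < -z := by linarith
          positivity
        · rw [e1] at hz1; nlinarith [pi_pos]
      rw [mul_neg, sin_neg] at this
      linarith
  rw [h2, h3] at h
  have h4 : sin (π * (η / 4)) ≤ sin (π * |z|) := by
    apply sin_le_sin_of_le_of_le_pi_div_two
    · have := pi_pos; nlinarith
    · have := pi_pos; nlinarith
    · have := pi_pos; nlinarith
  linarith

theorem exists_beta (η : ℝ) (h0 : 0 < η) (h1 : η < 1 / 4) :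
    ∃ β : ℝ → ℝ, ContDiff ℝ ∞ β ∧ (∀ x, β (x + 1) = β x) ∧ β (1 / 2 + η / 2) = 0 ∧
      HasDerivAt β 1 (1 / 2 + η / 2) ∧
      ∀ x, β x ≠ 0 → ∃ k : ℤ, |x - (1 / 2 + η / 2) - k| < η / 4 := by
  have hr : 0 < sin (π * (η / 4)) := by
    apply sin_pos_of_pos_of_lt_pi
    · have := pi_pos; positivity
    · have := pi_pos; nlinarith
  let χ : ContDiffBump (0 : ℝ) := ⟨sin (π * (η / 4)) / 2, sin (π * (η / 4)), by positivity, by linarith⟩
  set u := 1 / 2 + η / 2 with hu
  let β : ℝ → ℝ := fun x => sin (2 * π * (x - u)) / (2 * π) * χ (sin (π * (x - u)))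
  have hl : ContDiff ℝ ∞ (fun x : ℝ => π * (x - u)) := contDiff_const.mul (contDiff_id.sub contDiff_const)
  have hl2 : ContDiff ℝ ∞ (fun x : ℝ => 2 * π * (x - u)) :=
    contDiff_const.mul (contDiff_id.sub contDiff_const)
  refine ⟨β, ?_, ?_, ?_, ?_, ?_⟩
  · exact (hl2.sin.div_const _).mul (χ.contDiff.comp hl.sin)
  · intro x
    simp only [β]
    have e1 : 2 * π * (x + 1 - u) = 2 * π * (x - u) + 2 * π := by ring
    have e2 : π * (x + 1 - u) = π * (x - u) + π := by ring
    rw [e1, e2, sin_add_two_pi, sin_add_pi, χ.neg]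
  · simp [β]
  · have h2 : β =ᶠ[𝓝 u] fun x => sin (2 * π * (x - u)) / (2 * π) := by
      have hc : ContinuousAt (fun x : ℝ => sin (π * (x - u))) u := hl.sin.continuous.continuousAt
      have : ∀ᶠ x in 𝓝 u, |sin (π * (x - u))| < sin (π * (η / 4)) / 2 := by
        have : |sin (π * (u - u))| < sin (π * (η / 4)) / 2 := by simp; exact hr
        exact hc.abs.eventually_lt continuousAt_const this
      filter_upwards [this] with x hx
      simp only [β]
      rw [χ.one_of_mem_closedBall (by simp [χ]; exact hx.le), mul_one]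
    have h3 : HasDerivAt (fun x => sin (2 * π * (x - u)) / (2 * π)) 1 u := by
      have h4 : HasDerivAt (fun x : ℝ => 2 * π * (x - u)) (2 * π) u := by
        simpa using ((hasDerivAt_id u).sub_const u).const_mul (2 * π)
      refine (h4.sin.div_const (2 * π)).congr_deriv ?_
      have := pi_pos.ne'
      simp
    exact h3.congr_of_eventuallyEq h2
  · intro x hx
    have h5 : χ (sin (π * (x - u))) ≠ 0 := by
      intro h; apply hx; simp [β, h]
    have h6 : |sin (π * (x - u))| < sin (π * (η / 4)) := by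
      by_contra hcon
      apply h5
      apply χ.zero_of_le_dist
      rw [dist_zero_right, Real.norm_eq_abs]
      exact not_lt.1 hcon
    exact sin_small h0 h1 h6

theorem bdd_of_periodic {φ : ℝ → ℝ} (hc : Continuous φ) (hper : ∀ x, φ (x + 1) = φ x) :
    ∃ M : ℝ, 1 ≤ M ∧ ∀ x, |φ x| ≤ M := by
  obtain ⟨M, hM⟩ := isCompact_Icc.exists_bound_of_continuousOn (s := Icc (0 : ℝ) 1) hc.continuousOn
  refine ⟨max M 1, le_max_right _ _, fun x => ?_⟩
  have := periodic_int hper (Int.fract x) ⌊x⌋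
  rw [Int.fract_add_floor] at this
  rw [this]
  exact (hM _ ⟨Int.fract_nonneg x, (Int.fract_lt_one x).le⟩).trans (le_max_left _ _)

theorem deriv_add_one {φ : ℝ → ℝ} (hper : ∀ x, φ (x + 1) = φ x) (x : ℝ) :
    deriv φ (x + 1) = deriv φ x := by
  have := iteratedDeriv_add_one hper 1 x
  simpa [iteratedDeriv_one] using this

structure HFam (η : ℝ) where
  g : ℝ × ℝ → ℝ
  k : ℝ × ℝ → ℝ
  M : ℝ
  hM : 0 < M
  hg : ContDiff ℝ ∞ g
  hk : ContDiff ℝ ∞ k
  kg : ∀ c x, k (c, g (c, x)) = x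
  gk : ∀ c x, g (c, k (c, x)) = x
  gper : ∀ c x, g (c, x + 1) = g (c, x) + 1
  gmono : ∀ c, StrictMono fun x => g (c, x)
  g0 : ∀ x, g (0, x) = x
  gsupp : ∀ c x, g (c, x) ≠ x → ∃ j : ℤ, 1 / 2 + η / 4 < x - j ∧ x - j < 1 / 2 + 3 * η / 4
  gfix : ∀ c, g (c, 1 / 2 + η / 2) = 1 / 2 + η / 2
  gderiv : ∀ c, HasDerivAt (fun x => g (c, x)) (1 + b c / M) (1 / 2 + η / 2)

theorem exists_HFam (η : ℝ) (h0 : 0 < η) (h1 : η < 1 / 4) : Nonempty (HFam η) := by
  obtain ⟨β, hβ, hβp, hβu, hβd, hβs⟩ := exists_beta η h0 h1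
  have hβ' : ContDiff ℝ ∞ (deriv β) := by
    have := (contDiff_infty_iff_deriv (𝕜 := ℝ)).1 hβ
    exact this.2
  obtain ⟨M, hM1, hM⟩ := bdd_of_periodic hβ'.continuous (deriv_add_one hβp)
  have hMpos : 0 < M := by linarith
  let g : ℝ × ℝ → ℝ := fun p => p.2 + b p.1 / M * β p.2
  have hg : ContDiff ℝ ∞ g := contDiff_snd.add
    (((b_smooth.comp contDiff_fst).div_const M).mul (hβ.comp contDiff_snd))
  have hgd : ∀ c x, HasDerivAt (fun x => g (c, x)) (1 + b c / M * deriv β x) x := by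
    intro c x
    have h2 : HasDerivAt β (deriv β x) x := (hβ.differentiable (by simp)).differentiableAt.hasDerivAt
    exact (hasDerivAt_id x).add (h2.const_mul (b c / M))
  have hpos : ∀ c x, 0 < 1 + b c / M * deriv β x := by
    intro c x
    have h2 : |b c / M * deriv β x| ≤ 1 / 2 := by
      rw [abs_mul, abs_div, abs_of_pos hMpos]
      have := b_abs c
      have h3 := hM x
      calc |b c| / M * |deriv β x| ≤ |b c| / M * M := by gcongr
        _ = |b c| := by field_simp
        _ ≤ 1 / 2 := this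
    have := (abs_le.1 h2).1
    linarith
  have hfd : ∀ p : ℝ × ℝ, 0 < fderiv ℝ g p (0, 1) := by
    rintro ⟨c, x⟩
    have h3 : HasFDerivAt g (fderiv ℝ g (c, x)) (c, x) :=
      (hg.differentiable (by simp)).differentiableAt.hasFDerivAt
    have h2 : HasDerivAt (fun x : ℝ => (c, x)) ((0 : ℝ), (1 : ℝ)) x :=
      (hasDerivAt_const x c).prodMk (hasDerivAt_id x)
    have h4 := h3.comp_hasDerivAt x h2
    have h5 := h4.unique (hgd c x)
    rw [h5]; exact hpos c x
  have hgper : ∀ c x, g (c, x + 1) = g (c, x) + 1 := by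
    intro c x
    simp only [g, hβp]; ring
  obtain ⟨k, hk, hkg, hgk⟩ := exists_inv_family g hg hgper hfd
  refine ⟨⟨g, k, M, hMpos, hg, hk, hkg, hgk, hgper, ?_, ?_, ?_, ?_, ?_⟩⟩
  · exact fun c => strictMono_of_hasDerivAt_pos (hgd c) (hpos c)
  · intro x
    have : b 0 = 0 := by simp [b]
    simp [g, this]
  · intro c x hx
    have : β x ≠ 0 := by
      intro h; apply hx; simp [g, h]
    obtain ⟨j, hj⟩ := hβs x this
    refine ⟨j, ?_, ?_⟩
    · have := (abs_lt.1 hj).1; linarith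
    · have := (abs_lt.1 hj).2; linarith
  · intro c
    show 1 / 2 + η / 2 + b c / M * β (1 / 2 + η / 2) = 1 / 2 + η / 2
    rw [hβu]; ring
  · intro c
    have := hgd c (1 / 2 + η / 2)
    rwa [hβd.deriv, mul_one] at this

namespace HFam

variable {η : ℝ} (X : HFam η)

def hp (c : ℝ) : P where
  toFun x := X.g (c, x)
  invFun x := X.k (c, x)
  left_inv x := X.kg c x
  right_inv x := X.gk c x

theorem hp_mem (c : ℝ) : X.hp c ∈ Sm :=
  ⟨X.hg.comp (contDiff_const.prodMk contDiff_id), X.hk.comp (contDiff_const.prodMk contDiff_id)⟩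

theorem hp_comm (c : ℝ) : Commute (X.hp c) (tr 1) := comm_of_apply (X.gper c)

@[simp] theorem hp_apply (c x : ℝ) : X.hp c x = X.g (c, x) := rfl

theorem hp_inv_apply (c x : ℝ) : (X.hp c)⁻¹ x = X.k (c, x) := rfl

theorem k0 (x : ℝ) : X.k (0, x) = x := by
  have := X.kg 0 x
  rwa [X.g0] at this

theorem g_eq_of (h0 : 0 < η) (h1 : η < 1 / 4) (c x : ℝ) (hx1 : 1 / 2 ≤ x) (hx2 : x ≤ 1 / 2 + η)
    (hx : x ≤ 1 / 2 + η / 4 ∨ 1 / 2 + 3 * η / 4 ≤ x) : X.g (c, x) = x := by
  by_contra hne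
  obtain ⟨j, hj1, hj2⟩ := X.gsupp c x hne
  have h3 : j = 0 := by
    have e1 : (-1 : ℝ) < j := by linarith
    have e2 : (j : ℝ) < 1 := by linarith
    have e1' : -1 < j := by exact_mod_cast e1
    have e2' : j < 1 := by exact_mod_cast e2
    omega
  rw [h3] at hj1 hj2
  simp only [Int.cast_zero, sub_zero] at hj1 hj2
  rcases hx with hx | hx <;> linarith

end HFam

end Pool.Agent.Helper802.Mob
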