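import Mathlib
import Pool.Agent.Helper802.MobJ

set_option autoImplicit false

open Real Set Filter
open scoped Topology ContDiff

noncomputable section

namespace Pool.Agent.Helper802.Mob

theorem Eb_comp {V : Type} [NormedAddCommGroup V] [NormedSpace ℝ V] {t e x : V → ℝ}
    (ht : ContDiff ℝ ∞ t) (he : ContDiff ℝ ∞ e) (hx : ContDiff ℝ ∞ x) :
    ContDiff ℝ ∞ (fun p => Eb (t p) (e p) (x p)) :=
  contDiff_Eb.comp (ht.prodMk (he.prodMk hx))

def Φf {η : ℝ} (X : HFam η) (e c t x : ℝ) : ℝ :=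
  Eb t e (Eb t e (X.k (c, Eb t e (X.g (c, Eb (-t) (-e) x)))))

theorem Φf_smooth {η : ℝ} (X : HFam η) (e : ℝ) {V : Type} [NormedAddCommGroup V]
    [NormedSpace ℝ V] {c t x : V → ℝ} (hc : ContDiff ℝ ∞ c) (ht : ContDiff ℝ ∞ t)
    (hx : ContDiff ℝ ∞ x) : ContDiff ℝ ∞ (fun p => Φf X e (c p) (t p) (x p)) := by
  have he : ContDiff ℝ ∞ (fun _ : V => e) := contDiff_const
  have h1 := Eb_comp ht.neg he.neg hx
  have h2 : ContDiff ℝ ∞ (fun p => X.g (c p, Eb (-t p) (-e) (x p))) := X.hg.comp (hc.prodMk h1)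
  have h3 := Eb_comp ht he h2
  have h4 : ContDiff ℝ ∞ (fun p => X.k (c p, Eb (t p) e (X.g (c p, Eb (-t p) (-e) (x p))))) :=
    X.hk.comp (hc.prodMk h3)
  exact Eb_comp ht he (Eb_comp ht he h4)

theorem kper {η : ℝ} (X : HFam η) (c x : ℝ) : X.k (c, x + 1) = X.k (c, x) + 1 := by
  apply (X.gmono c).injective
  show X.g (c, X.k (c, x + 1)) = X.g (c, X.k (c, x) + 1)
  rw [X.gper, X.gk, X.gk]

theorem Φf_add_one {η : ℝ} (X : HFam η) (e c t x : ℝ) :
    Φf X e c t (x + 1) = Φf X e c t x + 1 := by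
  simp only [Φf, Eb_add_one, X.gper, kper]

theorem add_nat {f : ℝ → ℝ} (h : ∀ x, f (x + 1) = f x + 1) (x : ℝ) (n : ℕ) :
    f (x + n) = f x + n := by
  induction n with
  | zero => simp
  | succ n ih => push_cast; rw [← add_assoc, h, ih]; ring

theorem Φf_zero {η : ℝ} (X : HFam η) (e t x : ℝ) : Φf X e 0 t x = Eb t e (Eb t e x) := by
  rw [Φf, X.g0, X.k0]
  congr 2
  have := Eb_neg_Eb (-t) (-e) x
  simpa using this

theorem exists_close (H : P) (hH : H ∈ Sm) (hHc : Commute H (tr 1)) (s : ℝ) (q : ℕ) (hq : 0 < q)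
    (n : ℕ) (δ : ℝ) (hδ : 0 < δ) :
    ∃ e, 0 < e ∧ e ≤ 1 / 8 ∧ ∀ (X : HFam (arctan e / π)), ∃ c, 0 < c ∧ c ≤ 1 / 8 ∧
      ∀ t, 0 ≤ t → t ≤ e → ∀ j ≤ n, ∀ x,
        |iteratedDeriv j (fun x => H (s + Φf X e c t (q * H⁻¹ x) / q) - H (s + H⁻¹ x)) x| ≤ δ := by
  have hq0 : (q : ℝ) ≠ 0 := by exact_mod_cast hq.ne'
  have hHs : ContDiff ℝ ∞ (H : ℝ → ℝ) := hH.1
  have hHi : ContDiff ℝ ∞ ((H⁻¹ : P) : ℝ → ℝ) := hH.2
  have hH1 : ∀ x, H (x + 1) = H x + 1 := comm_apply hHc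
  have hHi1 : ∀ x, H⁻¹ (x + 1) = H⁻¹ x + 1 := comm_apply hHc.inv_left
  -- family A
  let A : (ℝ × ℝ) × ℝ → ℝ := fun p =>
    H (s + Eb p.1.1 p.1.2 (Eb p.1.1 p.1.2 (q * H⁻¹ p.2)) / q) - H (s + H⁻¹ p.2)
  have hp1 : ContDiff ℝ ∞ (fun p : (ℝ × ℝ) × ℝ => p.1.1) := contDiff_fst.comp contDiff_fst
  have hp2 : ContDiff ℝ ∞ (fun p : (ℝ × ℝ) × ℝ => p.1.2) := contDiff_snd.comp contDiff_fst
  have hp3 : ContDiff ℝ ∞ (fun p : (ℝ × ℝ) × ℝ => H⁻¹ p.2) := hHi.comp contDiff_snd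
  have hp4 : ContDiff ℝ ∞ (fun p : (ℝ × ℝ) × ℝ => (q : ℝ) * H⁻¹ p.2) := contDiff_const.mul hp3
  have hA : ContDiff ℝ ∞ A :=
    (hHs.comp (contDiff_const.add ((Eb_comp hp1 hp2 (Eb_comp hp1 hp2 hp4)).div_const _))).sub
      (hHs.comp (contDiff_const.add hp3))
  have hAper : ∀ p x, A (p, x + 1) = A (p, x) := by
    intro p x
    simp only [A, hHi1]
    have e1 : (q : ℝ) * (H⁻¹ x + 1) = q * H⁻¹ x + q := by ring
    rw [e1, add_nat (Eb_add_one _ _), add_nat (Eb_add_one _ _), add_div, div_self hq0,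
      ← add_assoc, hH1, ← add_assoc, hH1]
    ring
  have hA0 : ∀ x, A ((0, 0), x) = 0 := by
    intro x
    simp only [A, Eb_zero]
    rw [mul_div_cancel_left₀ _ hq0]; ring
  have h1 := small_uniform A hA hAper (0, 0) hA0 n (δ / 2) (by positivity)
  rw [Metric.eventually_nhds_iff] at h1
  obtain ⟨ρ, hρ, h1⟩ := h1
  set e := min (ρ / 2) (1 / 8) with he
  have he0 : 0 < e := by positivity
  refine ⟨e, he0, min_le_right _ _, fun X => ?_⟩
  have hA2 : ∀ t, 0 ≤ t → t ≤ e → ∀ j ≤ n, ∀ x,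
      |iteratedDeriv j (fun x => A ((t, e), x)) x| ≤ δ / 2 := by
    intro t ht0 hte
    apply h1
    rw [Prod.dist_eq]
    simp only [dist_zero_right, Real.norm_eq_abs, abs_of_nonneg ht0, abs_of_pos he0]
    have h3 := min_le_left (ρ / 2) (1 / 8)
    apply max_lt <;> linarith
  -- family B
  let F : (ℝ × ℝ) × ℝ → ℝ := fun p => H (s + Φf X e p.1.1 p.1.2 (q * H⁻¹ p.2) / q)
  have hF : ContDiff ℝ ∞ F :=
    hHs.comp (contDiff_const.add ((Φf_smooth X e hp1 hp2 hp4).div_const _))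
  have hFper : ∀ p x, F (p, x + 1) = F (p, x) + 1 := by
    intro p x
    simp only [F, hHi1]
    have e1 : (q : ℝ) * (H⁻¹ x + 1) = q * H⁻¹ x + q := by ring
    rw [e1, add_nat (Φf_add_one _ _ _ _), add_div, div_self hq0, ← add_assoc, hH1]
  let D : (ℝ × ℝ) × ℝ → ℝ := fun p => F p - F ((0, p.1.2), p.2)
  have hD : ContDiff ℝ ∞ D :=
    hF.sub (hF.comp ((contDiff_const.prodMk hp2).prodMk contDiff_snd))
  have hDper : ∀ p x, D (p, x + 1) = D (p, x) := by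
    intro p x
    simp only [D, hFper]; ring
  have hcpt : ∀ᶠ c in 𝓝 (0 : ℝ), ∀ t ∈ Icc (0 : ℝ) e, ∀ j ≤ n, ∀ x,
      |iteratedDeriv j (fun x => D ((c, t), x)) x| ≤ δ / 2 := by
    apply isCompact_Icc.eventually_forall_of_forall_eventually
    intro t _
    have := small_uniform D hD hDper (0, t) (fun x => by simp [D]) n (δ / 2) (by positivity)
    exact this
  rw [Metric.eventually_nhds_iff] at hcpt
  obtain ⟨κ, hκ, hcpt⟩ := hcpt
  refine ⟨min (κ / 2) (1 / 8), by positivity, min_le_right _ _, ?_⟩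
  set c := min (κ / 2) (1 / 8) with hc
  have hc0 : 0 < c := by positivity
  intro t ht0 hte j hj x
  have h2 := hcpt (y := c) (by
    rw [dist_zero_right, Real.norm_eq_abs, abs_of_pos hc0]
    have := min_le_left (κ / 2) (1 / 8)
    linarith) t ⟨ht0, hte⟩ j hj x
  have h3 := hA2 t ht0 hte j hj x
  have e1 : (fun x => H (s + Φf X e c t (q * H⁻¹ x) / q) - H (s + H⁻¹ x))
      = fun x => D ((c, t), x) + A ((t, e), x) := by
    funext x
    simp only [D, F, A, Φf_zero]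
    ring
  rw [e1]
  have c1 : ContDiffAt ℝ j (fun x => D ((c, t), x)) x :=
    ((hD.comp (contDiff_const.prodMk contDiff_id)).of_le (by exact_mod_cast le_top)).contDiffAt
  have c2 : ContDiffAt ℝ j (fun x => A ((t, e), x)) x :=
    ((hA.comp (contDiff_const.prodMk contDiff_id)).of_le (by exact_mod_cast le_top)).contDiffAt
  rw [iteratedDeriv_fun_add c1 c2]
  calc |iteratedDeriv j (fun x => D ((c, t), x)) x + iteratedDeriv j (fun x => A ((t, e), x)) x|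
      ≤ _ := abs_add_le _ _
    _ ≤ δ / 2 + δ / 2 := add_le_add h2 h3
    _ = δ := by ring

end Pool.Agent.Helper802.Mob
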