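import Mathlib
import Pool.Agent.Helper802.MobK

set_option autoImplicit false

open Real Set Filter
open scoped Topology ContDiff

noncomputable section

namespace Pool.Agent.Helper802.Mob

/-- `tan (π / (2 m + 1))` -/
def Tm (m : ℕ) : ℝ := tan (π / (2 * m + 1))

theorem Tm_pos {m : ℕ} (hm : 0 < m) : 0 < Tm m := by
  apply tan_pos_of_pos_of_lt_pi_div_two
  · have := pi_pos; positivity
  · have hm' : (1 : ℝ) ≤ m := by exact_mod_cast hm
    rw [div_lt_div_iff₀ (by positivity) (by norm_num)]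
    have := pi_pos
    nlinarith

theorem arctan_Tm {m : ℕ} (hm : 0 < m) : arctan (Tm m) = π / (2 * m + 1) := by
  apply arctan_tan
  · have := pi_pos
    have h2 : 0 < π / (2 * m + 1) := by positivity
    linarith
  · have hm' : (1 : ℝ) ≤ m := by exact_mod_cast hm
    rw [div_lt_div_iff₀ (by positivity) (by norm_num)]
    have := pi_pos
    nlinarith

theorem tendsto_theta : Tendsto (fun m : ℕ => (1 : ℝ) / (2 * m + 1)) atTop (𝓝 0) := by
  have h1 : Tendsto (fun m : ℕ => (2 * (m : ℝ) + 1)) atTop atTop :=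
    (tendsto_natCast_atTop_atTop.const_mul_atTop (by norm_num : (0 : ℝ) < 2)).atTop_add
      tendsto_const_nhds
  exact tendsto_const_nhds.div_atTop h1

theorem tendsto_Tm : Tendsto Tm atTop (𝓝 0) := by
  have h1 : Tendsto (fun m : ℕ => π / (2 * (m : ℝ) + 1)) atTop (𝓝 0) := by
    have := tendsto_theta.const_mul π
    rw [mul_zero] at this
    exact this.congr fun m => by ring
  have h2 : ContinuousAt tan 0 := by
    apply Real.continuousAt_tan.2
    simp
  have h3 := h2.tendsto.comp h1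
  rw [tan_zero] at h3
  exact h3

def tm (e : ℝ) (m : ℕ) : ℝ := Tm m ^ 2 / e

theorem tendsto_tm (e : ℝ) : Tendsto (tm e) atTop (𝓝 0) := by
  have := (tendsto_Tm.pow 2).div_const e
  have h0 : (0 : ℝ) ^ 2 / e = 0 := by simp
  rw [h0] at this
  exact this

theorem tm_pos {e : ℝ} (he : 0 < e) {m : ℕ} (hm : 0 < m) : 0 < tm e m := by
  have := Tm_pos hm
  unfold tm; positivity

/-- standing data -/
structure Dat where
  e : ℝ
  he0 : 0 < e
  he : e ≤ 1 / 8
  X : HFam (arctan e / π)
  c : ℝ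
  hc0 : 0 < c
  hc : c ≤ 1 / 8

namespace Dat

variable (D : Dat)

def η : ℝ := arctan D.e / π

theorem η_pos : 0 < D.η := by
  have := arctan_pos.2 D.he0
  have := pi_pos
  unfold η; positivity

theorem η_lt : D.η < 1 / 4 := by
  unfold η
  rw [div_lt_iff₀ pi_pos]
  have h1 : arctan D.e < π / 4 := by
    rw [← arctan_one]
    exact arctan_strictMono (by linarith [D.he])
  linarith

theorem he' : |D.e| < 1 := by
  rw [abs_of_pos D.he0]; linarith [D.he]

/-- admissible `m` -/
structure Adm (m : ℕ) : Prop where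
  hm : 0 < m
  ht : tm D.e m ≤ D.e

theorem eventually_adm : ∀ᶠ m in atTop, D.Adm m := by
  have h1 := (tendsto_tm D.e).eventually_le_const D.he0
  filter_upwards [h1, eventually_gt_atTop 0] with m h2 h3
  exact ⟨h3, h2⟩

variable {D}

theorem Adm.t_abs {m : ℕ} (h : D.Adm m) : |tm D.e m| < 1 := by
  rw [abs_of_pos (tm_pos D.he0 h.hm)]; linarith [h.ht, D.he]

theorem Adm.l_pos {m : ℕ} (h : D.Adm m) : 0 < D.e / Tm m := div_pos D.he0 (Tm_pos h.hm)

theorem Adm.BE {m : ℕ} (h : D.Adm m) (x : ℝ) :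
    B (D.e / Tm m) (E (tm D.e m) D.e x) = B (D.e / Tm m) x + 1 / (2 * (m : ℝ) + 1) := by
  have hT := Tm_pos h.hm
  have he := D.he0
  rw [B_E h.t_abs D.he' h.l_pos (by unfold tm; field_simp)]
  have : D.e / Tm m * tm D.e m = Tm m := by unfold tm; field_simp
  rw [this, arctan_Tm h.hm]
  have := pi_pos.ne'
  field_simp

theorem Adm.Bend {m : ℕ} (h : D.Adm m) :
    B (D.e / Tm m) (1 / 2 + D.η) = 1 / 2 + 1 / (2 * (m : ℝ) + 1) := by
  have := h.BE (1 / 2)
  rw [E_half, B_half] at this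
  exact this

theorem B_add_int (l x : ℝ) (n : ℤ) : B l (x + n) = B l x + n := by
  have := vB_add_one l
  have h2 : Function.Periodic (vB l) 1 := this
  have h3 := h2.int_mul n x
  simp only [mul_one] at h3
  simp only [B, h3]; ring

theorem hp_half (D : Dat) : D.X.g (D.c, 1 / 2) = 1 / 2 := by
  have h0 := D.η_pos
  have h1 := D.η_lt
  unfold η at h0 h1
  exact D.X.g_eq_of h0 h1 D.c _ le_rfl (by linarith) (Or.inl (by linarith))

theorem hp_end (D : Dat) : D.X.g (D.c, 1 / 2 + D.η) = 1 / 2 + D.η := by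
  have h0 := D.η_pos
  have h1 := D.η_lt
  unfold η at h0 h1 ⊢
  exact D.X.g_eq_of h0 h1 D.c _ (by linarith) le_rfl (Or.inr (by linarith))

/-- the context at level `m` -/
def ctx {m : ℕ} (h : D.Adm m) : Ctx where
  E := Ep (tm D.e m) D.e h.t_abs D.he'
  B := Bp (D.e / Tm m) h.l_pos
  h := D.X.hp D.c
  m := m
  hm := h.hm
  BE := h.BE
  Bper := B_add_one _
  Bmono := B_strictMono h.l_pos
  Bhalf := B_half _
  hcomm := D.X.hp_comm _
  hsupp := by
    intro x hx
    obtain ⟨j, hj1, hj2⟩ := D.X.gsupp _ _ hx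
    refine ⟨j, ?_, ?_⟩
    · have h1 : (1 : ℝ) / 2 < x - j := by
        have := D.η_pos
        unfold η at this
        linarith
      have h2 := B_strictMono h.l_pos h1
      rw [B_half] at h2
      have h3 := B_add_int (D.e / Tm m) (x - j) j
      rw [sub_add_cancel] at h3
      show 1 / 2 + (j : ℝ) < B (D.e / Tm m) x
      linarith
    · have h1 : x - j < 1 / 2 + D.η := by
        have := D.η_pos
        unfold η at this ⊢
        linarith
      have h2 := B_strictMono h.l_pos h1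
      rw [h.Bend] at h2
      have h3 := B_add_int (D.e / Tm m) (x - j) j
      rw [sub_add_cancel] at h3
      show B (D.e / Tm m) x < _
      linarith
  hJ := by
    intro x h1 h2
    have hmono := B_strictMono h.l_pos
    have h3 : 1 / 2 ≤ x := by
      rw [← hmono.le_iff_le, B_half]; exact h1
    have h4 : x ≤ 1 / 2 + D.η := by
      rw [← hmono.le_iff_le, h.Bend]; exact h2
    have h5 : 1 / 2 ≤ D.X.g (D.c, x) := by
      have := (D.X.gmono D.c).monotone h3
      change D.X.g (D.c, 1 / 2) ≤ D.X.g (D.c, x) at this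
      rwa [hp_half] at this
    have h6 : D.X.g (D.c, x) ≤ 1 / 2 + D.η := by
      have := (D.X.gmono D.c).monotone h4
      change D.X.g (D.c, x) ≤ D.X.g (D.c, 1 / 2 + D.η) at this
      rwa [hp_end] at this
    constructor
    · show 1 / 2 ≤ B (D.e / Tm m) (D.X.g (D.c, x))
      have := hmono.monotone h5
      rwa [B_half] at this
    · show B (D.e / Tm m) (D.X.g (D.c, x)) ≤ _
      have := hmono.monotone h6
      rwa [h.Bend] at this

theorem ctx_Φ {m : ℕ} (h : D.Adm m) (x : ℝ) :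
    (ctx h).Φ x = Φf D.X D.e D.c (tm D.e m) x := by
  have ht : |tm D.e m| ≤ 1 / 4 := by
    rw [abs_of_pos (tm_pos D.he0 h.hm)]; linarith [h.ht, D.he]
  have he : |D.e| ≤ 1 / 4 := by
    rw [abs_of_pos D.he0]; linarith [D.he]
  have h1 : ∀ y, Eb (tm D.e m) D.e y = E (tm D.e m) D.e y := Eb_eq ht he
  have h2 : ∀ y, Eb (-tm D.e m) (-D.e) y = E (-tm D.e m) (-D.e) y :=
    Eb_eq (by simpa using ht) (by simpa using he)
  rw [Ctx.Φ_eq, Φf, h1, h1, h1, h2, pow_two]
  rfl

theorem C_mem {m : ℕ} (h : D.Adm m) : (ctx h).C ∈ Sm := by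
  have hE : (ctx h).E ∈ Sm := Ep_mem h.t_abs D.he'
  have hh : (ctx h).h ∈ Sm := D.X.hp_mem _
  have h1 : ∀ i, hj (ctx h).E (ctx h).h i ∈ Sm := fun i =>
    Sm.mul_mem (Sm.mul_mem (Sm.pow_mem hE i) hh) (Sm.inv_mem (Sm.pow_mem hE i))
  have h2 : ∀ n, Cn (ctx h).E (ctx h).h n ∈ Sm := by
    intro n
    induction n with
    | zero => exact Sm.one_mem
    | succ n ih => exact Sm.mul_mem ih (h1 _)
  exact h2 _

theorem B_mem {m : ℕ} (h : D.Adm m) : (ctx h).B ∈ Sm := Bp_mem h.l_pos

theorem B_comm {m : ℕ} (h : D.Adm m) : Commute (ctx h).B (tr 1) := Bp_comm h.l_pos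

end Dat

end Pool.Agent.Helper802.Mob
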