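import Mathlib
import Pool.Agent.Helper802.MobL

set_option autoImplicit false

open Real Set Filter
open scoped Topology ContDiff

noncomputable section

namespace Pool.Agent.Helper802.Mob

theorem Sm.hasDerivAt {σ : P} (hσ : σ ∈ Sm) (x : ℝ) : HasDerivAt (σ : ℝ → ℝ) (deriv σ x) x :=
  ((hσ.1.differentiable (by simp)) x).hasDerivAt

theorem Sm.deriv_mul_inv {σ : P} (hσ : σ ∈ Sm) (u : ℝ) :
    deriv σ u * deriv ((σ⁻¹ : P) : ℝ → ℝ) (σ u) = 1 := by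
  have h1 : HasDerivAt ((σ⁻¹ : P) : ℝ → ℝ) (deriv ((σ⁻¹ : P) : ℝ → ℝ) (σ u)) (σ u) :=
    Sm.hasDerivAt (Sm.inv_mem hσ) _
  have h2 := Sm.hasDerivAt hσ u
  have h3 := h1.comp u h2
  have h4 : ((σ⁻¹ : P) : ℝ → ℝ) ∘ (σ : ℝ → ℝ) = id := by
    funext x; exact inv_ap σ x
  rw [h4] at h3
  have := h3.unique (hasDerivAt_id u)
  rw [mul_comm]; exact this

namespace Dat

variable (D : Dat)

/-- index of the tile near `1` -/
def jm (m : ℕ) : ℕ := (2 * m + 1) / 4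

def xs (u : ℝ) (m : ℕ) : ℝ := (E (tm D.e m) D.e)^[2 * jm m] u

variable {D}

theorem xs_eq {m : ℕ} (h : D.Adm m) (u : ℝ) : D.xs u m = ((ctx h).E ^ (2 * jm m)) u := by
  rw [xs, Equiv.Perm.coe_pow]; rfl

theorem tile0 {m : ℕ} (h : D.Adm m) {u : ℝ} (h1 : 1 / 2 ≤ u) (h2 : u ≤ 1 / 2 + D.η) :
    (ctx h).tile 0 u := by
  have hmono := B_strictMono h.l_pos
  have e1 := hmono.monotone h1
  have e2 := hmono.monotone h2
  rw [B_half] at e1
  rw [h.Bend] at e2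
  refine ⟨?_, ?_⟩
  · show 1 / 2 + ((0 : ℤ) : ℝ) * (ctx h).θ ≤ B (D.e / Tm m) u
    rw [Int.cast_zero, zero_mul, add_zero]; exact e1
  · show B (D.e / Tm m) u ≤ 1 / 2 + (((0 : ℤ) : ℝ) + 1) * (1 / (2 * (m : ℝ) + 1))
    rw [Int.cast_zero, zero_add, one_mul]; exact e2

theorem B_one (l : ℝ) : B l 1 = 1 := by
  have := B_add_one l 0
  rw [zero_add, B_zero, zero_add] at this
  exact this

theorem xs_bounds {m : ℕ} (h : D.Adm m) {u : ℝ} (h1 : 1 / 2 ≤ u) (h2 : u ≤ 1 / 2 + D.η) :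
    E (-tm D.e m) (-D.e) (E (-tm D.e m) (-D.e) 1) ≤ D.xs u m ∧ D.xs u m ≤ E (tm D.e m) D.e 1 := by
  have hmono := B_strictMono h.l_pos
  have ht := (ctx h).tile_pow (i := 2 * jm m) (tile0 h h1 h2)
  rw [← xs_eq h] at ht
  obtain ⟨t1, t2⟩ := ht
  change 1 / 2 + (((2 * jm m : ℕ) : ℤ) : ℝ) * (ctx h).θ ≤ B (D.e / Tm m) (D.xs u m) at t1
  change B (D.e / Tm m) (D.xs u m) ≤ 1 / 2 + ((((2 * jm m : ℕ) : ℤ) : ℝ) + 1) * (ctx h).θ at t2
  have hθ : (2 * (m : ℝ) + 1) * (ctx h).θ = 1 := (ctx h).θ_mul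
  have hθp := (ctx h).θ_pos
  have hθe : (ctx h).θ = 1 / (2 * (m : ℝ) + 1) := rfl
  have j1 : 4 * jm m ≤ 2 * m + 1 := by unfold jm; omega
  have j2 : 2 * m + 1 < 4 * jm m + 4 := by unfold jm; omega
  have j1' : 4 * (jm m : ℝ) ≤ 2 * m + 1 := by exact_mod_cast j1
  have j2' : 2 * (m : ℝ) + 1 < 4 * jm m + 4 := by exact_mod_cast j2
  push_cast at t1 t2
  have e1 : B (D.e / Tm m) (E (tm D.e m) D.e 1) = 1 + (ctx h).θ := by
    rw [h.BE, B_one, hθe]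
  have e2 : ∀ y, B (D.e / Tm m) (E (-tm D.e m) (-D.e) y) = B (D.e / Tm m) y - (ctx h).θ := by
    intro y
    have h3 := h.BE (E (-tm D.e m) (-D.e) y)
    have h4 := (Ep (tm D.e m) D.e h.t_abs D.he').right_inv y
    change E (tm D.e m) D.e (E (-tm D.e m) (-D.e) y) = y at h4
    rw [h4] at h3
    rw [hθe]; linarith
  constructor
  · rw [← hmono.le_iff_le, e2, e2, B_one]
    nlinarith
  · rw [← hmono.le_iff_le, e1]
    nlinarith

theorem E_zero_one (e : ℝ) : E 0 e 1 = 1 := by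
  simp [E, wE]

theorem tendsto_xs (D : Dat) {u : ℝ} (h1 : 1 / 2 ≤ u) (h2 : u ≤ 1 / 2 + D.η) :
    Tendsto (D.xs u) atTop (𝓝 1) := by
  have ht := tendsto_tm D.e
  have hc1 : Continuous (fun t : ℝ => Eb t D.e 1) :=
    (Eb_comp contDiff_id contDiff_const contDiff_const).continuous
  have hc2 : Continuous (fun t : ℝ => Eb (-t) (-D.e) (Eb (-t) (-D.e) 1)) :=
    (Eb_comp contDiff_neg contDiff_const
      (Eb_comp contDiff_neg contDiff_const contDiff_const)).continuous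
  have he : |D.e| ≤ 1 / 4 := by
    rw [abs_of_pos D.he0]; linarith [D.he]
  have l1 : Tendsto (fun m => Eb (tm D.e m) D.e 1) atTop (𝓝 1) := by
    have := (hc1.tendsto 0).comp ht
    rw [Eb_eq (by norm_num) he, E_zero_one] at this
    exact this
  have l2 : Tendsto (fun m => Eb (-tm D.e m) (-D.e) (Eb (-tm D.e m) (-D.e) 1)) atTop (𝓝 1) := by
    have := (hc2.tendsto 0).comp ht
    have e0 : Eb (-0) (-D.e) 1 = 1 := by
      rw [neg_zero, Eb_eq (by norm_num) (by simpa using he), E_zero_one]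
    rw [e0, e0] at this
    exact this
  have key : ∀ᶠ m in atTop, Eb (-tm D.e m) (-D.e) (Eb (-tm D.e m) (-D.e) 1) ≤ D.xs u m
      ∧ D.xs u m ≤ Eb (tm D.e m) D.e 1 := by
    filter_upwards [D.eventually_adm] with m h
    have ht' : |tm D.e m| ≤ 1 / 4 := by
      rw [abs_of_pos (tm_pos D.he0 h.hm)]; linarith [h.ht, D.he]
    have e1 : ∀ y, Eb (tm D.e m) D.e y = E (tm D.e m) D.e y := Eb_eq ht' he
    have e2 : ∀ y, Eb (-tm D.e m) (-D.e) y = E (-tm D.e m) (-D.e) y :=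
      Eb_eq (by simpa using ht') (by simpa using he)
    rw [e1, e2, e2]
    exact xs_bounds h h1 h2
  exact tendsto_of_tendsto_of_tendsto_of_le_of_le' l2 l1 (key.mono fun _ h => h.1)
    (key.mono fun _ h => h.2)

/-- derivative of `Ω` -/
theorem hasDerivAt_Ω {m : ℕ} (h : D.Adm m) (hm : 4 ≤ m) {u d : ℝ} (h1 : 1 / 2 < u)
    (h2 : u < 1 / 2 + D.η) (hfix : D.X.g (D.c, u) = u)
    (hd : HasDerivAt (fun x => D.X.g (D.c, x)) d u) :
    (ctx h).Ω (D.xs u m) = E (-tm D.e m) (-D.e) (D.xs u m) ∧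
    HasDerivAt ((ctx h).Ω : ℝ → ℝ)
      ((1 + tm D.e m * D.e) / rho (-tm D.e m) (-D.e) (D.xs u m) * d) (D.xs u m) := by
  have hj1 : 2 ≤ jm m := by unfold jm; omega
  have hj2 : jm m ≤ (ctx h).m + 1 := by
    show jm m ≤ m + 1
    unfold jm; omega
  set σ : P := (ctx h).E ^ (2 * jm m) with hσ
  have hσS : σ ∈ Sm := Sm.pow_mem (Ep_mem h.t_abs D.he') _
  have hx : D.xs u m = σ u := xs_eq h u
  have hfix' : (ctx h).h u = u := hfix
  constructor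
  · rw [hx, hσ, (ctx h).Ω_tile hj1 hj2 (tile0 h h1.le h2.le), hfix']
    rfl
  · have hnear : ∀ᶠ z in 𝓝 (σ u), 1 / 2 < (σ⁻¹ : P) z ∧ (σ⁻¹ : P) z < 1 / 2 + D.η := by
      have hc : ContinuousAt ((σ⁻¹ : P) : ℝ → ℝ) (σ u) := hσS.2.continuous.continuousAt
      have e0 : (σ⁻¹ : P) (σ u) = u := inv_ap σ u
      have a1 : ∀ᶠ z in 𝓝 (σ u), 1 / 2 < (σ⁻¹ : P) z := by
        apply hc.eventually_const_lt; rw [e0]; exact h1
      have a2 : ∀ᶠ z in 𝓝 (σ u), (σ⁻¹ : P) z < 1 / 2 + D.η := by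
        apply hc.eventually_lt_const; rw [e0]; exact h2
      filter_upwards [a1, a2] with z b1 b2 using ⟨b1, b2⟩
    have heq : ((ctx h).Ω : ℝ → ℝ) =ᶠ[𝓝 (σ u)]
        fun z => E (-tm D.e m) (-D.e) (σ (D.X.g (D.c, (σ⁻¹ : P) z))) := by
      filter_upwards [hnear] with z hz
      have := (ctx h).Ω_tile hj1 hj2 (tile0 h hz.1.le hz.2.le)
      rw [← hσ, ap_inv] at this
      rw [this]; rfl
    rw [hx]
    refine HasDerivAt.congr_of_eventuallyEq ?_ heq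
    have d1 : HasDerivAt ((σ⁻¹ : P) : ℝ → ℝ) (deriv ((σ⁻¹ : P) : ℝ → ℝ) (σ u)) (σ u) :=
      Sm.hasDerivAt (Sm.inv_mem hσS) _
    have d2 : HasDerivAt (fun x => D.X.g (D.c, x)) d ((σ⁻¹ : P) (σ u)) := by
      rw [inv_ap]; exact hd
    have d3 := d2.comp (σ u) d1
    have d4 : HasDerivAt (σ : ℝ → ℝ) (deriv σ u) (((fun x => D.X.g (D.c, x)) ∘ ((σ⁻¹ : P) : ℝ → ℝ)) (σ u)) := by
      have : ((fun x => D.X.g (D.c, x)) ∘ ((σ⁻¹ : P) : ℝ → ℝ)) (σ u) = u := by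
        simp only [Function.comp_apply, inv_ap, hfix]
      rw [this]; exact Sm.hasDerivAt hσS u
    have d5 := d4.comp (σ u) d3
    have ht' : |-tm D.e m| < 1 := by simpa using h.t_abs
    have he' : |-D.e| < 1 := by simpa using D.he'
    have d6 := hasDerivAt_E ht' he' (σ u)
    have e1 : ((σ : ℝ → ℝ) ∘ (fun x => D.X.g (D.c, x)) ∘ ((σ⁻¹ : P) : ℝ → ℝ)) (σ u) = σ u := by
      simp only [Function.comp_apply, inv_ap, hfix]
    rw [← e1] at d6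
    have d7 := d6.comp (σ u) d5
    refine d7.congr_deriv ?_
    rw [e1]
    have := Sm.deriv_mul_inv hσS u
    have e3 : deriv σ u * (d * deriv ((σ⁻¹ : P) : ℝ → ℝ) (σ u)) = d := by
      calc deriv σ u * (d * deriv ((σ⁻¹ : P) : ℝ → ℝ) (σ u))
          = d * (deriv σ u * deriv ((σ⁻¹ : P) : ℝ → ℝ) (σ u)) := by ring
        _ = d := by rw [this, mul_one]
    rw [e3]; ring

end Dat

end Pool.Agent.Helper802.Mob
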