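import Mathlib
import Pool.Agent.Helper802.MobN

set_option autoImplicit false

open Real Set Filter
open scoped Topology ContDiff

noncomputable section

namespace Pool.Agent.Helper802.Mob

namespace Dat

variable {D : Dat}

/-- the conjugated map -/
def GG {m : ℕ} (h : D.Adm m) (H : P) (q : ℕ) (hq : (q : ℝ) ≠ 0) : P :=
  H * sc q hq (ctx h).Ω * H⁻¹

theorem hasDerivAt_GG {m : ℕ} (h : D.Adm m) (hm : 4 ≤ m) {H : P} (hH : H ∈ Sm) {q : ℕ}
    (hq : (q : ℝ) ≠ 0) {u d : ℝ} (h1 : 1 / 2 < u)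
    (h2 : u < 1 / 2 + D.η) (hfix : D.X.g (D.c, u) = u)
    (hd : HasDerivAt (fun x => D.X.g (D.c, x)) d u) :
    deriv (GG h H q hq : ℝ → ℝ) (H (D.xs u m / q)) =
      deriv H (E (-tm D.e m) (-D.e) (D.xs u m) / q) *
      ((1 + tm D.e m * D.e) / rho (-tm D.e m) (-D.e) (D.xs u m) * d) *
      deriv ((H⁻¹ : P) : ℝ → ℝ) (H (D.xs u m / q)) := by
  obtain ⟨hv, hder⟩ := hasDerivAt_Ω h hm h1 h2 hfix hd
  set x := D.xs u m with hx
  have a1 : HasDerivAt ((H⁻¹ : P) : ℝ → ℝ) (deriv ((H⁻¹ : P) : ℝ → ℝ) (H (x / q))) (H (x / q)) :=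
    Sm.hasDerivAt (Sm.inv_mem hH) _
  have e1 : (H⁻¹ : P) (H (x / q)) = x / q := inv_ap H _
  have e2 : (q : ℝ) * (x / q) = x := by field_simp
  have a2 : HasDerivAt (fun y : ℝ => (q : ℝ) * y) q (x / q) := by
    simpa using (hasDerivAt_id (x / (q : ℝ))).const_mul (q : ℝ)
  rw [← e2] at hder
  have a3 := hder.comp (x / q) a2
  have a4 := a3.div_const (q : ℝ)
  have a5 : HasDerivAt (sc q hq (ctx h).Ω : ℝ → ℝ)
      ((1 + tm D.e m * D.e) / rho (-tm D.e m) (-D.e) x * d) (x / q) := by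
    have : (sc q hq (ctx h).Ω : ℝ → ℝ) = fun y => ((ctx h).Ω ∘ fun y => (q : ℝ) * y) y / q := by
      funext y; rw [sc_apply]; rfl
    rw [this]
    refine a4.congr_deriv ?_
    rw [e2]
    field_simp
  rw [← e1] at a5
  have a6 := a5.comp (H (x / q)) a1
  have e3 : (⇑(sc (q : ℝ) hq (ctx h).Ω) ∘ ⇑(H⁻¹ : P)) (H (x / q))
      = E (-tm D.e m) (-D.e) x / q := by
    simp only [Function.comp_apply, e1, sc_apply, e2, hv]
  have a7 : HasDerivAt (H : ℝ → ℝ) (deriv H (E (-tm D.e m) (-D.e) x / q))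
      ((⇑(sc (q : ℝ) hq (ctx h).Ω) ∘ ⇑(H⁻¹ : P)) (H (x / q))) := by
    rw [e3]; exact Sm.hasDerivAt hH _
  have a8 := a7.comp (H (x / q)) a6
  have e4 : (GG h H q hq : ℝ → ℝ) = ⇑H ∘ (⇑(sc (q : ℝ) hq (ctx h).Ω) ∘ ⇑(H⁻¹ : P)) := by
    funext y; rfl
  rw [e4, a8.deriv]
  ring

theorem tendsto_value (D : Dat) {H : P} (hH : H ∈ Sm) (q : ℕ) {u : ℝ} (d : ℝ)
    (h1 : 1 / 2 ≤ u) (h2 : u ≤ 1 / 2 + D.η) :
    Tendsto (fun m => deriv H (E (-tm D.e m) (-D.e) (D.xs u m) / q) *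
      ((1 + tm D.e m * D.e) / rho (-tm D.e m) (-D.e) (D.xs u m) * d) *
      deriv ((H⁻¹ : P) : ℝ → ℝ) (H (D.xs u m / q))) atTop (𝓝 d) := by
  have hx := tendsto_xs D h1 h2
  have ht := tendsto_tm D.e
  have he : |-D.e| ≤ 1 / 4 := by
    rw [abs_neg, abs_of_pos D.he0]; linarith [D.he]
  have c1 : Continuous (deriv (H : ℝ → ℝ)) := hH.1.continuous_deriv (by simp)
  have c2 : Continuous (deriv ((H⁻¹ : P) : ℝ → ℝ)) := hH.2.continuous_deriv (by simp)
  have l1 : Tendsto (fun m => E (-tm D.e m) (-D.e) (D.xs u m)) atTop (𝓝 1) := by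
    have hc : Continuous (fun p : ℝ × ℝ => Eb (-p.1) (-D.e) p.2) :=
      (Eb_comp contDiff_fst.neg contDiff_const contDiff_snd).continuous
    have h3 := (hc.tendsto (0, 1)).comp (ht.prodMk_nhds hx)
    have e0 : Eb (-(0, (1 : ℝ)).1) (-D.e) ((0 : ℝ), (1 : ℝ)).2 = 1 := by
      simp only [neg_zero]
      rw [Eb_eq (by norm_num) he, E_zero_one]
    rw [e0] at h3
    refine h3.congr' ?_
    filter_upwards [D.eventually_adm] with m h
    have ht' : |-tm D.e m| ≤ 1 / 4 := by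
      rw [abs_neg, abs_of_pos (tm_pos D.he0 h.hm)]; linarith [h.ht, D.he]
    simp only [Function.comp_apply]
    rw [Eb_eq ht' he]
  have l2 : Tendsto (fun m => rho (-tm D.e m) (-D.e) (D.xs u m)) atTop (𝓝 1) := by
    have hc : Continuous (fun p : ℝ × ℝ => rho (-p.1) (-D.e) p.2) := by
      unfold rho; fun_prop
    have h3 := (hc.tendsto (0, 1)).comp (ht.prodMk_nhds hx)
    have e0 : rho (-((0 : ℝ), (1 : ℝ)).1) (-D.e) ((0 : ℝ), (1 : ℝ)).2 = 1 := by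
      simp [rho]
    rw [e0] at h3
    exact h3
  have l3 : Tendsto (fun m => (1 + tm D.e m * D.e) / rho (-tm D.e m) (-D.e) (D.xs u m) * d) atTop
      (𝓝 d) := by
    have h3 : Tendsto (fun m => 1 + tm D.e m * D.e) atTop (𝓝 1) := by
      have := (ht.mul_const D.e).const_add 1
      simpa using this
    have := (h3.div l2 one_ne_zero).mul_const d
    simpa using this
  have l4 : Tendsto (fun m => deriv H (E (-tm D.e m) (-D.e) (D.xs u m) / q)) atTop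
      (𝓝 (deriv H (1 / q))) := (c1.tendsto _).comp (l1.div_const _)
  have l5 : Tendsto (fun m => deriv ((H⁻¹ : P) : ℝ → ℝ) (H (D.xs u m / q))) atTop
      (𝓝 (deriv ((H⁻¹ : P) : ℝ → ℝ) (H (1 / q)))) :=
    (c2.tendsto _).comp ((hH.1.continuous.tendsto _).comp (hx.div_const _))
  have h3 := (l4.mul l3).mul l5
  have e0 : deriv H (1 / q) * d * deriv ((H⁻¹ : P) : ℝ → ℝ) (H (1 / q)) = d := by
    have := Sm.deriv_mul_inv hH (1 / (q : ℝ))
    linear_combination d * this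
  rw [e0] at h3
  exact h3

theorem kappa_pos (D : Dat) : 0 < b D.c / D.X.M := by
  rw [b_eq (by rw [abs_of_pos D.hc0]; linarith [D.hc])]
  exact div_pos D.hc0 D.X.hM

theorem eventually_steep (D : Dat) {H : P} (hH : H ∈ Sm) {q : ℕ} (hq : (q : ℝ) ≠ 0) {N : ℕ}
    (hN : 0 < N) :
    ∀ᶠ m in atTop, ∀ h : D.Adm m, ∃ U U' : ℝ, |U - U'| ≤ 1 ∧
      (N : ℝ) * |U - U'| ^ (1 / (N : ℝ)) <
        |deriv (GG h H q hq : ℝ → ℝ) U - deriv (GG h H q hq : ℝ → ℝ) U'| := by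
  have hη := D.η_pos
  have hη1 := D.η_lt
  set κ := b D.c / D.X.M with hκ
  have hκ0 : 0 < κ := kappa_pos D
  have u1 : (1 : ℝ) / 2 < 1 / 2 + D.η / 2 := by linarith
  have u2 : (1 : ℝ) / 2 + D.η / 2 < 1 / 2 + D.η := by linarith
  have v1 : (1 : ℝ) / 2 < 1 / 2 + D.η / 8 := by linarith
  have v2 : (1 : ℝ) / 2 + D.η / 8 < 1 / 2 + D.η := by linarith
  have hV := (tendsto_value D hH q (1 + κ) u1.le u2.le).sub (tendsto_value D hH q 1 v1.le v2.le)
  have hVa := hV.abs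
  have e0 : |1 + κ - 1| = κ := by rw [add_sub_cancel_left]; exact abs_of_pos hκ0
  rw [e0] at hVa
  have hxu := tendsto_xs D u1.le u2.le
  have hxv := tendsto_xs D v1.le v2.le
  have hU : Tendsto (fun m => |H (D.xs (1 / 2 + D.η / 2) m / q) - H (D.xs (1 / 2 + D.η / 8) m / q)|)
      atTop (𝓝 0) := by
    have a1 := (hH.1.continuous.tendsto _).comp (hxu.div_const (q : ℝ))
    have a2 := (hH.1.continuous.tendsto _).comp (hxv.div_const (q : ℝ))
    have := (a1.sub a2).abs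
    simpa using this
  have hUp : Tendsto (fun m => (N : ℝ) * |H (D.xs (1 / 2 + D.η / 2) m / q)
      - H (D.xs (1 / 2 + D.η / 8) m / q)| ^ (1 / (N : ℝ))) atTop (𝓝 0) := by
    have hNpos : (0 : ℝ) < 1 / (N : ℝ) := by positivity
    have := (hU.rpow_const (Or.inr hNpos.le)).const_mul (N : ℝ)
    rw [zero_rpow hNpos.ne', mul_zero] at this
    exact this
  have f1 := hVa.eventually_const_lt (u := κ / 2) (by linarith)
  have f2 := hUp.eventually_lt_const (u := κ / 2) (by linarith)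
  have f3 := hU.eventually_le_const (u := 1) (by norm_num)
  filter_upwards [f1, f2, f3, eventually_ge_atTop 4] with m g1 g2 g3 g4 h
  refine ⟨H (D.xs (1 / 2 + D.η / 2) m / q), H (D.xs (1 / 2 + D.η / 8) m / q), g3, ?_⟩
  have hfix1 : D.X.g (D.c, 1 / 2 + D.η / 2) = 1 / 2 + D.η / 2 := D.X.gfix D.c
  have hd1 : HasDerivAt (fun x => D.X.g (D.c, x)) (1 + κ) (1 / 2 + D.η / 2) := D.X.gderiv D.c
  have hid : ∀ x, 1 / 2 ≤ x → x ≤ 1 / 2 + D.η / 4 → D.X.g (D.c, x) = x := by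
    intro x h3 h4
    unfold η at hη hη1 h4
    exact D.X.g_eq_of hη hη1 D.c x h3 (by linarith) (Or.inl h4)
  have hfix2 : D.X.g (D.c, 1 / 2 + D.η / 8) = 1 / 2 + D.η / 8 := hid _ (by linarith) (by linarith)
  have hd2 : HasDerivAt (fun x => D.X.g (D.c, x)) 1 (1 / 2 + D.η / 8) := by
    refine (hasDerivAt_id _).congr_of_eventuallyEq ?_
    have n1 : Ioo (1 / 2 : ℝ) (1 / 2 + D.η / 4) ∈ 𝓝 (1 / 2 + D.η / 8) :=
      Ioo_mem_nhds (by linarith) (by linarith)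
    filter_upwards [n1] with x hx
    exact hid x hx.1.le hx.2.le
  rw [hasDerivAt_GG h g4 hH hq u1 u2 hfix1 hd1, hasDerivAt_GG h g4 hH hq v1 v2 hfix2 hd2]
  exact g2.trans g1

end Dat

end Pool.Agent.Helper802.Mob
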