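import Mathlib
import Pool.Agent.Helper802.MobO

set_option autoImplicit false

open Real Set Filter
open scoped Topology ContDiff

noncomputable section

namespace Pool.Agent.Helper802.Mob

/-- stages: smooth conjugates of rational rotations -/
structure St where
  H : P
  hH : H ∈ Sm
  hc : Commute H (tr 1)
  p : ℤ
  q : ℕ
  hq : 0 < q
  cop : IsCoprime p (q : ℤ)

namespace St

variable (S : St)

def f : P := S.H * tr (S.p / S.q) * S.H⁻¹

theorem f_mem : S.f ∈ Sm := Sm.mul_mem (Sm.mul_mem S.hH (tr_mem _)) (Sm.inv_mem S.hH)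

theorem f_comm : Commute S.f (tr 1) := (S.hc.mul_left (tr_comm _ _)).mul_left S.hc.inv_left

theorem hq' : (S.q : ℝ) ≠ 0 := by exact_mod_cast S.hq.ne'

end St

theorem comm_tr_int' {σ : P} (h : Commute σ (tr 1)) (n : ℤ) : Commute σ (tr n) := by
  have := comm_tr_int h n
  rwa [mul_one] at this

theorem exists_m (p : ℤ) (q : ℕ) (hq : 0 < q) (hc : IsCoprime p (q : ℤ)) (M : ℕ) :
    ∃ (m : ℕ) (k : ℤ), M ≤ m ∧ k * q = m * p + 1 := by
  obtain ⟨a, b', hab⟩ := hc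
  have hq' : (q : ℤ) ≠ 0 := by exact_mod_cast hq.ne'
  have h0 : 0 ≤ (-a) % (q : ℤ) := Int.emod_nonneg _ hq'
  refine ⟨((-a) % (q : ℤ)).toNat + q * M, b' - ((-a) / (q : ℤ)) * p + M * p, ?_, ?_⟩
  · have : M ≤ q * M := Nat.le_mul_of_pos_left M hq
    omega
  · push_cast
    rw [Int.toNat_of_nonneg h0]
    have h1 := Int.emod_add_mul_ediv (-a) (q : ℤ)
    have h2 : (-a) % (q : ℤ) = -a - q * ((-a) / (q : ℤ)) := by linarith
    rw [h2]
    linear_combination hab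

theorem inv_aux (H BC : P) (q : ℝ) (hq : q ≠ 0) :
    (H * sc q hq BC⁻¹)⁻¹ = sc q hq BC * H⁻¹ := by
  rw [mul_inv_rev, ← sc_inv, inv_inv]

theorem conj_aux (H σ : P) (m : ℕ) : (H * σ * H⁻¹) ^ m = H * σ ^ m * H⁻¹ := conj_pow

open Dat in
theorem step (S : St) (N : ℕ) (hN : 0 < N) (n : ℕ) (δ : ℝ) (hδ : 0 < δ) :
    ∃ S' : St, (∀ j ≤ n, ∀ x, |iteratedDeriv j (fun x => S'.f x - S.f x) x| ≤ δ) ∧
      ∃ (m : ℕ) (k : ℤ) (U U' : ℝ), N < m ∧ IsCoprime k (m : ℤ) ∧ |U - U'| ≤ 1 ∧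
        (N : ℝ) * |U - U'| ^ (1 / (N : ℝ)) <
          |deriv ((S'.f ^ m : P) : ℝ → ℝ) U - deriv ((S'.f ^ m : P) : ℝ → ℝ) U'| ∧
        |(S'.p : ℝ) / S'.q - k / m| < 1 / (2 * (m : ℝ) ^ 2) := by
  obtain ⟨e, he0, he, hX⟩ := exists_close S.H S.hH S.hc (S.p / S.q) S.q S.hq n δ hδ
  have hη0 : 0 < arctan e / π := div_pos (arctan_pos.2 he0) pi_pos
  have hη1 : arctan e / π < 1 / 4 := by
    rw [div_lt_iff₀ pi_pos]
    have h1 : arctan e < π / 4 := by
      rw [← arctan_one]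
      exact arctan_strictMono (by linarith)
    linarith
  obtain ⟨X⟩ := exists_HFam _ hη0 hη1
  obtain ⟨c, hc0, hc, hclose⟩ := hX X
  let D : Dat := ⟨e, he0, he, X, c, hc0, hc⟩
  have hev := D.eventually_adm.and (eventually_steep D S.hH S.hq' hN)
  obtain ⟨M, hM⟩ := eventually_atTop.1 hev
  obtain ⟨m, k, hmM, hk⟩ := exists_m S.p S.q S.hq S.cop (max M (N + 1))
  obtain ⟨hadm, hsteep⟩ := hM m ((le_max_left _ _).trans hmM)
  have hNm : N < m := lt_of_lt_of_le (Nat.lt_succ_self N) ((le_max_right _ _).trans hmM)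
  obtain ⟨U, U', hU1, hU2⟩ := hsteep hadm
  have hm0 : 0 < m := by omega
  have hmR : (0 : ℝ) < m := by exact_mod_cast hm0
  have hq0 := S.hq'
  have hqR : (0 : ℝ) < S.q := by exact_mod_cast S.hq
  set K := ctx hadm with hK
  set BC : P := K.B * K.C with hBC
  have hBCm : BC ∈ Sm := Sm.mul_mem (B_mem hadm) (C_mem hadm)
  have hBCc : Commute BC (tr 1) := (B_comm hadm).mul_left K.C_comm
  have hθ : K.θ = 1 / (2 * (m : ℝ) + 1) := rfl
  have hscc : ∀ {σ : P}, Commute σ (tr 1) → Commute (sc S.q hq0 σ) (tr 1) := by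
    intro σ hσ
    have h1 : Commute (sc S.q hq0 σ) (sc S.q hq0 (tr 1)) := sc_comm _ _ hσ
    rw [sc_tr] at h1
    have h2 := comm_tr_int h1 S.q
    have h3 : ((S.q : ℤ) : ℝ) * (1 / (S.q : ℝ)) = 1 := by
      push_cast; field_simp
    rwa [h3] at h2
  let S' : St :=
    { H := S.H * sc S.q hq0 BC⁻¹
      hH := Sm.mul_mem S.hH (sc_mem _ _ (Sm.inv_mem hBCm))
      hc := S.hc.mul_left (hscc hBCc.inv_left)
      p := S.p * (2 * m + 1) + 2
      q := S.q * (2 * m + 1)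
      hq := Nat.mul_pos S.hq (by omega)
      cop := by
        push_cast
        apply IsCoprime.mul_right
        · have h1 : S.p * (2 * (m : ℤ) + 1) + 2 = S.p + (S.q : ℤ) * (2 * k) := by
            linear_combination (-2) * hk
          rw [h1]
          exact S.cop.add_mul_left_left (2 * k)
        · have h2 : IsCoprime (2 : ℤ) (2 * (m : ℤ) + 1) := ⟨-m, 1, by ring⟩
          have h3 := h2.add_mul_left_left S.p
          have h4 : S.p * (2 * (m : ℤ) + 1) + 2 = 2 + (2 * (m : ℤ) + 1) * S.p := by ring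
          rw [h4]; exact h3 }
  have hf' : S'.f = S.H * sc S.q hq0 (tr S.p * K.Φ) * S.H⁻¹ := by
    have h1 : (S'.p : ℝ) / S'.q = ((S.p : ℝ) + 2 * K.θ) / S.q := by
      show ((S.p * (2 * m + 1) + 2 : ℤ) : ℝ) / ((S.q * (2 * m + 1) : ℕ) : ℝ) = _
      rw [hθ]; push_cast
      field_simp
    have h2 : (BC⁻¹ : P) * tr (S.p : ℝ) = tr (S.p : ℝ) * BC⁻¹ :=
      (comm_tr_int' hBCc.inv_left S.p).eq
    show S.H * sc S.q hq0 BC⁻¹ * tr ((S'.p : ℝ) / S'.q) * (S.H * sc S.q hq0 BC⁻¹)⁻¹ = _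
    rw [h1, ← sc_tr (S.q : ℝ) hq0, inv_aux S.H BC S.q hq0]
    calc S.H * sc S.q hq0 BC⁻¹ * sc S.q hq0 (tr ((S.p : ℝ) + 2 * K.θ)) * (sc S.q hq0 BC * S.H⁻¹)
        = S.H * (sc S.q hq0 BC⁻¹ * sc S.q hq0 (tr ((S.p : ℝ) + 2 * K.θ)) * sc S.q hq0 BC) * S.H⁻¹ := by
          group
      _ = S.H * sc S.q hq0 (BC⁻¹ * tr ((S.p : ℝ) + 2 * K.θ) * BC) * S.H⁻¹ := by
          rw [← sc_mul, ← sc_mul]
      _ = _ := by
          have h3 : BC⁻¹ * tr ((S.p : ℝ) + 2 * K.θ) * BC = tr S.p * K.Φ := by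
            rw [K.Φ_conj, ← hBC, tr_add]
            calc BC⁻¹ * (tr (S.p : ℝ) * tr (2 * K.θ)) * BC
                = (BC⁻¹ * tr (S.p : ℝ)) * tr (2 * K.θ) * BC := by group
              _ = (tr (S.p : ℝ) * BC⁻¹) * tr (2 * K.θ) * BC := by rw [h2]
              _ = _ := by group
          rw [h3]
  refine ⟨S', ?_, m, k, U, U', hNm, ?_, hU1, ?_, ?_⟩
  · intro j hj x
    have h1 := hclose (tm D.e m) (tm_pos D.he0 hm0).le hadm.ht j hj x
    have h2 : (fun x => S'.f x - S.f x) = fun x =>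
        S.H (S.p / S.q + Φf X e c (tm D.e m) (S.q * S.H⁻¹ x) / S.q) - S.H (S.p / S.q + S.H⁻¹ x) := by
      funext x
      have h3 : S'.f x = S.H (S.p / S.q + Φf X e c (tm D.e m) (S.q * S.H⁻¹ x) / S.q) := by
        rw [hf']
        simp only [Equiv.Perm.mul_apply, sc_apply, tr_apply]
        rw [hK, ctx_Φ hadm]
        congr 1
        rw [add_div, add_comm]
      have h4 : S.f x = S.H (S.p / S.q + S.H⁻¹ x) := by
        simp only [St.f, Equiv.Perm.mul_apply, tr_apply]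
        rw [add_comm]
      rw [h3, h4]
    rw [h2]
    exact h1
  · exact ⟨S.q, -S.p, by linear_combination hk⟩
  · have h1 : S'.f ^ m = tr k * GG hadm S.H S.q hq0 := by
      have hΦc : Commute K.Φ (tr 1) := by
        have h0 : Commute (K.E ^ 2) (tr 1) := K.E_comm.pow_left 2
        exact (K.C_comm.inv_left.mul_left h0).mul_left K.C_comm
      have hpΦ : Commute (tr (S.p : ℝ)) K.Φ := (comm_tr_int' hΦc S.p).symm
      have h2 : (S.H * sc S.q hq0 (tr S.p * K.Φ) * S.H⁻¹) ^ m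
          = S.H * (sc S.q hq0 (tr S.p * K.Φ)) ^ m * S.H⁻¹ := conj_aux _ _ _
      have h3 : (tr (S.p : ℝ) * K.Φ) ^ m = tr (k * S.q) * K.Ω := by
        rw [hpΦ.mul_pow, tr_pow, show K.Φ ^ m = tr 1 * K.Ω from K.Φ_pow_m, ← mul_assoc, ← tr_add]
        congr 2
        have : ((k * S.q : ℤ) : ℝ) = ((m * S.p + 1 : ℤ) : ℝ) := by rw [hk]
        push_cast at this
        linarith
      have h4 : Commute (tr (k : ℝ)) S.H := (comm_tr_int' S.hc k).symm
      rw [hf', h2, ← sc_pow, h3, sc_mul, sc_tr, mul_div_assoc, div_self hq0, mul_one]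
      calc S.H * (tr (k : ℝ) * sc S.q hq0 K.Ω) * S.H⁻¹
          = (S.H * tr (k : ℝ)) * sc S.q hq0 K.Ω * S.H⁻¹ := by group
        _ = (tr (k : ℝ) * S.H) * sc S.q hq0 K.Ω * S.H⁻¹ := by rw [h4.eq]
        _ = tr (k : ℝ) * (S.H * sc S.q hq0 K.Ω * S.H⁻¹) := by group
        _ = _ := rfl
    have h5 : ((S'.f ^ m : P) : ℝ → ℝ) = fun x => (GG hadm S.H S.q hq0 : ℝ → ℝ) x + k := by
      rw [h1]; rfl
    have h6 : deriv ((S'.f ^ m : P) : ℝ → ℝ) = deriv (GG hadm S.H S.q hq0 : ℝ → ℝ) := by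
      rw [h5]
      funext x
      exact deriv_add_const _
    rw [h6]
    exact hU2
  · show |((S.p * (2 * m + 1) + 2 : ℤ) : ℝ) / ((S.q * (2 * m + 1) : ℕ) : ℝ) - k / m| < _
    have hkR : (k : ℝ) = (m * S.p + 1) / S.q := by
      rw [eq_div_iff hq0]; exact_mod_cast hk
    have h1 : ((S.p * (2 * m + 1) + 2 : ℤ) : ℝ) / ((S.q * (2 * m + 1) : ℕ) : ℝ) - k / m
        = - (1 / (S.q * m * (2 * m + 1))) := by
      rw [hkR]; push_cast
      field_simp
      ring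
    rw [h1, abs_neg, abs_of_pos (by positivity)]
    apply one_div_lt_one_div_of_lt (by positivity)
    have hq1 : (1 : ℝ) ≤ S.q := by exact_mod_cast S.hq
    have hm1 : (1 : ℝ) ≤ m := by exact_mod_cast hm0
    nlinarith [mul_pos hmR hmR, mul_le_mul_of_nonneg_right hq1 (show (0 : ℝ) ≤ m * (2 * m + 1) by positivity)]

end Pool.Agent.Helper802.Mob
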