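import Mathlib
import Pool.Agent.Helper802.MobP

set_option autoImplicit false

open Real Set Filter
open scoped Topology ContDiff

noncomputable section

namespace Pool.Agent.Helper802.Mob

/-! ### continuity of the rotation number and of the derivatives of iterates -/

theorem tendsto_iterate {F : ℕ → ℝ → ℝ} {f : ℝ → ℝ} (hf : Continuous f)
    (h : TendstoUniformly F f atTop) (m : ℕ) (x : ℝ) :
    Tendsto (fun i => (F i)^[m] x) atTop (𝓝 (f^[m] x)) := by
  induction m with
  | zero => simp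
  | succ m ih =>
    simp only [Function.iterate_succ_apply']
    exact h.tendsto_comp hf.continuousAt ih

theorem tendsto_transl {F : ℕ → CircleDeg1Lift} {f : CircleDeg1Lift} (hf : Continuous f)
    (h : TendstoUniformly (fun i => (F i : ℝ → ℝ)) f atTop) :
    Tendsto (fun i => (F i).translationNumber) atTop (𝓝 f.translationNumber) := by
  rw [Metric.tendsto_nhds]
  intro ε hε
  obtain ⟨n, hn⟩ := exists_nat_gt (3 / ε)
  have hn0 : (0 : ℝ) < n := lt_trans (by positivity) hn
  have h3 : 3 < ε * n := by rwa [div_lt_iff₀' hε] at hn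
  have h1 := tendsto_iterate hf h n 0
  rw [Metric.tendsto_nhds] at h1
  filter_upwards [h1 1 one_pos] with i hi
  have a1 := (F i).dist_pow_map_zero_mul_translationNumber_le n
  have a2 := f.dist_pow_map_zero_mul_translationNumber_le n
  rw [CircleDeg1Lift.coe_pow] at a1 a2
  rw [Real.dist_eq] at *
  rw [abs_le] at a1 a2
  rw [abs_lt] at hi
  have h4 : |(n : ℝ) * ((F i).translationNumber - f.translationNumber)| < ε * n := by
    rw [abs_lt]
    constructor <;> nlinarith [a1.1, a1.2, a2.1, a2.2, hi.1, hi.2]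
  rw [abs_mul, abs_of_pos hn0, mul_comm] at h4
  exact lt_of_mul_lt_mul_right h4 hn0.le

theorem hasDerivAt_iterate {F : ℝ → ℝ} (hF : Differentiable ℝ F) (m : ℕ) (x : ℝ) :
    HasDerivAt (F^[m]) (∏ j ∈ Finset.range m, deriv F (F^[j] x)) x := by
  induction m with
  | zero => simpa using hasDerivAt_id x
  | succ m ih =>
    rw [Function.iterate_succ', Finset.prod_range_succ, mul_comm]
    exact (hF _).hasDerivAt.comp x ih

theorem tendsto_deriv_iterate {F : ℕ → ℝ → ℝ} {f : ℝ → ℝ} (hf : ContDiff ℝ 1 f)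
    (hF : ∀ i, Differentiable ℝ (F i))
    (h : TendstoUniformly F f atTop) (h' : TendstoUniformly (fun i => deriv (F i)) (deriv f) atTop)
    (m : ℕ) (x : ℝ) :
    Tendsto (fun i => deriv ((F i)^[m]) x) atTop (𝓝 (deriv (f^[m]) x)) := by
  have hd : Differentiable ℝ f := hf.differentiable (by simp)
  have hc : Continuous (deriv f) := hf.continuous_deriv (by simp)
  rw [(hasDerivAt_iterate hd m x).deriv]
  have : (fun i => deriv ((F i)^[m]) x)
      = fun i => ∏ j ∈ Finset.range m, deriv (F i) ((F i)^[j] x) := by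
    funext i
    exact (hasDerivAt_iterate (hF i) m x).deriv
  rw [this]
  refine tendsto_finsetProd _ fun j _ => ?_
  exact h'.tendsto_comp hc.continuousAt (tendsto_iterate hf.continuous h j x)

/-! ### steepness -/

def Steep (N : ℕ) (F : CircleDeg1Lift) : Prop :=
  ∃ (m : ℕ) (k : ℤ) (U U' : ℝ), N < m ∧ IsCoprime k (m : ℤ) ∧ |U - U'| ≤ 1 ∧
    (N : ℝ) * |U - U'| ^ (1 / (N : ℝ)) < |deriv (F^[m]) U - deriv (F^[m]) U'| ∧
    |F.translationNumber - k / m| < 1 / (2 * (m : ℝ) ^ 2)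

theorem exists_radius (f : CircleDeg1Lift) (hf : ContDiff ℝ 1 f) (N : ℕ) (h : Steep N f) :
    ∃ δ > 0, ∀ F : CircleDeg1Lift, Differentiable ℝ F → (∀ x, |F x - f x| ≤ δ) →
      (∀ x, |deriv F x - deriv f x| ≤ δ) → Steep N F := by
  by_contra hcon
  push Not at hcon
  have hpos : ∀ i : ℕ, (0 : ℝ) < 1 / ((i : ℝ) + 1) := fun i => by positivity
  choose F hFd hF0 hF1 hFs using fun i : ℕ => hcon (1 / ((i : ℝ) + 1)) (hpos i)
  have hu : ∀ {G : ℕ → ℝ → ℝ} {g : ℝ → ℝ}, (∀ i x, |G i x - g x| ≤ 1 / ((i : ℝ) + 1)) →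
      TendstoUniformly G g atTop := by
    intro G g hG
    rw [Metric.tendstoUniformly_iff]
    intro ε hε
    have := (tendsto_one_div_add_atTop_nhds_zero_nat (𝕜 := ℝ)).eventually_lt_const hε
    filter_upwards [this] with i hi x
    rw [dist_comm, Real.dist_eq]
    exact (hG i x).trans_lt hi
  have hU0 : TendstoUniformly (fun i => (F i : ℝ → ℝ)) f atTop := hu hF0
  have hU1 : TendstoUniformly (fun i => deriv (F i : ℝ → ℝ)) (deriv f) atTop := hu hF1
  obtain ⟨m, k, U, U', hm, hk, hUU, hs, hτ⟩ := h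
  have t1 := tendsto_transl hf.continuous hU0
  have t2 := tendsto_deriv_iterate hf hFd hU0 hU1 m U
  have t3 := tendsto_deriv_iterate hf hFd hU0 hU1 m U'
  have e1 := ((t2.sub t3).abs).eventually_const_lt hs
  have e2 := ((t1.sub_const ((k : ℝ) / m)).abs).eventually_lt_const hτ
  obtain ⟨i, h1, h2⟩ := (e1.and e2).exists
  exact hFs i ⟨m, k, U, U', hm, hk, hUU, h1, h2⟩

/-! ### stages as lifts of degree one circle maps -/

theorem monotone_of_Sm {σ : P} (h : σ ∈ Sm) (hc : Commute σ (tr 1)) : Monotone σ := by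
  have h1 : Continuous σ := h.1.continuous
  have h2 := h1.strictMono_of_inj σ.injective
  rcases h2 with h2 | h2
  · exact h2.monotone
  · exfalso
    have := comm_apply hc 0
    have h3 := h2 (show (0 : ℝ) < 0 + 1 by norm_num)
    linarith

def toL (σ : P) (h : σ ∈ Sm) (hc : Commute σ (tr 1)) : CircleDeg1Lift :=
  ⟨⟨σ, monotone_of_Sm h hc⟩, comm_apply hc⟩

@[simp] theorem toL_apply (σ : P) (h : σ ∈ Sm) (hc : Commute σ (tr 1)) (x : ℝ) :
    toL σ h hc x = σ x := rfl

theorem toL_mul {σ τ : P} (h : σ ∈ Sm) (hc : Commute σ (tr 1)) (h' : τ ∈ Sm)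
    (hc' : Commute τ (tr 1)) :
    toL (σ * τ) (Sm.mul_mem h h') (hc.mul_left hc') = toL σ h hc * toL τ h' hc' := rfl

namespace St

variable (S : St)

def L : CircleDeg1Lift := toL S.f S.f_mem S.f_comm

@[simp] theorem L_apply (x : ℝ) : S.L x = S.f x := rfl

theorem L_coe : (S.L : ℝ → ℝ) = S.f := rfl

theorem L_contDiff : ContDiff ℝ ∞ S.L := S.f_mem.1

theorem L_transl : S.L.translationNumber = S.p / S.q := by
  have h0 : Commute (tr ((S.p : ℝ) / S.q)) (tr 1) := tr_comm _ _
  have h1 : Function.Semiconj (toL S.H S.hH S.hc) (toL (tr ((S.p : ℝ) / S.q)) (tr_mem _) h0) S.L := by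
    intro x
    simp only [toL_apply, L_apply, f, Equiv.Perm.mul_apply, inv_ap]
  rw [← CircleDeg1Lift.translationNumber_eq_of_semiconj h1]
  have h2 : toL (tr ((S.p : ℝ) / S.q)) (tr_mem _) h0
      = CircleDeg1Lift.translate (Multiplicative.ofAdd ((S.p : ℝ) / S.q)) := by
    ext x
    rw [toL_apply, tr_apply, CircleDeg1Lift.translate_apply, add_comm]
  rw [h2, CircleDeg1Lift.translationNumber_translate]

theorem iterate_eq (m : ℕ) : ((S.f ^ m : P) : ℝ → ℝ) = (S.L : ℝ → ℝ)^[m] := by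
  rw [L_coe]
  exact Equiv.Perm.coe_pow _ _

end St

theorem exists_next (S : St) (N : ℕ) (hN : 0 < N) (n : ℕ) (δ : ℝ) (hδ : 0 < δ) :
    ∃ (S' : St) (δ' : ℝ), 0 < δ' ∧ δ' ≤ δ / 2 ∧
      (∀ j ≤ n, ∀ x, |iteratedDeriv j (fun x => S'.L x - S.L x) x| ≤ δ / 2) ∧
      ∀ F : CircleDeg1Lift, Differentiable ℝ F → (∀ x, |F x - S'.L x| ≤ δ') →
        (∀ x, |deriv F x - deriv S'.L x| ≤ δ') → Steep N F := by
  obtain ⟨S', h1, m, k, U, U', hm, hk, hU, hs, hτ⟩ := step S N hN n (δ / 2) (by positivity)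
  have hst : Steep N S'.L := by
    refine ⟨m, k, U, U', hm, hk, hU, ?_, ?_⟩
    · rw [← S'.iterate_eq]; exact hs
    · rw [S'.L_transl]; exact hτ
  obtain ⟨δ', hδ', h2⟩ := exists_radius S'.L (S'.L_contDiff.of_le (by simp)) N hst
  refine ⟨S', min δ' (δ / 2), lt_min hδ' (by positivity), min_le_right _ _, h1, ?_⟩
  intro F hF h3 h4
  exact h2 F hF (fun x => (h3 x).trans (min_le_left _ _)) (fun x => (h4 x).trans (min_le_left _ _))

end Pool.Agent.Helper802.Mob
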