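import Mathlib
import Pool.Agent.Helper802.MobQ
import Pool.Agent.Helper802.Lifts

set_option autoImplicit false

open Real Set Filter
open scoped Topology ContDiff

noncomputable section

namespace Pool.Agent.Helper802.Mob

/-! ### the limit diffeomorphism -/

structure Stg where
  S : St
  δ : ℝ
  hδ : 0 < δ

def S0 : St where
  H := 1
  hH := Sm.one_mem
  hc := Commute.one_left _
  p := 0
  q := 1
  hq := one_pos
  cop := by simpa using isCoprime_one_right

def Next (n : ℕ) (X Y : Stg) : Prop :=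
  Y.δ ≤ X.δ / 2 ∧ (∀ j ≤ n + 1, ∀ x, |iteratedDeriv j (fun x => Y.S.L x - X.S.L x) x| ≤ X.δ / 2) ∧
    ∀ F : CircleDeg1Lift, Differentiable ℝ F → (∀ x, |F x - Y.S.L x| ≤ Y.δ) →
        (∀ x, |deriv F x - deriv Y.S.L x| ≤ Y.δ) → Steep (n + 1) F

theorem exists_Next (n : ℕ) (X : Stg) : ∃ Y, Next n X Y := by
  obtain ⟨S', δ', h0, h1, h2, h3⟩ := exists_next X.S (n + 1) (Nat.succ_pos n) (n + 1) X.δ X.hδ
  exact ⟨⟨S', δ', h0⟩, h1, h2, h3⟩

theorem exists_seq : ∃ X : ℕ → Stg, X 0 = ⟨S0, 1 / 4, by norm_num⟩ ∧ ∀ n, Next n (X n) (X (n + 1)) := by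
  choose nx hnx using exists_Next
  exact ⟨fun n => Nat.rec ⟨S0, 1 / 4, by norm_num⟩ (fun n X => nx n X) n, rfl, fun n => hnx n _⟩

theorem telescoping {a δ : ℕ → ℝ} (h1 : ∀ n, δ (n + 1) ≤ δ n / 2)
    (h2 : ∀ n, |a (n + 1) - a n| ≤ δ n / 2) (n i : ℕ) : |a (n + i) - a n| ≤ δ n - δ (n + i) := by
  induction i with
  | zero => simp
  | succ i ih =>
    have h3 := h1 (n + i)
    have h4 := h2 (n + i)
    rw [show n + (i + 1) = n + i + 1 by ring]
    calc |a (n + i + 1) - a n| = |(a (n + i + 1) - a (n + i)) + (a (n + i) - a n)| := by ring_nf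
      _ ≤ |a (n + i + 1) - a (n + i)| + |a (n + i) - a n| := abs_add_le _ _
      _ ≤ _ := by linarith

theorem tele_lim {a δ : ℕ → ℝ} {A : ℝ} (h0 : ∀ n, 0 < δ n) (h1 : ∀ n, δ (n + 1) ≤ δ n / 2)
    (h2 : ∀ n, |a (n + 1) - a n| ≤ δ n / 2) (hA : Tendsto a atTop (𝓝 A)) (n : ℕ) :
    |A - a n| ≤ δ n := by
  have h3 : Tendsto (fun i => |a (n + i) - a n|) atTop (𝓝 |A - a n|) := by
    have h4 : Tendsto (fun i => a (n + i)) atTop (𝓝 A) := by
      have := (tendsto_add_atTop_iff_nat (f := a) n).2 hA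
      refine this.congr fun i => by rw [add_comm]
    exact (h4.sub_const _).abs
  refine le_of_tendsto h3 (Eventually.of_forall fun i => ?_)
  exact (telescoping h1 h2 n i).trans (by linarith [h0 (n + i)])

theorem limit_exists : ∃ F : CircleDeg1Lift, ContDiff ℝ ∞ F ∧ (∀ x, 3 / 4 ≤ deriv F x) ∧
    ∀ N, 0 < N → Steep N F := by
  obtain ⟨X, hX0, hX⟩ := exists_seq
  set δ : ℕ → ℝ := fun n => (X n).δ with hδ
  set g : ℕ → ℝ → ℝ := fun n => (X n).S.L with hg
  have hδ0 : ∀ n, 0 < δ n := fun n => (X n).hδ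
  have hδ1 : ∀ n, δ (n + 1) ≤ δ n / 2 := fun n => (hX n).1
  have hδ2 : ∀ n, δ n ≤ (1 / 2) ^ n := by
    intro n
    induction n with
    | zero =>
      have : δ 0 = 1 / 4 := by simp only [hδ, hX0]
      rw [this]; norm_num
    | succ n ih =>
      rw [pow_succ]
      linarith [hδ1 n]
  have hgs : ∀ n, ContDiff ℝ ∞ (g n) := fun n => (X n).S.L_contDiff
  have hgd : ∀ n, Differentiable ℝ (g n) := fun n => (hgs n).differentiable (by simp)
  have hclose : ∀ n, ∀ j ≤ n + 1, ∀ x, |iteratedDeriv j (fun x => g (n + 1) x - g n x) x| ≤ δ n / 2 :=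
    fun n => (hX n).2.1
  obtain ⟨G, hG, hlim⟩ := exists_smooth_limit g hgs (by
    intro n k hk y
    rw [norm_iteratedFDeriv_eq_norm_iteratedDeriv, Real.norm_eq_abs]
    refine (hclose n k (by omega) y).trans ?_
    linarith [hδ2 n, hδ0 n])
  have h0 : ∀ n x, |g (n + 1) x - g n x| ≤ δ n / 2 := by
    intro n x
    simpa using hclose n 0 (by omega) x
  have h1 : ∀ n x, |deriv (g (n + 1)) x - deriv (g n) x| ≤ δ n / 2 := by
    intro n x
    have := hclose n 1 (by omega) x
    rw [iteratedDeriv_one] at this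
    rwa [deriv_fun_sub (hgd _ x) (hgd _ x)] at this
  have hGd : Differentiable ℝ G := hG.differentiable (by simp)
  -- derivatives converge
  have hcau : ∀ x, ∃ l, Tendsto (fun n => deriv (g n) x) atTop (𝓝 l) := by
    intro x
    refine cauchySeq_tendsto_of_complete ?_
    refine cauchySeq_of_le_geometric (1 / 2) 1 (by norm_num) fun n => ?_
    rw [dist_comm, Real.dist_eq, one_mul]
    exact (h1 n x).trans (by linarith [hδ2 n, hδ0 n])
  choose l hl using hcau
  have hl1 : ∀ n x, |l x - deriv (g n) x| ≤ δ n := fun n x =>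
    tele_lim hδ0 hδ1 (fun n => h1 n x) (hl x) n
  have hun : TendstoUniformly (fun n => deriv (g n)) l atTop := by
    rw [Metric.tendstoUniformly_iff]
    intro ε hε
    have := (tendsto_pow_atTop_nhds_zero_of_lt_one (show (0 : ℝ) ≤ 1 / 2 by norm_num)
      (by norm_num)).eventually_lt_const hε
    filter_upwards [this] with i hi x
    rw [Real.dist_eq]
    exact (hl1 i x).trans_lt ((hδ2 i).trans_lt hi)
  have hder : ∀ x, HasDerivAt G (l x) x := by
    refine hasDerivAt_of_tendstoUniformly hun (Eventually.of_forall fun n x => (hgd n x).hasDerivAt) hlim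
  have hdG : ∀ x, deriv G x = l x := fun x => (hder x).deriv
  have hc0 : ∀ n x, |G x - g n x| ≤ δ n := fun n x =>
    tele_lim hδ0 hδ1 (fun n => h0 n x) (hlim x) n
  have hc1 : ∀ n x, |deriv G x - deriv (g n) x| ≤ δ n := fun n x => by
    rw [hdG]; exact hl1 n x
  have hpos : ∀ x, 3 / 4 ≤ deriv G x := by
    intro x
    have h2 := hc1 0 x
    have h3 : deriv (g 0) x = 1 := by
      have : g 0 = fun x => x := by
        funext x
        simp only [hg, hX0]
        simp [St.f, S0]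
      rw [this]; exact deriv_id x
    have h4 : δ 0 = 1 / 4 := by simp only [hδ, hX0]
    rw [h3, h4, abs_le] at h2
    linarith [h2.1]
  have hmono : Monotone G := by
    refine monotone_of_deriv_nonneg hGd fun x => ?_
    linarith [hpos x]
  have hper : ∀ x, G (x + 1) = G x + 1 := by
    intro x
    refine tendsto_nhds_unique (hlim (x + 1)) ?_
    refine ((hlim x).add_const 1).congr fun n => ?_
    exact ((X n).S.L.map_add_one x).symm
  refine ⟨⟨⟨G, hmono⟩, hper⟩, hG, hpos, ?_⟩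
  intro N hN
  obtain ⟨n, rfl⟩ : ∃ n, N = n + 1 := ⟨N - 1, by omega⟩
  exact (hX n).2.2 ⟨⟨G, hmono⟩, hper⟩ hGd (fun x => hc0 (n + 1) x) (fun x => hc1 (n + 1) x)

end Pool.Agent.Helper802.Mob
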