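import Mathlib
import Pool.Agent.Helper802.MobR
import Pool.Agent.Helper802.CircDefs

set_option autoImplicit false

open Real Set Filter
open scoped Topology ContDiff ENNReal

noncomputable section

namespace Pool.Agent.Helper802.Mob

open Pool.Agent.Helper802.Circ

/-! ### number theory -/

theorem irrational_of_steep {F : CircleDeg1Lift} (h : ∀ N, 0 < N → Steep N F) :
    Irrational F.translationNumber := by
  rintro ⟨r, hr⟩
  obtain ⟨m, k, -, -, hm, hk, -, -, hτ⟩ := h r.den r.den_pos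
  rw [← hr] at hτ
  have hm0 : 0 < m := lt_of_le_of_lt (Nat.zero_le _) hm
  have hmR : (0 : ℝ) < m := by exact_mod_cast hm0
  have hdR : (0 : ℝ) < r.den := by exact_mod_cast r.den_pos
  have hlt : (r.den : ℝ) < m := by exact_mod_cast hm
  have e1 : (r : ℝ) = r.num / r.den := by
    exact_mod_cast (Rat.num_div_den r).symm
  have e2 : (r : ℝ) - k / m = ((r.num * m - k * r.den : ℤ) : ℝ) / (r.den * m) := by
    rw [e1]; push_cast; field_simp
  rw [e2, abs_div, abs_of_pos (mul_pos hdR hmR)] at hτ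
  by_cases h0 : r.num * m - k * r.den = 0
  · have h1 : (m : ℤ) ∣ k * r.den := ⟨r.num, by linarith⟩
    have h2 : (m : ℤ) ∣ r.den := hk.symm.dvd_of_dvd_mul_left h1
    have h3 : m ∣ r.den := by exact_mod_cast h2
    exact absurd (Nat.le_of_dvd r.den_pos h3) (not_le.2 hm)
  · have h1 : (1 : ℝ) ≤ |((r.num * m - k * r.den : ℤ) : ℝ)| := by
      have := Int.one_le_abs h0
      exact_mod_cast this
    have h2 : 1 / ((r.den : ℝ) * m) < 1 / (2 * (m : ℝ) ^ 2) :=
      lt_of_le_of_lt (div_le_div_of_nonneg_right h1 (mul_pos hdR hmR).le) hτ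
    have h3 : 2 * (m : ℝ) ^ 2 < r.den * m :=
      lt_of_one_div_lt_one_div (by positivity) h2
    nlinarith

theorem exists_conv {τ : ℝ} {m : ℕ} {k : ℤ} (hm : 0 < m) (hk : IsCoprime k (m : ℤ))
    (h : |τ - k / m| < 1 / (2 * (m : ℝ) ^ 2)) :
    ∃ n, ((Int.fract τ).convergent n).den = m := by
  have hmR : (m : ℝ) ≠ 0 := by exact_mod_cast hm.ne'
  have hmZ : (m : ℤ) ≠ 0 := by exact_mod_cast hm.ne'
  set k' : ℤ := k + (m : ℤ) * (-⌊τ⌋) with hk'
  have hc : IsCoprime k' (m : ℤ) := hk.add_mul_left_left _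
  have hcn : Nat.Coprime k'.natAbs m := by
    have := Int.isCoprime_iff_gcd_eq_one.1 hc
    simpa [Int.gcd] using this
  set q : ℚ := ⟨k', m, hm.ne', hcn⟩ with hq
  have hqR : (q : ℝ) = (k' : ℝ) / m := by
    have h1 : (q : ℝ) = (q.num : ℝ) / q.den := by exact_mod_cast (Rat.num_div_den q).symm
    rw [h1]
  have hden : q.den = m := rfl
  have hlt : |Int.fract τ - q| < 1 / (2 * (q.den : ℝ) ^ 2) := by
    rw [hqR, hden]
    have : Int.fract τ - (k' : ℝ) / m = τ - k / m := by
      rw [Int.fract, hk']; push_cast; field_simp; ring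
    rw [this]; exact h
  obtain ⟨n, hn⟩ := Real.exists_rat_eq_convergent hlt
  exact ⟨n, by rw [← hn]⟩

/-! ### circle maps and lifts -/

theorem coe_eq_coe_iff {a c : ℝ} (h : (a : UnitAddCircle) = (c : UnitAddCircle)) :
    ∃ n : ℤ, a = c + n := by
  have h1 : ((a - c : ℝ) : UnitAddCircle) = 0 := by rw [AddCircle.coe_sub, h, sub_self]
  obtain ⟨n, hn⟩ := (AddCircle.coe_eq_zero_iff (1 : ℝ)).1 h1
  refine ⟨n, ?_⟩
  rw [zsmul_eq_mul, mul_one] at hn
  rw [hn]; ring

theorem lift_unique {g : UnitAddCircle → UnitAddCircle} {G G' : ℝ → ℝ} (h : IsLift g G)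
    (h' : IsLift g G') : ∃ n : ℤ, ∀ x, G x = G' x + n := by
  have h1 : ∀ x, ∃ n : ℤ, G x = G' x + n := fun x =>
    coe_eq_coe_iff ((h.2 x).symm.trans (h'.2 x))
  choose n hn using h1
  have hc : Continuous fun x => (n x : ℝ) := by
    have : (fun x => (n x : ℝ)) = fun x => G x - G' x := by
      funext x; rw [hn x]; ring
    rw [this]
    exact h.1.sub h'.1
  have hc' : Continuous n := by
    have := Int.isClosedEmbedding_coe_real.isEmbedding.continuous_iff (f := n)
    exact this.2 hc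
  refine ⟨n 0, fun x => ?_⟩
  have : n x = n 0 := PreconnectedSpace.constant inferInstance hc'
  rw [← this]; exact hn x

theorem IsLift.iterate {f : UnitAddCircle → UnitAddCircle} {F : ℝ → ℝ} (h : IsLift f F) (m : ℕ) :
    IsLift f^[m] F^[m] := by
  refine ⟨h.1.iterate m, ?_⟩
  induction m with
  | zero => intro x; rfl
  | succ m ih =>
    intro x
    rw [Function.iterate_succ_apply', Function.iterate_succ_apply', ih x, h.2]

def mkC (F : ℝ → ℝ) (h : ∀ x, F (x + 1) = F x + 1) : UnitAddCircle → UnitAddCircle :=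
  Function.Periodic.lift (f := fun x : ℝ => ((F x : ℝ) : UnitAddCircle)) (c := 1) (by
    intro x
    show ((F (x + 1) : ℝ) : UnitAddCircle) = _
    rw [h]
    exact AddCircle.coe_add_period 1 (F x))

theorem mkC_coe (F : ℝ → ℝ) (h : ∀ x, F (x + 1) = F x + 1) (x : ℝ) :
    mkC F h (x : UnitAddCircle) = ((F x : ℝ) : UnitAddCircle) := rfl

theorem mkC_continuous (F : ℝ → ℝ) (h : ∀ x, F (x + 1) = F x + 1) (hF : Continuous F) :
    Continuous (mkC F h) := by
  have h1 : Continuous fun x : ℝ => ((F x : ℝ) : UnitAddCircle) :=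
    (AddCircle.continuous_mk' (1 : ℝ)).comp hF
  exact continuous_coinduced_dom.2 h1

theorem bounded_of_periodic {u : ℝ → ℝ} (hu : Continuous u) (hper : ∀ x, u (x + 1) = u x) :
    ∃ B : ℝ, ∀ x, |u x| ≤ B := by
  obtain ⟨B, hB⟩ := isCompact_Icc.exists_bound_of_continuousOn (hu.continuousOn (s := Icc (0 : ℝ) 1))
  refine ⟨B, fun x => ?_⟩
  have h1 : u x = u (Int.fract x) := by
    conv_lhs => rw [← Int.fract_add_floor x]
    exact periodic_int hper _ _
  rw [h1]
  exact hB _ ⟨Int.fract_nonneg x, (Int.fract_lt_one x).le⟩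

theorem deriv_periodic {φ : ℝ → ℝ} (hper : ∀ x, φ (x + 1) = φ x + 1) (x : ℝ) :
    deriv φ (x + 1) = deriv φ x := by
  have h : (fun z => φ (z + 1)) = fun z => φ z + 1 := funext hper
  have h1 := congrArg (fun g => deriv g x) h
  simp only [deriv_comp_add_const, deriv_add_const] at h1
  exact h1

theorem lip_of_bound {u : ℝ → ℝ} (hu : Differentiable ℝ u) {L : ℝ} (h : ∀ x, |deriv u x| ≤ L)
    (x y : ℝ) : |u x - u y| ≤ L * |x - y| := by
  have := Convex.norm_image_sub_le_of_norm_deriv_le (f := u) (s := univ) (C := L) (x := y) (y := x)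
    (fun z _ => hu z) (fun z _ => h z) convex_univ (mem_univ _) (mem_univ _)
  simpa [Real.norm_eq_abs] using this

theorem isCt_of_smooth {φ : ℝ → ℝ} (hφ : ContDiff ℝ ∞ φ) (hper : ∀ x, φ (x + 1) = φ x + 1)
    {t : ℝ} (ht : 1 ≤ t) : IsCt t φ := by
  refine ⟨hφ.of_le (by exact_mod_cast le_top), fun hα => ?_⟩
  have hk : 1 ≤ ⌊t⌋₊ := (Nat.one_le_floor_iff t).2 ht
  obtain ⟨k, hk'⟩ : ∃ k, ⌊t⌋₊ = k + 1 := ⟨⌊t⌋₊ - 1, by omega⟩
  set u : ℝ → ℝ := iteratedDeriv ⌊t⌋₊ φ with hu
  have hus : ContDiff ℝ ∞ u := by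
    rw [hu, iteratedDeriv_eq_iterate]
    exact hφ.iterate_deriv _
  have hup : ∀ x, u (x + 1) = u x := by
    intro x
    rw [hu, hk', iteratedDeriv_succ']
    exact iteratedDeriv_add_one (deriv_periodic hper) k x
  have hud : Differentiable ℝ u := hus.differentiable (by simp)
  have hdc : Continuous (deriv u) := hus.continuous_deriv (by simp)
  obtain ⟨B, hB⟩ := bounded_of_periodic hus.continuous hup
  have hdp : ∀ x, deriv u (x + 1) = deriv u x := by
    intro x
    have h := iteratedDeriv_add_one hup 1 x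
    simpa [iteratedDeriv_one] using h
  obtain ⟨L, hL⟩ := bounded_of_periodic hdc hdp
  have hB0 : 0 ≤ B := (abs_nonneg _).trans (hB 0)
  have hL0 : 0 ≤ L := (abs_nonneg _).trans (hL 0)
  refine ⟨L + 2 * B, fun x y => ?_⟩
  have hα1 : Int.fract t < 1 := Int.fract_lt_one t
  rcases le_total |x - y| 1 with h1 | h1
  · have h2 : |x - y| ≤ |x - y| ^ Int.fract t := by
      conv_lhs => rw [← Real.rpow_one |x - y|]
      exact Real.rpow_le_rpow_of_exponent_ge' (abs_nonneg _) h1 hα.le hα1.le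
    have h3 : 0 ≤ |x - y| ^ Int.fract t := Real.rpow_nonneg (abs_nonneg _) _
    calc |u x - u y| ≤ L * |x - y| := lip_of_bound hud hL x y
      _ ≤ L * |x - y| ^ Int.fract t := mul_le_mul_of_nonneg_left h2 hL0
      _ ≤ _ := by nlinarith
  · have h2 : 1 ≤ |x - y| ^ Int.fract t := Real.one_le_rpow h1 hα.le
    have h3 : |u x - u y| ≤ 2 * B := by
      refine (abs_sub _ _).trans ?_
      linarith [hB x, hB y]
    nlinarith

/-! ### the circle diffeomorphism -/

theorem exists_homeo (F : CircleDeg1Lift) (hF : ContDiff ℝ ∞ F) (hpos : ∀ x, 0 < deriv F x) :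
    ∃ f : UnitAddCircle ≃ₜ UnitAddCircle, IsLift f F ∧ ∀ s, 1 ≤ s → IsCtDiffeo s f := by
  have hmono : StrictMono F := strictMono_of_deriv_pos hpos
  have hsurj : Function.Surjective F := surj_of_lift hF.continuous F.map_add_one
  let e : ℝ ≃ₜ ℝ := (hmono.orderIsoOfSurjective F hsurj).toHomeomorph
  have he : ∀ x, e x = F x := fun x => rfl
  have hes : ContDiff ℝ ∞ e.symm := by
    refine e.contDiff_symm_deriv (f' := deriv F) (fun x => (hpos x).ne') (fun x => ?_) hF
    exact (hF.differentiable (by simp) x).hasDerivAt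
  have hG1 : ∀ x, e.symm (x + 1) = e.symm x + 1 := by
    intro x
    rw [e.symm_apply_eq, he, F.map_add_one, ← he, e.apply_symm_apply]
  have hFe : ∀ x, F (e.symm x) = x := fun x => e.apply_symm_apply x
  have heF : ∀ x, e.symm (F x) = x := fun x => e.symm_apply_apply x
  let f : UnitAddCircle ≃ₜ UnitAddCircle :=
    { toFun := mkC F F.map_add_one
      invFun := mkC e.symm hG1
      left_inv := by
        intro x
        induction x using QuotientAddGroup.induction_on with
        | H x =>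
          show mkC e.symm hG1 (mkC F F.map_add_one ((x : ℝ) : UnitAddCircle)) = _
          rw [mkC_coe, mkC_coe, heF]
      right_inv := by
        intro x
        induction x using QuotientAddGroup.induction_on with
        | H x =>
          show mkC F F.map_add_one (mkC e.symm hG1 ((x : ℝ) : UnitAddCircle)) = _
          rw [mkC_coe, mkC_coe, hFe]
      continuous_toFun := mkC_continuous _ _ hF.continuous
      continuous_invFun := mkC_continuous _ _ e.symm.continuous }
  have hl : IsLift f F := ⟨hF.continuous, fun x => rfl⟩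
  have hl' : IsLift f.symm e.symm := ⟨e.symm.continuous, fun x => rfl⟩
  refine ⟨f, hl, fun s hs => ⟨⟨F, hl, hmono, isCt_of_smooth hF F.map_add_one hs⟩,
    ⟨e.symm, hl', isCt_of_smooth hes hG1 hs⟩⟩⟩

/-! ### no convergence -/

theorem bound_of_crNorm {r : ℝ} {φ : ℝ → ℝ} (h : crNorm r φ ≤ 1) :
    (∀ j ≤ ⌊r⌋₊, ∀ x, |iteratedDeriv j φ x| ≤ 1) ∧
      (0 < Int.fract r → ∀ x y, x ≠ y →
        |iteratedDeriv ⌊r⌋₊ φ x - iteratedDeriv ⌊r⌋₊ φ y| ≤ |x - y| ^ Int.fract r) := by
  unfold crNorm at h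
  constructor
  · intro j hj x
    have h1 : ENNReal.ofReal |iteratedDeriv j φ x| ≤ 1 := by
      calc ENNReal.ofReal |iteratedDeriv j φ x|
          ≤ ⨆ x : ℝ, ENNReal.ofReal |iteratedDeriv j φ x| :=
            le_iSup (fun x : ℝ => ENNReal.ofReal |iteratedDeriv j φ x|) x
        _ ≤ ∑ j ∈ Finset.range (⌊r⌋₊ + 1), ⨆ x : ℝ, ENNReal.ofReal |iteratedDeriv j φ x| :=
            Finset.single_le_sum (f := fun j => ⨆ x : ℝ, ENNReal.ofReal |iteratedDeriv j φ x|)
              (fun _ _ => zero_le) (Finset.mem_range.2 (by omega))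
        _ ≤ 1 := le_trans le_self_add h
    rwa [ENNReal.ofReal_le_one] at h1
  · intro hα x y hxy
    rw [if_pos hα] at h
    have h1 : ENNReal.ofReal (|iteratedDeriv ⌊r⌋₊ φ x - iteratedDeriv ⌊r⌋₊ φ y|
        / |x - y| ^ Int.fract r) ≤ 1 := by
      refine le_trans ?_ (le_trans le_add_self h)
      exact le_iSup_of_le x (le_iSup_of_le y (le_iSup_of_le hxy le_rfl))
    rw [ENNReal.ofReal_le_one] at h1
    have h2 : 0 < |x - y| ^ Int.fract r := Real.rpow_pos_of_pos (abs_pos.2 (sub_ne_zero.2 hxy)) _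
    rwa [div_le_one h2] at h1

theorem not_tendsto {F : CircleDeg1Lift} (hF : ContDiff ℝ ∞ F) (hst : ∀ N, 0 < N → Steep N F)
    {f : UnitAddCircle → UnitAddCircle} (hf : IsLift f F) {r : ℝ} (hr : 1 < r) :
    ¬ TendstoIdCr r (fun n => f^[((Int.fract F.translationNumber).convergent n).den]) := by
  rintro ⟨G, hG, hlim⟩
  set ρ := Int.fract F.translationNumber with hρ
  obtain ⟨M, hM⟩ := eventually_atTop.1 (hlim.eventually_le_const (show (0 : ℝ≥0∞) < 1 from one_pos))
  -- choose N
  obtain ⟨N₁, hN₁⟩ := exists_nat_gt (1 / Int.fract r)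
  set B : ℕ := ∑ n ∈ Finset.range M, (ρ.convergent n).den with hB
  obtain ⟨m, k, U, U', hm, hk, hU, hs, hτ⟩ := hst (max (max N₁ B) 1) (by positivity)
  set N : ℕ := max (max N₁ B) 1 with hN
  have hN1 : 1 ≤ N := le_max_right _ _
  have hm0 : 0 < m := by omega
  obtain ⟨n, hn⟩ := exists_conv hm0 hk hτ
  have hnM : M ≤ n := by
    by_contra hcon
    have h1 : (ρ.convergent n).den ≤ B :=
      Finset.single_le_sum (f := fun n => (ρ.convergent n).den) (fun _ _ => Nat.zero_le _)
        (Finset.mem_range.2 (not_le.1 hcon))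
    rw [hn] at h1
    have h2 : B ≤ N := (le_max_right _ _).trans (le_max_left _ _)
    omega
  have hcr := hM n hnM
  obtain ⟨hb1, hb2⟩ := bound_of_crNorm hcr
  have hGn : IsLift f^[m] (G n) := by
    rw [← hn]
    exact hG n
  obtain ⟨c, hc⟩ := lift_unique hGn (IsLift.iterate hf m)
  have hFm : ContDiff ℝ ∞ (F^[m] : ℝ → ℝ) := by
    clear * - hF
    induction m with
    | zero => exact contDiff_id
    | succ m ih => rw [Function.iterate_succ']; exact hF.comp ih
  have hφ : (fun x => G n x - x) = fun x => (F^[m] x - x) + c := by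
    funext x; rw [hc x]; ring
  rw [hφ] at hb1 hb2
  have hFd : Differentiable ℝ (F^[m] : ℝ → ℝ) := hFm.differentiable (by simp)
  have hd1 : ∀ x, deriv (fun x => (F^[m] x - x) + c) x = deriv (F^[m]) x - 1 := by
    intro x
    have := ((hFd x).hasDerivAt.sub (hasDerivAt_id x)).add_const (c : ℝ)
    exact this.deriv
  have hd1' : deriv (fun x => (F^[m] x - x) + c) = fun x => deriv (F^[m]) x - 1 := funext hd1
  have hUU : U ≠ U' := by
    rintro rfl
    simp only [sub_self, abs_zero] at hs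
    have : (0 : ℝ) ≤ N * 0 ^ (1 / (N : ℝ)) := by positivity
    linarith
  have hUpos : 0 < |U - U'| := abs_pos.2 (sub_ne_zero.2 hUU)
  have hNR : (1 : ℝ) ≤ N := by exact_mod_cast hN1
  -- the target estimate
  have key : |deriv (F^[m]) U - deriv (F^[m]) U'| ≤ |U - U'| ^ (1 / (N : ℝ)) := by
    have hk1 : 1 ≤ ⌊r⌋₊ := (Nat.one_le_floor_iff r).2 hr.le
    rcases hk1.eq_or_lt with hk1 | hk2
    · -- r = 1 + α
      have hα : 0 < Int.fract r := by
        have h1 : (⌊r⌋₊ : ℝ) = ⌊r⌋ := natCast_floor_eq_intCast_floor (by linarith)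
        have h2 := Int.floor_add_fract r
        rw [← h1, ← hk1] at h2
        push_cast at h2
        linarith
      have h1 := hb2 hα U U' hUU
      rw [← hk1, iteratedDeriv_one, hd1', show deriv (F^[m]) U - 1 - (deriv (F^[m]) U' - 1)
        = deriv (F^[m]) U - deriv (F^[m]) U' by ring] at h1
      refine h1.trans ?_
      refine Real.rpow_le_rpow_of_exponent_ge hUpos hU ?_
      have h3 : (N₁ : ℝ) ≤ N := by exact_mod_cast (le_max_left _ _).trans (le_max_left _ _)
      have h4 : 1 / Int.fract r < N := hN₁.trans_le h3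
      rw [div_lt_iff₀ hα] at h4
      rw [div_le_iff₀ (by linarith)]
      linarith
    · -- r ≥ 2
      have h2 : ∀ x, |deriv (deriv (fun x => (F^[m] x - x) + c)) x| ≤ 1 := by
        intro x
        have := hb1 2 hk2 x
        rwa [show (2 : ℕ) = 1 + 1 from rfl, iteratedDeriv_succ, iteratedDeriv_one] at this
      have hdd : Differentiable ℝ (deriv (fun x => (F^[m] x - x) + c)) := by
        rw [hd1']
        have : ContDiff ℝ ∞ (deriv (F^[m])) := (contDiff_infty_iff_deriv.1 hFm).2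
        exact (this.differentiable (by simp)).sub_const 1
      have h3 := lip_of_bound hdd h2 U U'
      rw [hd1 U, hd1 U', one_mul, show deriv (F^[m]) U - 1 - (deriv (F^[m]) U' - 1)
        = deriv (F^[m]) U - deriv (F^[m]) U' by ring] at h3
      refine h3.trans ?_
      conv_lhs => rw [← Real.rpow_one |U - U'|]
      refine Real.rpow_le_rpow_of_exponent_ge hUpos hU ?_
      rw [div_le_one (by linarith)]
      exact hNR
  have h5 : 0 ≤ |U - U'| ^ (1 / (N : ℝ)) := Real.rpow_nonneg (abs_nonneg _) _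
  have h6 : |U - U'| ^ (1 / (N : ℝ)) ≤ N * |U - U'| ^ (1 / (N : ℝ)) := by nlinarith
  linarith

theorem main : ∃ (f : UnitAddCircle ≃ₜ UnitAddCircle) (ρ : ℝ),
    (∀ s : ℝ, 1 ≤ s → IsCtDiffeo s f) ∧ HasRotationNumber f ρ ∧ Irrational ρ ∧
      ∀ r : ℝ, 1 < r → ¬ TendstoIdCr r (fun n => f^[(ρ.convergent n).den]) := by
  obtain ⟨F, hF, hpos, hst⟩ := limit_exists
  obtain ⟨f, hf, hct⟩ := exists_homeo F hF (fun x => by linarith [hpos x])
  refine ⟨f, Int.fract F.translationNumber, hct, ⟨F, F.translationNumber, hf, ?_, rfl⟩, ?_, ?_⟩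
  · intro x
    have := F.tendsto_translationNumber x
    refine this.congr fun n => ?_
    rw [CircleDeg1Lift.coe_pow]
  · have h1 := irrational_of_steep hst
    unfold Int.fract
    exact h1.sub_intCast _
  · intro r hr
    exact not_tendsto hF hst hf hr

end Pool.Agent.Helper802.Mob
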